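import Pool.Agent.Work.MP_859ada_lc.FS.Stmts

/-! Item ELN of block FS (helper51): the length of the code of a certificate. -/

set_option autoImplicit false

namespace Pool.Agent.Work.MP_859ada_lc.FS

open Polynomial Pool.Agent.PT

theorem ELN_len (l : List ℕ) : (encNums l).length = l.sum + l.length := by
  induction l with
  | nil => rfl
  | cons k l ih =>
    have h : encNums (k :: l) = (List.replicate k true ++ [false]) ++ encNums l := rfl
    rw [h, List.length_append, ih, List.length_append, List.length_replicate, List.sum_cons,
      List.length_cons, List.length_cons, List.length_nil]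
    omega

theorem ELN_app (l l' : List ℕ) : (encNums (l ++ l')).length = (encNums l).length + (encNums l').length := by
  rw [ELN_len, ELN_len, ELN_len, List.sum_append, List.length_append]
  omega

theorem ELN_gates (j m : ℕ) (p : List Gate) (h : ∀ g ∈ p, g.code.1 + g.code.2.1 + g.code.2.2 ≤ m) :
    (encNums (p.flatMap (fun g => [j, g.code.1, g.code.2.1, g.code.2.2]))).length ≤ p.length * (j + m + 4) := by
  induction p with
  | nil => simp [encNums]
  | cons g p ih =>
    rw [List.flatMap_cons, ELN_app, ELN_len]
    have h1 := ih fun g' hg' => h g' (List.mem_cons_of_mem _ hg')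
    have h2 := h g List.mem_cons_self
    rw [List.length_cons]
    simp only [List.sum_cons, List.sum_nil, List.length_cons, List.length_nil]
    nlinarith

theorem ELN_wf (n : ℕ) (p : List Gate) (hp : WF 0 p) (hn : p.length ≤ n) :
    ∀ g ∈ p, g.code.1 + g.code.2.1 + g.code.2.2 ≤ 4 + 2 * n := by
  intro g hg
  obtain ⟨k, hk, rfl⟩ := List.getElem_of_mem hg
  have h := hp k hk
  revert h
  cases p[k] with
  | one => intro _; simp [Gate.code]
  | var i => intro h; exact absurd h (Nat.not_lt_zero i)
  | add i j => intro h; obtain ⟨h1, h2⟩ := h; simp only [Gate.code]; omega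
  | sub i j => intro h; obtain ⟨h1, h2⟩ := h; simp only [Gate.code]; omega
  | mul i j => intro h; obtain ⟨h1, h2⟩ := h; simp only [Gate.code]; omega

theorem prfELN : ELN := by
  refine ⟨fun n a b ha hb hla hlb => ?_, fun p => ?_⟩
  · have e : encSys [a, b] = encNums ([2] ++ (a.flatMap (fun g => [0, g.code.1, g.code.2.1, g.code.2.2]) ++
        b.flatMap (fun g => [1, g.code.1, g.code.2.1, g.code.2.2]))) := by
      simp [encSys, List.range_succ]
    rw [e, ELN_app, ELN_app]
    have h1 := ELN_gates 0 (4 + 2 * n) a (ELN_wf n a ha hla)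
    have h2 := ELN_gates 1 (4 + 2 * n) b (ELN_wf n b hb hlb)
    have h3 : (encNums [2]).length = 3 := rfl
    rw [h3]
    have h4 : a.length * (0 + (4 + 2 * n) + 4) ≤ n * (0 + (4 + 2 * n) + 4) := Nat.mul_le_mul_right _ hla
    have h5 : b.length * (1 + (4 + 2 * n) + 4) ≤ n * (1 + (4 + 2 * n) + 4) := Nat.mul_le_mul_right _ hlb
    nlinarith
  · induction p with
    | nil => simp
    | cons g p ih =>
      have h : encProg (g :: p) = encNums ([g.code.1, g.code.2.1, g.code.2.2] ++
          p.flatMap (fun g => [g.code.1, g.code.2.1, g.code.2.2])) := rfl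
      have h' : encProg p = encNums (p.flatMap (fun g => [g.code.1, g.code.2.1, g.code.2.2])) := rfl
      rw [h, ELN_app, ← h', List.length_cons, ELN_len]
      simp only [List.length_cons, List.length_nil]
      omega

end Pool.Agent.Work.MP_859ada_lc.FS
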