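import Pool.Agent.Work.MP_859ada_lc.FS.Stmts

/-!
# Item FPT of block FS: the query is computable in polynomial time
-/

set_option autoImplicit false

namespace Pool.Agent.Work.MP_859ada_lc.FS

open Polynomial Pool.Agent.PT

section
variable {α : Type} [Enc α]

/-- the two gates of a sum at a fraction, with the operation `op` -/
theorem FPT_quad {o i j : α → ℕ} {g : α → Gate} (ho : PTF o) (hi : PTF i) (hj : PTF j) (hg : PTF g) :
    PTF (fun a => [Gate.mul (o a + 4 * i a + 2) (o a + 4 * j a + 3),
      Gate.mul (o a + 4 * j a + 2) (o a + 4 * i a + 3), g a,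
      Gate.mul (o a + 4 * i a + 3) (o a + 4 * j a + 3)]) := by
  fun_prop

theorem FPT_fblk {pa pb o k : α → ℕ} {g : α → Gate} (hpa : PTF pa) (hpb : PTF pb) (ho : PTF o)
    (hk : PTF k) (hg : PTF g) : PTF (fun a => fblk (pa a) (pb a) (o a) (k a) (g a)) := by
  have hi : PTF (fun a => (g a).code.2.1) := by fun_prop
  have hj : PTF (fun a => (g a).code.2.2) := by fun_prop
  have ha : PTF (fun a => Gate.add (o a + 4 * k a) (o a + 4 * k a + 1)) := by fun_prop
  have hs : PTF (fun a => Gate.sub (o a + 4 * k a) (o a + 4 * k a + 1)) := by fun_prop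
  have hm : PTF (fun a => [Gate.one, Gate.one, Gate.mul (o a + 4 * (g a).code.2.1 + 2)
      (o a + 4 * (g a).code.2.2 + 2), Gate.mul (o a + 4 * (g a).code.2.1 + 3)
      (o a + 4 * (g a).code.2.2 + 3)]) := by fun_prop
  have hv : PTF (fun a => [Gate.one, Gate.one, Gate.mul 0 (pa a), Gate.mul 0 (pb a)]) := by fun_prop
  have h0 : PTF (fun a => decide ((g a).code.1 = 0)) := by fun_prop
  have h1 : PTF (fun a => decide ((g a).code.1 = 1)) := by fun_prop
  have h2 : PTF (fun a => decide ((g a).code.1 = 2)) := by fun_prop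
  have h3 : PTF (fun a => decide ((g a).code.1 = 3)) := by fun_prop
  have h := PTF.ite h0 (PTF.const [Gate.one, Gate.one, Gate.one, Gate.one]) (PTF.ite h1 hv
    (PTF.ite h2 (FPT_quad ho hi hj ha) (PTF.ite h3 (FPT_quad ho hi hj hs) hm)))
  refine h.congr (fun a => ?_)
  cases g a <;> simp [Gate.code, fblk]

end

theorem prfFPT : FPT := by
  unfold FPT fprog
  have hn : PTF (fun x : (ℕ × List Gate) × (List Gate × List Gate) =>
    x.2.1.length + x.2.2.length + 1) := by fun_prop
  refine PTF.append (by fun_prop) (PTF.append (by fun_prop) (PTF.append (by fun_prop)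
    (PTF.append (PTF.flatMap' ?_ (by fun_prop)) (by fun_prop))))
  exact FPT_fblk (by fun_prop) (by fun_prop) (by fun_prop) (by fun_prop) (by fun_prop)

end Pool.Agent.Work.MP_859ada_lc.FS
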