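import Pool.Agent.Work.MP_859ada_lc.FS.Stmts

/-!
# Block FS, item FPV: the value of the query
-/

set_option autoImplicit false

namespace Pool.Agent.Work.MP_859ada_lc.FS

open Polynomial Pool.Agent.PT

theorem FPV_length_fblk (pa pb o k : ℕ) (g : Gate) : (fblk pa pb o k g).length = 4 := by
  cases g <;> rfl

/-- the blocks -/
theorem FPV_blocks {v x' : ℕ → ℤ} {α β : ℤ} {pa pb o : ℕ} {p : List Gate} (hp : WF 1 p)
    (h0 : v 0 = 1) (ha : v pa = α) (hb : v pb = β)
    (h : ∀ k < p.length, AllAt (fun k g => v k = g.eqv x' v) (o + k * 4)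
      (fblk pa pb o k (p.getD k .one))) :
    ∀ k < p.length,
      (v (o + 4 * k + 3) ≠ 0 → ((v (o + 4 * k + 2) : ℤ) : ℝ) / ((v (o + 4 * k + 3) : ℤ) : ℝ) =
        (vals (fun _ => (α : ℝ) / (β : ℝ)) p).getD k 0) ∧
      (β ≠ 0 → v (o + 4 * k + 3) ≠ 0) := by
  intro k
  induction k using Nat.strong_induction_on with
  | _ k ih =>
    intro hk
    have h1 := h k hk
    have h2 := hp k hk
    rw [List.getD_eq_getElem _ _ hk] at h1
    rw [vals_getD_eq (fun _ => (α : ℝ) / (β : ℝ)) p hk]
    have e0 : o + k * 4 = o + 4 * k := by ring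
    rw [e0] at h1
    have htk : ∀ i, i < k → (vals (fun _ => (α : ℝ) / (β : ℝ)) (p.take k)).getD i 0 =
        (vals (fun _ => (α : ℝ) / (β : ℝ)) p).getD i 0 := by
      intro i hi
      rw [vals_getD_take, if_pos hi]
    generalize p[k] = g at h1 h2
    cases g with
    | one =>
      simp only [fblk, allAt_cons, allAt_nil, and_true] at h1
      obtain ⟨-, -, h3, h4⟩ := h1
      change v (o + 4 * k + 1 + 1) = 1 at h3
      change v (o + 4 * k + 1 + 1 + 1) = 1 at h4
      have h3' : v (o + 4 * k + 2) = 1 := h3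
      have h4' : v (o + 4 * k + 3) = 1 := h4
      rw [h3', h4']
      simp [Gate.val]
    | var i =>
      simp only [fblk, allAt_cons, allAt_nil, and_true] at h1
      obtain ⟨-, -, h3, h4⟩ := h1
      change v (o + 4 * k + 1 + 1) = v 0 * v pa at h3
      change v (o + 4 * k + 1 + 1 + 1) = v 0 * v pb at h4
      have h3' : v (o + 4 * k + 2) = α := by
        rw [h0, ha, one_mul] at h3
        exact h3
      have h4' : v (o + 4 * k + 3) = β := by
        rw [h0, hb, one_mul] at h4
        exact h4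
      rw [h3', h4']
      exact ⟨fun _ => rfl, fun h => h⟩
    | add i j =>
      simp only [fblk, allAt_cons, allAt_nil, and_true] at h1
      obtain ⟨h5, h6, h3, h4⟩ := h1
      change v (o + 4 * k) = v (o + 4 * i + 2) * v (o + 4 * j + 3) at h5
      change v (o + 4 * k + 1) = v (o + 4 * j + 2) * v (o + 4 * i + 3) at h6
      change v (o + 4 * k + 1 + 1) = v (o + 4 * k) + v (o + 4 * k + 1) at h3
      change v (o + 4 * k + 1 + 1 + 1) = v (o + 4 * i + 3) * v (o + 4 * j + 3) at h4
      obtain ⟨hi, hj⟩ := h2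
      have ii := ih i hi (by omega)
      have jj := ih j hj (by omega)
      have h3' : v (o + 4 * k + 2) = v (o + 4 * i + 2) * v (o + 4 * j + 3) +
          v (o + 4 * j + 2) * v (o + 4 * i + 3) := by
        rw [h5, h6] at h3
        exact h3
      have h4' : v (o + 4 * k + 3) = v (o + 4 * i + 3) * v (o + 4 * j + 3) := h4
      refine ⟨fun hD => ?_, fun hβ => ?_⟩
      · rw [h4'] at hD
        have di := left_ne_zero_of_mul hD
        have dj := right_ne_zero_of_mul hD
        simp only [Gate.val]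
        rw [htk i hi, htk j hj, ← ii.1 di, ← jj.1 dj, h3', h4']
        have di' : ((v (o + 4 * i + 3) : ℤ) : ℝ) ≠ 0 := by exact_mod_cast di
        have dj' : ((v (o + 4 * j + 3) : ℤ) : ℝ) ≠ 0 := by exact_mod_cast dj
        push_cast
        field_simp
      · rw [h4']
        exact mul_ne_zero (ii.2 hβ) (jj.2 hβ)
    | sub i j =>
      simp only [fblk, allAt_cons, allAt_nil, and_true] at h1
      obtain ⟨h5, h6, h3, h4⟩ := h1
      change v (o + 4 * k) = v (o + 4 * i + 2) * v (o + 4 * j + 3) at h5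
      change v (o + 4 * k + 1) = v (o + 4 * j + 2) * v (o + 4 * i + 3) at h6
      change v (o + 4 * k + 1 + 1) = v (o + 4 * k) - v (o + 4 * k + 1) at h3
      change v (o + 4 * k + 1 + 1 + 1) = v (o + 4 * i + 3) * v (o + 4 * j + 3) at h4
      obtain ⟨hi, hj⟩ := h2
      have ii := ih i hi (by omega)
      have jj := ih j hj (by omega)
      have h3' : v (o + 4 * k + 2) = v (o + 4 * i + 2) * v (o + 4 * j + 3) -
          v (o + 4 * j + 2) * v (o + 4 * i + 3) := by
        rw [h5, h6] at h3
        exact h3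
      have h4' : v (o + 4 * k + 3) = v (o + 4 * i + 3) * v (o + 4 * j + 3) := h4
      refine ⟨fun hD => ?_, fun hβ => ?_⟩
      · rw [h4'] at hD
        have di := left_ne_zero_of_mul hD
        have dj := right_ne_zero_of_mul hD
        simp only [Gate.val]
        rw [htk i hi, htk j hj, ← ii.1 di, ← jj.1 dj, h3', h4']
        have di' : ((v (o + 4 * i + 3) : ℤ) : ℝ) ≠ 0 := by exact_mod_cast di
        have dj' : ((v (o + 4 * j + 3) : ℤ) : ℝ) ≠ 0 := by exact_mod_cast dj
        push_cast
        field_simp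
      · rw [h4']
        exact mul_ne_zero (ii.2 hβ) (jj.2 hβ)
    | mul i j =>
      simp only [fblk, allAt_cons, allAt_nil, and_true] at h1
      obtain ⟨-, -, h3, h4⟩ := h1
      change v (o + 4 * k + 1 + 1) = v (o + 4 * i + 2) * v (o + 4 * j + 2) at h3
      change v (o + 4 * k + 1 + 1 + 1) = v (o + 4 * i + 3) * v (o + 4 * j + 3) at h4
      obtain ⟨hi, hj⟩ := h2
      have ii := ih i hi (by omega)
      have jj := ih j hj (by omega)
      have h3' : v (o + 4 * k + 2) = v (o + 4 * i + 2) * v (o + 4 * j + 2) := h3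
      have h4' : v (o + 4 * k + 3) = v (o + 4 * i + 3) * v (o + 4 * j + 3) := h4
      refine ⟨fun hD => ?_, fun hβ => ?_⟩
      · rw [h4'] at hD
        have di := left_ne_zero_of_mul hD
        have dj := right_ne_zero_of_mul hD
        simp only [Gate.val]
        rw [htk i hi, htk j hj, ← ii.1 di, ← jj.1 dj, h3', h4']
        have di' : ((v (o + 4 * i + 3) : ℤ) : ℝ) ≠ 0 := by exact_mod_cast di
        have dj' : ((v (o + 4 * j + 3) : ℤ) : ℝ) ≠ 0 := by exact_mod_cast dj
        push_cast
        field_simp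
      · rw [h4']
        exact mul_ne_zero (ii.2 hβ) (jj.2 hβ)

theorem prfFPV (h1 : FPW) : FPV := by
  intro c a b p hp0 hp
  have hwf := h1 c a b p hp0 hp
  have hM := models_self hwf (fun _ => (0 : ℤ))
  have hL : 0 < p.length := List.length_pos_iff.2 hp0
  obtain ⟨n, hn⟩ : ∃ n, n = a.length + b.length + 1 := ⟨_, rfl⟩
  obtain ⟨L, hLL⟩ : ∃ L, L = p.length := ⟨_, rfl⟩
  have hlen : (fprog c a b p).length = c + 3 + 2 * n + 4 * L + 4 := by
    unfold fprog
    rw [List.length_append, List.length_append, List.length_append, List.length_append,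
      length_preB, length_copyB (by omega), length_copyB (by omega),
      length_flatMap_range (W := 4) (fun j _ => FPV_length_fblk _ _ _ _ _), ← hn, ← hLL]
    simp only [List.length_cons, List.length_nil]
    omega
  rw [value_eq_getD, hlen]
  generalize hv : (fun i' => (vals (fun _ => (0 : ℤ)) (fprog c a b p)).getD i' 0) = v at hM
  have hv' : ∀ i', (vals (fun _ => (0 : ℤ)) (fprog c a b p)).getD i' 0 = v i' :=
    fun i' => by rw [← hv]
  rw [hv']
  simp only [hv'] at hM
  clear hv hv'
  unfold fprog at hM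
  rw [allAt_append, allAt_append, allAt_append, allAt_append, length_preB,
    length_copyB (by omega), length_copyB (by omega),
    length_flatMap_range (W := 4) (fun j _ => FPV_length_fblk _ _ _ _ _),
    allAt_flatMap_range (W := 4) _ (fun j _ => FPV_length_fblk _ _ _ _ _), ← hn, ← hLL] at hM
  obtain ⟨hA, hB, hC, hD, hE⟩ := hM
  obtain ⟨v0, v1, v2⟩ := preB_value hA
  rw [show 0 + (3 + c) = c + 3 by ring] at hB hC hD hE
  have hVa := copyB_value hB v1 (by omega) (by omega) (x' := fun _ => 0) (fun _ => by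
    rw [eqv_sub, sub_self])
  have hVb := copyB_value hC v1 (by omega) (by omega) (x' := fun _ => 0) (fun _ => by
    rw [eqv_sub, sub_self])
  rw [show c + 3 + n - 1 = c + 2 + n by omega] at hVa
  rw [show c + 3 + n + n - 1 = c + 2 + 2 * n by omega] at hVb
  rw [show c + 3 + n + n = c + 3 + 2 * n by ring] at hD hE
  have hBl := FPV_blocks hp v0 hVa hVb (o := c + 3 + 2 * n) (by
    intro k hk
    exact hD k (by omega)) (L - 1) (by omega)
  simp only [allAt_cons, allAt_nil, and_true, eqv_mul, eqv_sub] at hE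
  obtain ⟨g0, g1, g2, g3⟩ := hE
  obtain ⟨o, ho⟩ : ∃ o, o = c + 3 + 2 * n := ⟨_, rfl⟩
  rw [← ho] at g0 g1 g2 g3 hBl
  rw [show o + L * 4 = o + 4 * L by ring] at g0 g1 g2 g3
  rw [show o + 4 * (L - 1) + 3 = o + 4 * L - 1 by omega,
    show o + 4 * (L - 1) + 2 = o + 4 * L - 2 by omega] at hBl
  have g0' : v (o + 4 * L) = 2 ^ (2 ^ c) * v (o + 4 * L - 2) := by
    rw [g0, v2 c le_rfl]
  have g1' : v (o + 4 * L + 1) = v (o + 4 * L) * v (o + 4 * L) := g1
  have g2' : v (o + 4 * L + 2) = v (o + 4 * L - 1) * v (o + 4 * L - 1) := g2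
  have g3' : v (o + 4 * L + 3) = v (o + 4 * L + 2) - v (o + 4 * L + 1) := g3
  refine ⟨v (o + 4 * L - 2), v (o + 4 * L - 1), ?_, ?_, hBl.2⟩
  · rw [show c + 3 + 2 * n + 4 * L + 4 - 1 = o + 4 * L + 3 by omega, g3', g2', g1', g0']
    ring
  · intro hD0
    rw [hBl.1 hD0, hLL]
    exact (value_eq_getD _ p).symm

end Pool.Agent.Work.MP_859ada_lc.FS
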