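import Pool.Agent.Work.MP_859ada_lc.FS.Stmts

/-!
# Item FPW: the query is well formed
-/

set_option autoImplicit false

namespace Pool.Agent.Work.MP_859ada_lc.FS

theorem FPW_length_fblk (pa pb o k : ℕ) (g : Gate) : (fblk pa pb o k g).length = 4 := by
  cases g <;> rfl

theorem FPW_fblk_ok {pa pb o k : ℕ} {g : Gate} (ha : pa < o) (hb : pb < o) (hg : g.Ok 1 k) :
    AllAt (fun k g => g.Ok 0 k) (o + k * 4) (fblk pa pb o k g) := by
  cases g with
  | one => simp [fblk, allAt_cons, allAt_nil, Gate.Ok]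
  | var i =>
    simp only [fblk, allAt_cons, allAt_nil, Gate.Ok, and_true, true_and]
    refine ⟨⟨by omega, by omega⟩, by omega, by omega⟩
  | add i j =>
    simp only [Gate.Ok] at hg
    simp only [fblk, allAt_cons, allAt_nil, Gate.Ok, and_true]
    refine ⟨⟨by omega, by omega⟩, ⟨by omega, by omega⟩, ⟨by omega, by omega⟩, by omega, by omega⟩
  | sub i j =>
    simp only [Gate.Ok] at hg
    simp only [fblk, allAt_cons, allAt_nil, Gate.Ok, and_true]
    refine ⟨⟨by omega, by omega⟩, ⟨by omega, by omega⟩, ⟨by omega, by omega⟩, by omega, by omega⟩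
  | mul i j =>
    simp only [Gate.Ok] at hg
    simp only [fblk, allAt_cons, allAt_nil, Gate.Ok, and_true, true_and]
    refine ⟨⟨by omega, by omega⟩, by omega, by omega⟩

theorem prfFPW : FPW := by
  intro c a b p _ hp
  rw [wf_iff]
  unfold fprog
  obtain ⟨n, hn⟩ : ∃ n, n = a.length + b.length + 1 := ⟨_, rfl⟩
  rw [← hn, allAt_append, allAt_append, allAt_append, allAt_append, length_preB,
    length_copyB (by omega), length_copyB (by omega),
    allAt_flatMap_range _ (W := 4) (fun _ _ => FPW_length_fblk _ _ _ _ _),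
    length_flatMap_range (W := 4) (fun _ _ => FPW_length_fblk _ _ _ _ _)]
  refine ⟨preB_ok 0 c, ?_, ?_, fun k hk => ?_, ?_⟩
  · rw [Nat.zero_add, Nat.add_comm 3 c]
    exact copyB_ok (by omega) (fun _ => ⟨by omega, by omega⟩)
  · rw [Nat.zero_add, Nat.add_comm 3 c]
    exact copyB_ok (by omega) (fun _ => ⟨by omega, by omega⟩)
  · rw [show 0 + (3 + c) + n + n + k * 4 = (c + 3 + 2 * n) + k * 4 by ring]
    refine FPW_fblk_ok (by omega) (by omega) ?_
    rw [List.getD_eq_getElem _ _ hk]
    exact hp k hk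
  · simp only [allAt_cons, allAt_nil, Gate.Ok, and_true]
    refine ⟨⟨by omega, by omega⟩, ⟨by omega, by omega⟩, ⟨by omega, by omega⟩, by omega, by omega⟩

end Pool.Agent.Work.MP_859ada_lc.FS
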