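import Pool.Agent.Work.MP_859ada_lc.FS.Stmts

/-!
# Block FS, item CLS: the inputs with a certificate form a language in NP^PosSLP
-/

set_option autoImplicit false

namespace Pool.Agent.Work.MP_859ada_lc.FS

open Polynomial Pool.Agent.PT

theorem CLS_certR : PTF certR := by
  have h : PTF (fun q : List Bool × List Bool => (decide (encProg (decProg q.1) = q.1) &&
      decide (decProg q.1 ≠ [])) && wfb 1 (decProg q.1)) := by
    fun_prop
  exact h

theorem CLS_certY (h1 : FPT) : PTF certY := by
  have h2 : PTF (fun s : List Bool × List Bool => ((3 * (decProg s.1).length + 4, decProg s.1),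
      ((decSys s.2).getD 0 [], (decSys s.2).getD 1 []))) := by
    fun_prop
  exact PTF.cons (h1.comp h2) (PTF.const [])

theorem prfCLS (h1 : FPT) : CLS := by
  intro P
  refine ⟨P, certR, certY, fun _ => [], R_of_ptf CLS_certR, E_of_ptf (CLS_certY h1),
    E_of_ptf (PTF.const _), fun x => ?_⟩
  unfold certL
  constructor
  · rintro ⟨w, h2, h3, h4⟩
    exact ⟨w, h2, h3, h4, fun q hq => absurd hq List.not_mem_nil⟩
  · rintro ⟨w, h2, h3, h4, -⟩
    exact ⟨w, h2, h3, h4⟩

end Pool.Agent.Work.MP_859ada_lc.FS
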