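import Pool.Agent.Work.MP_859ada_lc.FS.Stmts

set_option autoImplicit false

namespace Pool.Agent.Work.MP_859ada_lc.FS

open Polynomial Pool.Agent.PT

theorem fewScales_mono {f : ℤ[X]} {k k' : ℕ} {x : ℝ} (h : FewScales f k x) (hk : k ≤ k') :
    FewScales f k' x := by
  obtain ⟨S, h1, h2⟩ := h
  refine ⟨S, h1.trans hk, fun z hz hzx hlt => h2 z hz hzx (lt_of_le_of_lt ?_ hlt)⟩
  exact mul_le_mul_of_nonneg_right (pow_le_pow_right₀ (by norm_num) hk) (norm_nonneg _)

theorem fewScales_zero (f : ℤ[X]) (k : ℕ) : FewScales f k 0 := by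
  refine ⟨∅, by simp, fun z _ _ h => ?_⟩
  rw [abs_zero] at h
  exact absurd h (not_lt.2 (by positivity))

/-- the bound for the parameters -/
noncomputable def kq (q : Polynomial ℕ) : Polynomial ℕ := X + 3 * q + 10

/-- the bound for the certificates -/
noncomputable def pq (q : Polynomial ℕ) : Polynomial ℕ :=
  20 * (5 * (100 * (kq q + 2) * (5 * kq q + 8) * (kq q + 2)) + 6) ^ 2

theorem eval_mono (q : Polynomial ℕ) {a b : ℕ} (h : a ≤ b) : q.eval a ≤ q.eval b := by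
  rw [eval_eq_sum_range, eval_eq_sum_range]
  exact Finset.sum_le_sum fun i _ => Nat.mul_le_mul_left _ (Nat.pow_le_pow_left h i)

theorem main (hCLS : CLS) (hSND : SND) (hELN : ELN) (hCPL : CPL) (hCMP : CMP) (hSPR : SPR)
    (hNRM : NRM) (q : Polynomial ℕ) : ∃ A : List Bool → Prop, NPPosSLP A ∧ (∀ s, A s → ROOTL s) ∧
      ∀ p : List Gate, ROOT p →
        ((fP p).support.card ≤ q.eval p.length ∨
          ∃ (x : ℝ) (h : List Gate), aeval x (fP p) = 0 ∧ h ≠ [] ∧ WF 1 h ∧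
            h.length ≤ q.eval p.length ∧ aeval x (fP h) = 0 ∧
            FewScales (fP h) (q.eval p.length) x) → A (encProg p) := by
  refine ⟨certL (pq q), hCLS _, hSND _, fun p hp hq => ?_⟩
  obtain ⟨hne, hwf, x1, hx1⟩ := hp
  change aeval x1 (fP p) = 0 at hx1
  obtain ⟨K, hK⟩ : ∃ K, K = (kq q).eval p.length := ⟨_, rfl⟩
  have hK' : K = p.length + 3 * q.eval p.length + 10 := by
    rw [hK]; simp [kq]
  -- a real root with few scales
  obtain ⟨x, h, hx, hh1, hh2, hh3, hh4, hh5⟩ : ∃ (x : ℝ) (h : List Gate), aeval x (fP p) = 0 ∧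
      h ≠ [] ∧ WF 1 h ∧ h.length ≤ K ∧ aeval x (fP h) = 0 ∧ FewScales (fP h) K x := by
    rcases hq with hq | ⟨x, h, h1, h2, h3, h4, h5, h6⟩
    · by_cases h0 : fP p = 0
      · exact ⟨0, p, by rw [h0]; simp, hne, hwf, by omega, by rw [h0]; simp, fewScales_zero _ _⟩
      · refine ⟨x1, p, hx1, hne, hwf, by omega, hx1, ?_⟩
        have h1 := hSPR (fP p) p.length (q.eval p.length) x1 h0 (hNRM p p.length le_rfl).1 hq
        exact fewScales_mono h1 (by omega)
    · exact ⟨x, h, h1, h2, h3, by omega, h5, fewScales_mono h6 (by omega)⟩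
  obtain ⟨a, b, ha, hb, hal, hbl, hpos⟩ := hCMP p h K K x hne hwf hh1 hh2 hh3 hx hh4 hh5
  refine hCPL (pq q) p a b hne hwf ?_ hpos
  obtain ⟨T, hT⟩ : ∃ T, T = 5 * (100 * (K + 2) * (5 * K + 8) * (K + 2)) + 5 := ⟨_, rfl⟩
  have hle : 5 * (100 * (K + 2) * (3 * p.length + K + K + 8) * (K + 2)) + 5 ≤ T := by
    rw [hT]
    gcongr
    omega
  have h1 := hELN.1 T a b ha hb (hal.trans hle) (hbl.trans hle)
  refine h1.trans ?_
  have h2 : (pq q).eval p.length = 20 * (T + 1) ^ 2 := by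
    rw [hT, hK]; simp [pq]
  rw [← h2]
  exact eval_mono _ (hELN.2 p)

end Pool.Agent.Work.MP_859ada_lc.FS
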