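import Pool.Agent.Work.MP_859ada_lc.FS.Scales
import Pool.Agent.Work.MP_859ada_lc.Main
import Pool.Agent.Work.MP_859ada_lc.CH.Gap

/-!
# Block FS (few scales): statements

THEOREM FS. For every polynomial `q` there is a language `A` in `NP^PosSLP`, contained in ROOT, which
contains every program `p` in ROOT such that (a) some real root `x` of `f_p` has at most `q(|p|)`
scales (`FewScales`) for some polynomial `f_h` with `f_h(x) = 0`, `|h| ≤ q(|p|)`; or (b) `f_p` has at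
most `q(|p|)` nonzero coefficients.

A certificate is a pair `(a, b)` of programs without variables; one PosSLP query (`fprog`) checks that
`2^(2^(3|p|+4)) |f_p(α/β)| < 1` for the integers `α`, `β` of `a`, `b`. Real numbers are approximated by
CHAINS: lists of reals, each one `1` or `y + z`, `y - z`, `y * z`, `y / z` with `y, z` later in the list.

Every item may assume the items it quotes, as hypotheses (`theorem prfITR (h1 : NST) (h2 : LGD) : ITR`).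
Please put the name of your item in the names of all auxiliary lemmas (they are all in the same
namespace). Useful: `Bd/B01.lean` (`value_map`, `value_eq_getD`, `vals_concat`, `models_self`,
`value_induction`, `norm_value_sub_le`, `copyB_ok`, `copyB_value`, `preB_ok`, `preB_value`,
`norm_root_le`), `Bd/B02.lean` (`wfb_iff`, `decProg_encProg`, `decSys_encSys`, `eqv_one` .. `eqv_mul`),
`Main.lean` (`R_of_ptf`, `E_of_ptf`, `negP_value` as a model for FPV), `CH/Gap.lean` (`abs_lower`),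
`CH/Norm.lean` (`nrm`).
-/

set_option autoImplicit false

namespace Pool.Agent.Work.MP_859ada_lc.FS

open Polynomial Pool.Agent.PT

/-! ## Part A: the certificate -/

/-- The block of four gates which simulates the gate `g` at position `k` of a program at a fraction.
`pa`, `pb`: positions of numerator and denominator of the argument, `o`: position of the block of the
gate `0`. The numerator of the value of the gate `k` is at `o + 4k + 2`, its denominator at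
`o + 4k + 3`. -/
def fblk (pa pb o k : ℕ) : Gate → List Gate
  | .one => [.one, .one, .one, .one]
  | .var _ => [.one, .one, .mul 0 pa, .mul 0 pb]
  | .add i j => [.mul (o + 4 * i + 2) (o + 4 * j + 3), .mul (o + 4 * j + 2) (o + 4 * i + 3),
      .add (o + 4 * k) (o + 4 * k + 1), .mul (o + 4 * i + 3) (o + 4 * j + 3)]
  | .sub i j => [.mul (o + 4 * i + 2) (o + 4 * j + 3), .mul (o + 4 * j + 2) (o + 4 * i + 3),
      .sub (o + 4 * k) (o + 4 * k + 1), .mul (o + 4 * i + 3) (o + 4 * j + 3)]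
  | .mul i j => [.one, .one, .mul (o + 4 * i + 2) (o + 4 * j + 2),
      .mul (o + 4 * i + 3) (o + 4 * j + 3)]

/-- The query. Layout, with `n = |a| + |b| + 1`: `preB c` (position `0`: the number 1, position `1`: 0,
position `2 + c`: `2^(2^c)`), a copy of `a` (its value is at `c + 2 + n`), a copy of `b` (its value
is at `c + 2 + 2n`), the blocks of the gates of `p` from `o = c + 3 + 2n` on, and four gates for
`D^2 - (2^(2^c) N)^2`. -/
def fprog (c : ℕ) (a b p : List Gate) : List Gate :=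
  preB c ++ (copyB (a.length + b.length + 1) 1 (c + 3) (fun _ => .sub 0 0) a ++
    (copyB (a.length + b.length + 1) 1 (c + 3 + (a.length + b.length + 1)) (fun _ => .sub 0 0) b ++
      ((List.range p.length).flatMap (fun k =>
          fblk (c + 2 + (a.length + b.length + 1)) (c + 2 + 2 * (a.length + b.length + 1))
            (c + 3 + 2 * (a.length + b.length + 1)) k (p.getD k .one)) ++
        [.mul (2 + c) (c + 3 + 2 * (a.length + b.length + 1) + 4 * p.length - 2),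
         .mul (c + 3 + 2 * (a.length + b.length + 1) + 4 * p.length)
           (c + 3 + 2 * (a.length + b.length + 1) + 4 * p.length),
         .mul (c + 3 + 2 * (a.length + b.length + 1) + 4 * p.length - 1)
           (c + 3 + 2 * (a.length + b.length + 1) + 4 * p.length - 1),
         .sub (c + 3 + 2 * (a.length + b.length + 1) + 4 * p.length + 2)
           (c + 3 + 2 * (a.length + b.length + 1) + 4 * p.length + 1)])))

/-- FPW (EASY-MEDIUM). The query is well formed. PROOF. `wf_iff`, `allAt_append`, `length_preB`,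
`length_copyB`, `preB_ok`, `copyB_ok`, `allAt_flatMap_range` (all blocks have length 4, `W = 4`), as in
`negP_value` (Main.lean). In block `k < |p|` the operands of the gate `p[k]` are `< k` by `WF 1 p`, so
`o + 4i + 3 < o + 4k`. -/
def FPW : Prop := ∀ (c : ℕ) (a b p : List Gate), p ≠ [] → WF 1 p → WF 0 (fprog c a b p)

/-- FPV (MEDIUM). The value of the query. PROOF. `models_self` for `FPW`, then as in `negP_value`
(Main.lean): split with `allAt_append`; `preB_value`: `v 0 = 1`, `v 1 = 0`, `v (2 + c) = 2^(2^c)`;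
`copyB_value` with `x' = 0`: `v (c + 2 + n) = α`, `v (c + 2 + 2n) = β`. By strong induction on
`k < |p|`, with `N_k = v (o + 4k + 2)`, `D_k = v (o + 4k + 3)`: if `D_k ≠ 0` then
`N_k / D_k = ` value of the gate `k` of `p` at `x = α/β` (the real number, `0` if `β = 0`), and if
`β ≠ 0` then `D_k ≠ 0`; use `vals_getD_eq` and `vals_getD_take` for the values of `p`. For `+`:
`D_k = D_i D_j`, `N_k = N_i D_j + N_j D_i`. The last four gates give `D^2 - (2^(2^c) N)^2` with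
`N = N_(|p|-1)`, `D = D_(|p|-1)`. -/
def FPV : Prop := ∀ (c : ℕ) (a b p : List Gate), p ≠ [] → WF 1 p → ∃ N D : ℤ,
  value (fun _ => (0 : ℤ)) (fprog c a b p) = D ^ 2 - (2 ^ (2 ^ c) * N) ^ 2 ∧
  (D ≠ 0 → (N : ℝ) / D = value (fun _ => ((value (fun _ => (0 : ℤ)) a : ℤ) : ℝ) /
    ((value (fun _ => (0 : ℤ)) b : ℤ) : ℝ)) p) ∧
  (value (fun _ => (0 : ℤ)) b ≠ 0 → D ≠ 0)

/-- FPT (EASY-MEDIUM). The query is computable in polynomial time. PROOF. `unfold fprog fblk`,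
`fun_prop` (`PTF.preB`, `PTF.copyB`, `PTF.gadd`, ..., `PTF.flatMap'`, `PTF.range`; for the match on the
gate proceed as in `PTF.cg`, `PTF.gU` (Bd/B01.lean line 3137, Bd/B02.lean line 1142)). -/
def FPT : Prop := PTF (fun x : (ℕ × List Gate) × (List Gate × List Gate) =>
  fprog x.1.1 x.2.1 x.2.2 x.1.2)

/-- the machine checks that the input is the code of a nonempty well formed program -/
def certR (s : List Bool × List Bool) : Bool :=
  (decide (encProg (decProg s.1) = s.1) && decide (decProg s.1 ≠ [])) && wfb 1 (decProg s.1)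

/-- the query -/
def certY (s : List Bool × List Bool) : List (List Gate) :=
  [fprog (3 * (decProg s.1).length + 4) ((decSys s.2).getD 0 []) ((decSys s.2).getD 1 [])
    (decProg s.1)]

/-- the inputs with a certificate of length at most `P` -/
def certL (P : Polynomial ℕ) (s : List Bool) : Prop :=
  ∃ w : List Bool, w.length ≤ P.eval s.length ∧ certR (s, w) = true ∧
    ∀ g ∈ certY (s, w), PosSLP g

/-- CLS (EASY). PROOF. `⟨P, certR, certY, fun _ => [], ..⟩` with `R_of_ptf`, `E_of_ptf` (Main.lean),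
compare `oneReal_of_red` (Main.lean) for `certR`; `certY` by `FPT.comp` and `fun_prop`. -/
def CLS : Prop := ∀ P : Polynomial ℕ, NPPosSLP (certL P)

/-- NRM (EASY). Degree and norm of the polynomial of a program. PROOF. `natDegree_polyAt_le` and
`value_induction` with `nrm_add_le`, `nrm_sub_le`, `nrm_mul_le` (CH/Norm.lean), compare `tab_bounds`
(CH/SLP.lean). -/
def NRM : Prop := ∀ (p : List Gate) (n : ℕ), p.length ≤ n → (fP p).natDegree ≤ 2 ^ n ∧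
  RootCH.nrm (fP p) ≤ 2 ^ 2 ^ n

/-- SND (EASY-MEDIUM; uses FPV, NRM). Soundness. PROOF. Let `p = decProg s`, `s = encProg p`,
`L = |p|`, `c = 3L + 4`, `(a, b)` the certificate. FPV: `D^2 > (2^(2^c) N)^2`, so `D ≠ 0` and
`2^(2^c) |f_p(x)| < 1` for `x = α/β`, as `N/D = value (fun _ => x) p = aeval x (fP p)`
(`value_map`). If `f_p` had no real root, `RootCH.abs_lower (fP p) (2^L)` gives
`1 < 2^(16 (2^L)^3) |f_p(x)|`, and `16 (2^L)^3 = 2^(3L+4)`. Contradiction, so `ROOT p`. -/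
def SND : Prop := ∀ (P : Polynomial ℕ) (s : List Bool), certL P s → ROOTL s

/-- ELN (EASY-MEDIUM). Length of the code of a certificate. PROOF. A gate of a program with at most
`n` gates and no variable contributes at most `2 + 5 + 2(n + 1)` bits (index `≤ 1`, type `≤ 4`, operands
`< n`) to `encSys [a, b]`, and the number of programs at most `3` bits. Second part: every gate
contributes at least one bit to `encProg p`. -/
def ELN : Prop := (∀ (n : ℕ) (a b : List Gate), WF 0 a → WF 0 b → a.length ≤ n → b.length ≤ n →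
    (encSys [a, b]).length ≤ 20 * (n + 1) ^ 2) ∧
  ∀ p : List Gate, p.length ≤ (encProg p).length

/-- CPL (EASY). PROOF. Take `w = encSys [a, b]`; `decSys_encSys`, `decProg_encProg`, `wfb_iff`. -/
def CPL : Prop := ∀ (P : Polynomial ℕ) (p a b : List Gate), p ≠ [] → WF 1 p →
  (encSys [a, b]).length ≤ P.eval (encProg p).length → PosSLP (fprog (3 * p.length + 4) a b p) →
  certL P (encProg p)

/-! ## Part B: chains -/

/-- chains of real numbers: every number is `1` or the result of an operation with later numbers -/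
def Ch : List ℝ → Prop
  | [] => True
  | x :: l => Ch l ∧ (x = 1 ∨ ∃ y ∈ l, ∃ z ∈ l, x = y + z ∨ x = y - z ∨ x = y * z ∨ x = y / z)

/-- `x` can be reached from the chain `l` in `n` steps -/
def Rch (l : List ℝ) (n : ℕ) (x : ℝ) : Prop :=
  ∃ l' : List ℝ, Ch l' ∧ l ⊆ l' ∧ l'.length ≤ l.length + n ∧ x ∈ l'

theorem Rch.mono {l : List ℝ} {n m : ℕ} {x : ℝ} (h : Rch l n x) (hnm : n ≤ m) : Rch l m x := by
  obtain ⟨l', h1, h2, h3, h4⟩ := h
  exact ⟨l', h1, h2, by omega, h4⟩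

theorem Rch.step {l : List ℝ} {n m : ℕ} {x y : ℝ} (h : Rch l n y)
    (h' : ∀ l' : List ℝ, Ch l' → l ⊆ l' → y ∈ l' → Rch l' m x) : Rch l (n + m) x := by
  obtain ⟨l', h1, h2, h3, h4⟩ := h
  obtain ⟨l'', g1, g2, g3, g4⟩ := h' l' h1 h2 h4
  exact ⟨l'', g1, fun a ha => g2 (h2 ha), by omega, g4⟩

theorem Rch.self {l : List ℝ} {x : ℝ} (h : Ch l) (hx : x ∈ l) : Rch l 0 x :=
  ⟨l, h, fun _ ha => ha, le_rfl, hx⟩

theorem Rch.one {l : List ℝ} (h : Ch l) : Rch l 1 1 :=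
  ⟨1 :: l, ⟨h, Or.inl rfl⟩, fun _ ha => List.mem_cons_of_mem _ ha, by simp, by simp⟩

theorem Rch.op {l : List ℝ} {x y z : ℝ} (h : Ch l) (hy : y ∈ l) (hz : z ∈ l)
    (hx : x = y + z ∨ x = y - z ∨ x = y * z ∨ x = y / z) : Rch l 1 x :=
  ⟨x :: l, ⟨h, Or.inr ⟨y, hy, z, hz, hx⟩⟩, fun _ ha => List.mem_cons_of_mem _ ha, by simp, by simp⟩

/-- CHP (MEDIUM). A number in a chain is a quotient of two numbers computed by programs. PROOF. By
induction on `l`: there is a program `P`, `WF 0 P`, `|P| ≤ 4|l|`, such that every `x ∈ l` is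
`v_i / v_j` with `v_j ≠ 0`, where `v = vals (fun _ => 0) P` (integers), `i, j < |P|`. New number `x`:
`1`: append `one`; `y + z`: append the 4 gates `N_y D_z`, `N_z D_y`, their sum, `D_y D_z` (`y - z` with
`sub`); `y z`: 2 gates; `y / z` with `N_z ≠ 0`: `N_y D_z`, `D_y N_z`; if `z = 0` then `x = 0`: gates
`one`, `sub`. (`vals_concat`, `vals_getD_append`.) Then `a = P.take (i + 1)`, `b = P.take (j + 1)`
(`value_eq_getD`, `vals_getD_take`). -/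
def CHP : Prop := ∀ l : List ℝ, Ch l → ∀ x ∈ l, ∃ a b : List Gate, WF 0 a ∧ WF 0 b ∧
  a.length ≤ 5 * l.length + 5 ∧ b.length ≤ 5 * l.length + 5 ∧ value (fun _ => (0 : ℤ)) b ≠ 0 ∧
  ((value (fun _ => (0 : ℤ)) a : ℤ) : ℝ) / ((value (fun _ => (0 : ℤ)) b : ℤ) : ℝ) = x

/-- EVL (MEDIUM). Value and derivative of a polynomial given by a program. PROOF. Put `0 = 1 - 1` and
`1` in the chain, and for each gate `k` of `p` in turn the value and the value of the derivative (of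
the polynomial of this gate) at `x`: `one`: 1, 0; `var`: x, 1; `+`, `-`: one operation each; `*`: one
operation for the value and three for `u' v + u v'`. By induction on prefixes of `p` (`vals_concat`;
the statement: for all prefixes `p'` of `p` there is a chain `l' ⊇ l` of length `≤ |l| + 6|p'| + 2`
which contains 0, 1 and, for every `k < |p'|`, `aeval x g_k` and `aeval x (derivative g_k)`,
`g_k = (vals (fun _ => X) p').getD k 0`). -/
def EVL : Prop := ∀ p : List Gate, p ≠ [] → WF 1 p → ∀ (l : List ℝ) (x : ℝ), Ch l → x ∈ l →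
  ∃ l' : List ℝ, Ch l' ∧ l ⊆ l' ∧ l'.length ≤ l.length + (6 * p.length + 6) ∧
    aeval x (fP p) ∈ l' ∧ aeval x (derivative (fP p)) ∈ l'

/-- NUM (EASY-MEDIUM). Integers. PROOF. For natural numbers `0 < n < 2^t`: induction on `t` with
`n = 2 n' + b` (`n' = n/2`): at most `2t - 1` steps when `1` is in the chain; `0 = 1 - 1`, `-n = 0 - n`. -/
def NUM : Prop := ∀ (t : ℕ) (n : ℤ), |n| < 2 ^ t → ∀ l : List ℝ, Ch l → Rch l (2 * t + 5) (n : ℝ)

/-- PW2 (EASY-MEDIUM). Powers of two. PROOF. For `0 ≤ e < 2^t`: `1`, `2 = 1 + 1`, then induction on `t`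
with `e = 2e' + b`: square and perhaps double, `2t` steps; negative exponents: `1 / 2^|e|`. -/
def PW2 : Prop := ∀ (t : ℕ) (e : ℤ), |e| < 2 ^ t → ∀ l : List ℝ, Ch l →
  Rch l (2 * t + 6) ((2 : ℝ) ^ e)

/-! ## Part C: Newton iteration through the gaps -/

/-- the complex roots, with multiplicities -/
noncomputable def RT (g : ℤ[X]) : Multiset ℂ := (g.map (Int.castRingHom ℂ)).roots

/-- the Newton step for a cluster of `m` roots -/
noncomputable def nw (g : ℤ[X]) (m : ℕ) (x : ℝ) : ℝ :=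
  x - m * aeval x g / aeval x (derivative g)

/-- NST (MEDIUM). One Newton step at a gap, for multisets `A` (inner), `B` (outer). PROOF. `u = p - c`,
`d = |u|`, `c` the centroid of `A`, so `|c - x0| ≤ r`, and `w = z - c` satisfies `|w| ≤ 2r ≤ d/4` for
`z ∈ A`, and the sum of the `w` is `0`. `1/(u - w) = 1/u + w/u^2 + w^2/(u^2 (u - w))`, so the inner sum is
`m/u + E₁`, `|E₁| ≤ m (2r)^2/(d^2 (3/4) d) ≤ 6 m r^2/d^3`. Outer: `|p - x0| ≤ d + r ≤ 9d/8 ≤ R/8`, so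
`|E₂| ≤ D/(7R/8) ≤ 2D/R`. Hence `T = (m/u)(1 + θ)`, `|θ| = |u (E₁ + E₂)/m| ≤ 6 r^2/d^2 + 2Dd/R ≤ 1/4`, so
`T ≠ 0` and `p - m/T - c = u - u/(1 + θ) = u θ/(1 + θ)`, norm
`≤ (4/3) d |θ| ≤ 8 r^2/d + 4 D d^2/R ≤ r + 4 D d^2/R`. -/
def NST : Prop := ∀ (A B : Multiset ℂ) (x0 p : ℂ) (r R D : ℝ), A ≠ 0 → 0 ≤ r → 1 ≤ D →
  (Multiset.card B : ℝ) ≤ D → (∀ z ∈ A, ‖z - x0‖ ≤ r) → (∀ z ∈ B, R ≤ ‖z - x0‖) →
  0 < ‖p - A.sum / (Multiset.card A : ℂ)‖ → 8 * r ≤ ‖p - A.sum / (Multiset.card A : ℂ)‖ →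
  16 * D * ‖p - A.sum / (Multiset.card A : ℂ)‖ ≤ R →
  (∀ z ∈ A + B, p ≠ z) ∧
  (A.map (fun z => (p - z)⁻¹)).sum + (B.map (fun z => (p - z)⁻¹)).sum ≠ 0 ∧
  ‖p - (Multiset.card A : ℂ) / ((A.map (fun z => (p - z)⁻¹)).sum + (B.map (fun z => (p - z)⁻¹)).sum)
      - A.sum / (Multiset.card A : ℂ)‖ ≤
    r + 4 * D * ‖p - A.sum / (Multiset.card A : ℂ)‖ ^ 2 / R

/-- LGD (EASY-MEDIUM). Logarithmic derivative. PROOF. `g ≠ 0` splits over `ℂ`: `g = lc ∏ (X - z)`;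
induction on the multiset of the roots (or `Polynomial.eval_derivative_div_eval_of_ne_zero_of_splits`,
or a similar lemma of Mathlib). Real values: `RootCH.aeval_ofReal`. -/
def LGD : Prop := ∀ g : ℤ[X], g ≠ 0 → ∀ x : ℝ, (∀ z ∈ RT g, (x : ℂ) ≠ z) → aeval x g ≠ 0 ∧
  ((aeval x (derivative g) / aeval x g : ℝ) : ℂ) = ((RT g).map (fun z => ((x : ℂ) - z)⁻¹)).sum

/-- ITR (MEDIUM; uses NST, LGD). Iteration. PROOF. `A`, `B` the roots with `|z - x0| ≤ r`, resp. not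
(`Multiset.filter`), `m = |A| ≥ 1` because of `x0`, `c` the centroid, `|c - x0| ≤ r`,
`d_s = |nw^s(x1) - c|`. `d_0 ≤ ρ + r ≤ 2ρ ≤ R/(16D)`. As long as `d_s > 8r`, NST and LGD give
`d_(s+1) ≤ r + 4 D d_s^2/R` (`nw g m x = x - m/(g'(x)/g(x))`); if `4 D d_s^2/R ≤ r` then
`d_(s+1) ≤ 2r`, stop. Otherwise `d_(s+1) ≤ 8 D d_s^2/R`. So by induction on `t`: either `d_s ≤ 8r` for some
`s ≤ t`, or `8 D d_t/R ≤ (1/2)^(2^t)` (true for `t = 0`). In the second case `d_t ≤ R (1/2)^(2^t)`.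
Add `|c - x0| ≤ r`. -/
def ITR : Prop := ∀ (g : ℤ[X]) (D : ℕ) (x0 r R ρ x1 : ℝ), g ≠ 0 → aeval x0 g = 0 →
  g.natDegree ≤ D → 0 ≤ r → r ≤ ρ → 0 < ρ → 32 * D * ρ ≤ R →
  (∀ z ∈ RT g, ‖z - (x0 : ℂ)‖ ≤ r ∨ R ≤ ‖z - (x0 : ℂ)‖) → |x1 - x0| ≤ ρ →
  ∃ m : ℕ, m ≤ D ∧ ∀ t : ℕ, ∃ s ≤ t, |(nw g m)^[s] x1 - x0| ≤ 9 * r + R * (1 / 2) ^ (2 ^ t)

/-- STG (EASY-MEDIUM; uses ITR, EVL, NUM, NRM). The Newton stage in a chain. PROOF. `D = 2^L`, `m` of
ITR: NUM with `t = L + 1` puts `m` in the chain (`2L + 7` steps), every Newton step costs `6L + 6` (EVL)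
plus three operations. -/
def STG : Prop := ∀ (h : List Gate) (x0 r R ρ x1 : ℝ) (l : List ℝ) (t : ℕ), h ≠ [] → WF 1 h →
  fP h ≠ 0 → aeval x0 (fP h) = 0 → 0 ≤ r → r ≤ ρ → 0 < ρ → 32 * 2 ^ h.length * ρ ≤ R →
  (∀ z ∈ RT (fP h), ‖z - (x0 : ℂ)‖ ≤ r ∨ R ≤ ‖z - (x0 : ℂ)‖) → |x1 - x0| ≤ ρ → Ch l → x1 ∈ l →
  ∃ y : ℝ, |y - x0| ≤ 9 * r + R * (1 / 2) ^ (2 ^ t) ∧
    Rch l (t * (6 * h.length + 12) + 2 * h.length + 10) y

/-- GSS (MEDIUM; uses NUM, PW2). Guess of the position. PROOF. `2^e ≤ δ < 2^(e+1)`, `e` an integer with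
`|e| ≤ 2^E`; `b` the integer nearest to `(x0 - x1)/2^e`, `|b| ≤ ρ/2^e + 1 ≤ 2^(t+1) + 1`,
`y = x1 + b 2^e`, `|y - x0| ≤ 2^e`. PW2 with `E + 1`, NUM with `t + 2`, two operations. -/
def GSS : Prop := ∀ (l : List ℝ) (x0 x1 ρ δ : ℝ) (t E : ℕ), Ch l → x1 ∈ l → |x1 - x0| ≤ ρ → 0 < δ →
  ρ ≤ 2 ^ t * δ → (1 / 2) ^ (2 ^ E) ≤ δ → δ ≤ 2 ^ (2 ^ E) →
  ∃ y : ℝ, |y - x0| ≤ δ ∧ Rch l (2 * t + 2 * E + 30) y

/-- MXR (EASY). The largest distance below `R`. PROOF. The maximum of the distances `< R` of the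
elements of the finite multiset `RT g` (`x0 ∈ RT g` has distance `0`); `z ∈ RT g ↔ aeval z g = 0`. -/
def MXR : Prop := ∀ (g : ℤ[X]) (x0 R : ℝ), g ≠ 0 → aeval x0 g = 0 → 0 < R → ∃ r : ℝ, 0 ≤ r ∧ r < R ∧
  (∀ z ∈ RT g, ‖z - (x0 : ℂ)‖ ≤ r ∨ R ≤ ‖z - (x0 : ℂ)‖) ∧
  (r = 0 ∨ ∃ z : ℂ, aeval z g = 0 ∧ z ≠ (x0 : ℂ) ∧ ‖z - (x0 : ℂ)‖ = r)

/-- DS1 (MEDIUM; uses STG, GSS, MXR). One step of the descent. Write `Γ = 32 · 2^n`, `n = |h|`,
`ε = (1/2)^(2^E)`. PROOF. MXR with `R = Γ ρ` gives `r`. If `r ≤ ρ`: STG with `t = E + 1` gives `y1` with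
`|y1 - x0| ≤ 9r + Γρ (1/2)^(2^(E+1)) ≤ 9r + ε` (`Γρ ≤ |x0| ≤ 2^(2^E)`); if `r ≤ ε` this is the first
case. If `r > ρ` put `y1 = x1`, `|y1 - x0| ≤ ρ < r`; if `r ≤ ε` first case. Now let `r > ε > 0`: the
root `z` with `|z - x0| = r < Γρ`, `2^k r < |x0|`, lies in an annulus `j ∈ S`, `2^j ≤ r < 2^(j+1)`. Put
`ρ' = 2^j/Γ`: `|y1 - x0| ≤ 10 r ≤ 20 · 2^j = 20 Γ ρ' ≤ 2^(n+10) ρ'`, and
`ρ' ≥ r/(2Γ) > ε/(2Γ) ≥ (1/2)^(2^(E+1))` because `n + 6 ≤ 2^E`, `ρ' ≤ 2^(2^E)`. GSS with `t = n + 10`,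
`δ = ρ'`, and `E + 1` gives `y`. `Γρ' = 2^j ≤ r < Γρ`, so `j` is in the old filter set but not in the new
one, and the new set is contained in the old one. -/
def DS1 : Prop := ∀ (h : List Gate) (x0 ρ x1 : ℝ) (k E : ℕ) (S : Finset ℤ) (l : List ℝ), h ≠ [] →
  WF 1 h → fP h ≠ 0 → aeval x0 (fP h) = 0 → |x0| ≤ 2 ^ (2 ^ E) → h.length + 6 ≤ 2 ^ E →
  (∀ z : ℂ, aeval z (fP h) = 0 → z ≠ (x0 : ℂ) → 2 ^ k * ‖z - (x0 : ℂ)‖ < |x0| → ∃ j ∈ S,
    (2 : ℝ) ^ j ≤ ‖z - (x0 : ℂ)‖ ∧ ‖z - (x0 : ℂ)‖ < (2 : ℝ) ^ (j + 1)) →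
  0 < ρ → 2 ^ k * (32 * 2 ^ h.length * ρ) ≤ |x0| → |x1 - x0| ≤ ρ → Ch l → x1 ∈ l →
  (∃ y : ℝ, |y - x0| ≤ 10 * (1 / 2) ^ (2 ^ E) ∧
    Rch l ((E + 1) * (6 * h.length + 12) + 4 * h.length + 2 * E + 62) y) ∨
  ∃ ρ' y : ℝ, 0 < ρ' ∧ 2 ^ k * (32 * 2 ^ h.length * ρ') ≤ |x0| ∧ |y - x0| ≤ ρ' ∧
    Rch l ((E + 1) * (6 * h.length + 12) + 4 * h.length + 2 * E + 62) y ∧
    (S.filter (fun j => (2 : ℝ) ^ j < 32 * 2 ^ h.length * ρ')).card <
      (S.filter (fun j => (2 : ℝ) ^ j < 32 * 2 ^ h.length * ρ)).card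

/-- ZER (EASY). If the zero polynomial has few scales at `x` then `x = 0`. PROOF. Otherwise take `j` an
integer outside of the finite set `S` and so small that `2^k 2^j < |x|`, and `z = x + 2^j`. -/
def ZER : Prop := ∀ (k : ℕ) (x : ℝ), FewScales 0 k x → x = 0

/-- DSC (MEDIUM; uses DS1, GSS, ZER). The descent. PROOF. If `x0 = 0`: `0 = 1 - 1`. Otherwise
`fP h ≠ 0` by ZER. `ε = (1/2)^(2^E)`. If `|x0| ≤ 10 ε` take `y = 0`. Otherwise start with `0` in the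
chain `[0, 1]`, `ρ_0 = |x0|/(2^k · 32 · 2^n)`: GSS (`t = k + n + 5`, `E + 1`; `ρ_0 ≥ ε/2^(k+n+5)
≥ (1/2)^(2^(E+1))`) gives `x1` with `|x1 - x0| ≤ ρ_0`. Then DS1 at most `k + 1` times (induction on the
cardinality of the filter set, `≤ S.card ≤ k`). Total length
`≤ 2 + 2(k+n+5) + 2(E+1) + 30 + (k+1)((E+1)(6n+12) + 4n + 2E + 62) ≤ 100 (k+2)(E+2)(n+2)`. -/
def DSC : Prop := ∀ (h : List Gate) (x0 : ℝ) (k E : ℕ), h ≠ [] → WF 1 h → aeval x0 (fP h) = 0 →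
  |x0| ≤ 2 ^ (2 ^ E) → k + h.length + 6 ≤ 2 ^ E → FewScales (fP h) k x0 →
  ∃ y : ℝ, |y - x0| ≤ 10 * (1 / 2) ^ (2 ^ E) ∧ Rch [] (100 * (k + 2) * (E + 2) * (h.length + 2)) y

/-- RTB (EASY-MEDIUM; uses NRM). Cauchy's bound. PROOF. `norm_root_le` (Bd/B01.lean) for
`g.map (Int.castRingHom ℂ)`: the coefficients are at most `nrm ≤ 2^(2^n)`, the leading coefficient is at
least `1` in absolute value: `|x| ≤ 2^(2^n) + 1 ≤ 2^(2^(n+1))`. -/
def RTB : Prop := ∀ (h : List Gate) (n : ℕ) (x : ℝ), h.length ≤ n → fP h ≠ 0 → aeval x (fP h) = 0 →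
  |x| ≤ 2 ^ (2 ^ (n + 1))

/-- FIN (EASY-MEDIUM). The value at the approximation. PROOF. `M = 2^(2^(n+2)) ≥ |x0| + 10`.
`norm_value_sub_le` (Bd/B01.lean, `𝕜 = ℝ`, constant functions): `|f(y) - f(x0)| ≤
|y - x0| M^(2^(L+1)) = |y - x0| 2^(2^(n+L+3))`, `f(x0) = 0`. So `2^(2^(3L+4)) |f(y)| ≤
10 · 2^(2^(3L+4) + 2^(n+L+3)) / 2^(2^E) < 1`, because `2^E ≥ 2^(3L+n+6) = 4 · 2^(3L+n+4) ≥
2^(3L+4) + 2^(n+L+3) + 4`. -/
def FIN : Prop := ∀ (p : List Gate) (n E : ℕ) (x0 y : ℝ), p ≠ [] → WF 1 p → aeval x0 (fP p) = 0 →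
  |x0| ≤ 2 ^ (2 ^ (n + 1)) → 3 * p.length + n + 6 ≤ E → |y - x0| ≤ 10 * (1 / 2) ^ (2 ^ E) →
  2 ^ (2 ^ (3 * p.length + 4)) * |value (fun _ => y) p| < 1

/-- CMP (EASY-MEDIUM; uses DSC, RTB, FIN, CHP, FPW, FPV, ZER). Completeness. PROOF. If `fP h = 0` then
`x0 = 0` (ZER), otherwise `|x0| ≤ 2^(2^(n+1))` (RTB). DSC with `E = 3|p| + n + k + 6` (so
`E ≥ n + 1`, `k + n + 6 ≤ 2^E`) gives `y`, FIN gives `2^(2^(3|p|+4)) |f_p(y)| < 1`, CHP gives `a`, `b`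
with `α/β = y`, `β ≠ 0`. FPV: `D ≠ 0`, `N/D = f_p(y)`, so `D^2 > (2^(2^c) N)^2`: PosSLP (FPW). -/
def CMP : Prop := ∀ (p h : List Gate) (n k : ℕ) (x0 : ℝ), p ≠ [] → WF 1 p → h ≠ [] → WF 1 h →
  h.length ≤ n → aeval x0 (fP p) = 0 → aeval x0 (fP h) = 0 → FewScales (fP h) k x0 →
  ∃ a b : List Gate, WF 0 a ∧ WF 0 b ∧
    a.length ≤ 5 * (100 * (k + 2) * (3 * p.length + n + k + 8) * (n + 2)) + 5 ∧
    b.length ≤ 5 * (100 * (k + 2) * (3 * p.length + n + k + 8) * (n + 2)) + 5 ∧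
    PosSLP (fprog (3 * p.length + 4) a b p)

/-! ## Part D: sparse polynomials -/

/-- FFB (MEDIUM). `∏_(s ∈ S) (X - s)` in the basis of the falling factorials
(`descPochhammer ℤ j`, degree `j`). PROOF. Induction on `S`: if `∏_(s ∈ S') (X - s) = ∑_j a_j P_j` with
`|a_j| ≤ C(i, j) D^(i-j)`, `i = |S'|`, then `(X - s) P_j = P_(j+1) + (j - s) P_j`
(`descPochhammer_succ_right`: `P_(j+1) = P_j (X - j)`), `|j - s| ≤ D` for `j ≤ i ≤ D`, `s ≤ D`, so the new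
coefficients are at most `C(i, j-1) D^(i-j+1) + D C(i, j) D^(i-j) = C(i+1, j) D^(i+1-j)`; the coefficient
of `P_(i+1)` is `1`. -/
def FFB : Prop := ∀ (S : Finset ℕ) (D : ℕ), S.card ≤ D → (∀ s ∈ S, s ≤ D) → ∃ a : ℕ → ℤ,
  a S.card = 1 ∧ (∀ j ≤ S.card, |a j| ≤ (S.card.choose j : ℤ) * (D : ℤ) ^ (S.card - j)) ∧
  ∏ s ∈ S, (X - C (s : ℤ)) = ∑ j ∈ Finset.range (S.card + 1), C (a j) * descPochhammer ℤ j

/-- FFR (MEDIUM; uses FFB). `C(e, n)`, `e ∈ S`, is a combination of the `C(e, j)`, `j < t = |S|`, with small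
coefficients. PROOF. On `S`, `P_n(e) = n! C(e, n)`. Claim: `P_n(e) = ∑_(j<t) c_(n,j) P_j(e)` for
`e ∈ S`, with integers `|c_(n,j)| ≤ 2^t 2^((t+1)(n-t)) D^(n-j)`. `n = t`: `c_(t,j) = -a_j` (FFB,
`∏ (e - s) = 0`), `C(t, j) ≤ 2^t`. Step: `P_(n+1)(e) = (e - n) P_n(e)` and
`(e - n) P_j(e) = P_(j+1)(e) + (j - n) P_j(e)`, so `c_(n+1,j) = c_(n,j-1) + (j - n) c_(n,j) - c_(n,t-1) a_j`,
and `|j - n| ≤ n ≤ D` for `n ≤ D`; `1 + 1 + 2^t ≤ 2^(t+1)`. Divide by `n!`: `c_j = c_(n,j) j!/n!`,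
`j!/n! ≤ 1`, and `2^t 2^((t+1)(n-t)) ≤ (2^(t+1))^(n-j)`. -/
def FFR : Prop := ∀ (S : Finset ℕ) (D : ℕ), 1 ≤ S.card → S.card ≤ D → (∀ s ∈ S, s ≤ D) →
  ∀ n : ℕ, S.card ≤ n → n ≤ D → ∃ c : ℕ → ℝ,
    (∀ e ∈ S, ((e.choose n : ℕ) : ℝ) = ∑ j ∈ Finset.range S.card, c j * ((e.choose j : ℕ) : ℝ)) ∧
    ∀ j < S.card, |c j| ≤ ((2 : ℝ) ^ (S.card + 1) * D) ^ (n - j)

/-- TDM (EASY-MEDIUM; uses FFR). Taylor domination for sparse polynomials at a point `x0`. PROOF. The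
coefficient of `X^n` in `∑_(e ∈ S) γ_e (1 + X)^e` is `∑ γ_e C(e, n)` (`Polynomial.coeff_one_add_X_pow`);
for `n ≤ D` use FFR, for `n > D` it is `0`. -/
def TDM : Prop := ∀ (S : Finset ℕ) (D : ℕ) (γ : ℕ → ℂ), 1 ≤ S.card → S.card ≤ D → (∀ s ∈ S, s ≤ D) →
  ∀ n : ℕ, S.card ≤ n →
    ‖(∑ e ∈ S, C (γ e) * (1 + X) ^ e : ℂ[X]).coeff n‖ ≤ ∑ j ∈ Finset.range S.card,
      ((2 : ℝ) ^ (S.card + 1) * D) ^ (n - j) * ‖(∑ e ∈ S, C (γ e) * (1 + X) ^ e : ℂ[X]).coeff j‖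

/-- RCT (MEDIUM). A polynomial with Taylor domination from `t` on has fewer than `t` roots near `0`.
PROOF. `F = G H`, `G = ∏_(u ∈ U) (X - u) = ∑_(i ≤ t) e_i X^i`, `e_t = 1`, `|e_i| ≤ C(t, i) r^(t-i)` (Vieta
or induction on `U`), `H = ∑ h_n X^n`. Suppose `H ≠ 0`. Let `M = max_n |h_n| Q^(-n) > 0`, attained at
`n0`: `|h_n| ≤ M Q^n` for all `n`. Put `s = rQ ≤ 1/(8t^2)`, so `(1 + s)^t - 1 ≤ 2ts ≤ 1/(4t) ≤ 1/4`.
Lower bound: `|F_(n0+t)| ≥ |h_n0| - ∑_(i<t) C(t,i) r^(t-i) M Q^(n0+t-i) = M Q^n0 (1 - ((1+s)^t - 1))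
≥ (3/4) M Q^n0`. Upper bound: for `j < t`, `|F_j| ≤ ∑_(i≤j) C(t,i) r^(t-i) M Q^(j-i)`, so
`|F_(n0+t)| ≤ ∑_(j<t) Q^(n0+t-j) |F_j| ≤ M Q^n0 ∑_(j<t) ∑_(i≤j) C(t,i) s^(t-i)
≤ M Q^n0 t ((1+s)^t - 1) ≤ M Q^n0/4`. Contradiction. -/
def RCT : Prop := ∀ (F : ℂ[X]) (t : ℕ) (Q r : ℝ), 1 ≤ t → 1 ≤ Q → 0 < r → 8 * (t : ℝ) ^ 2 * Q * r ≤ 1 →
  (∀ n : ℕ, t ≤ n → ‖F.coeff n‖ ≤ ∑ j ∈ Finset.range t, Q ^ (n - j) * ‖F.coeff j‖) →
  ∀ U : Multiset ℂ, Multiset.card U = t → (∀ u ∈ U, ‖u‖ ≤ r) → (U.map (fun u => X - C u)).prod ∣ F →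
  F = 0

/-- SPR (MEDIUM; uses TDM, RCT). Sparse polynomials have few scales everywhere. PROOF. `x ≠ 0` (for
`x = 0` there is nothing to prove, `S = ∅`). `t = |f.support| ≥ 1`, `D = max(2^L, t) ≤ 2^(L+1)`,
`F(X) = f(x(1+X)) = ∑ γ_e (1+X)^e`, `γ_e = c_e x^e`, `F ≠ 0`. `Q = 2^(t+1) D ≤ 2^(L+t+2)`,
`r = 2^(-(L+3t+10))`, `8 t^2 Q r ≤ 1` because `t^2 ≤ 2^(2t)`. Different roots `z` of `f` with
`2^(L+3t+10) |z - x| < |x|` give different roots `u = z/x - 1` of `F` with `|u| ≤ r`; if there were `t` of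
them, the product of the `X - u` would divide `F` (`Finset.prod`, pairwise coprime, or
`Multiset.prod_X_sub_C_dvd_iff_le_roots`), so `F = 0` by RCT, contradiction. So there are less than
`t'` of them (`t' = |f.support| ≤ t`), and `S` is the set of the integers `⌊log₂ |z - x|⌋` of those
`z ≠ x` (`Int.log 2`). -/
def SPR : Prop := ∀ (f : ℤ[X]) (L t : ℕ) (x : ℝ), f ≠ 0 → f.natDegree ≤ 2 ^ L → f.support.card ≤ t →
  FewScales f (L + 3 * t + 10) x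

end Pool.Agent.Work.MP_859ada_lc.FS
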