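import Pool.Agent.Work.MP_859ada_lc.FS.Stmts

/-!
# MP_859ada_lc, block FS: CHP

A number in a chain is a quotient of two numbers computed by programs without variables.
-/

set_option autoImplicit false

namespace Pool.Agent.Work.MP_859ada_lc.FS

open Polynomial Pool.Agent.PT

/-- the value of the gate `k` of a program without variables -/
def CHP_V (P : List Gate) (k : ℕ) : ℤ := (vals (fun _ => (0 : ℤ)) P).getD k 0

/-- the number `x` is a quotient of the values of two gates of `P` -/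
def CHP_Q (P : List Gate) (x : ℝ) : Prop :=
  ∃ i j : ℕ, i < P.length ∧ j < P.length ∧ CHP_V P j ≠ 0 ∧ (CHP_V P i : ℝ) / (CHP_V P j : ℝ) = x

theorem CHP_Q_of_eq {P P' : List Gate} {x : ℝ} (h : CHP_Q P x) (hl : P.length ≤ P'.length)
    (hv : ∀ k < P.length, CHP_V P' k = CHP_V P k) : CHP_Q P' x := by
  obtain ⟨i, j, hi, hj, h1, h2⟩ := h
  exact ⟨i, j, by omega, by omega, by rw [hv j hj]; exact h1, by rw [hv i hi, hv j hj]; exact h2⟩

theorem CHP_ext (P : List Gate) (hP : WF 0 P) (g : Gate) (hg : g.Ok 0 P.length) :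
    ∃ P' : List Gate, WF 0 P' ∧ P'.length = P.length + 1 ∧
      (∀ k < P.length, CHP_V P' k = CHP_V P k) ∧
      CHP_V P' P.length = g.val (fun _ => (0 : ℤ)) (vals (fun _ => (0 : ℤ)) P) := by
  refine ⟨P ++ [g], ?_, by simp, fun k hk => vals_getD_append _ _ _ hk, ?_⟩
  · intro k hk
    rcases Nat.lt_or_ge k P.length with h | h
    · rw [List.getElem_append_left h]
      exact hP k h
    · have hk' : k = P.length := by
        simp only [List.length_append, List.length_singleton] at hk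
        omega
      subst hk'
      simpa using hg
  · unfold CHP_V
    rw [vals_concat, List.getD_append_right _ _ _ _ (by rw [length_vals]), length_vals,
      Nat.sub_self, List.getD_cons_zero]

theorem CHP_one (P : List Gate) (hP : WF 0 P) :
    ∃ P' : List Gate, WF 0 P' ∧ P'.length = P.length + 1 ∧
      (∀ k < P.length, CHP_V P' k = CHP_V P k) ∧ CHP_V P' P.length = 1 :=
  CHP_ext P hP .one trivial

theorem CHP_add (P : List Gate) (hP : WF 0 P) (i j : ℕ) (hi : i < P.length) (hj : j < P.length) :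
    ∃ P' : List Gate, WF 0 P' ∧ P'.length = P.length + 1 ∧
      (∀ k < P.length, CHP_V P' k = CHP_V P k) ∧ CHP_V P' P.length = CHP_V P i + CHP_V P j :=
  CHP_ext P hP (.add i j) ⟨hi, hj⟩

theorem CHP_sub (P : List Gate) (hP : WF 0 P) (i j : ℕ) (hi : i < P.length) (hj : j < P.length) :
    ∃ P' : List Gate, WF 0 P' ∧ P'.length = P.length + 1 ∧
      (∀ k < P.length, CHP_V P' k = CHP_V P k) ∧ CHP_V P' P.length = CHP_V P i - CHP_V P j :=
  CHP_ext P hP (.sub i j) ⟨hi, hj⟩

theorem CHP_mul (P : List Gate) (hP : WF 0 P) (i j : ℕ) (hi : i < P.length) (hj : j < P.length) :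
    ∃ P' : List Gate, WF 0 P' ∧ P'.length = P.length + 1 ∧
      (∀ k < P.length, CHP_V P' k = CHP_V P k) ∧ CHP_V P' P.length = CHP_V P i * CHP_V P j :=
  CHP_ext P hP (.mul i j) ⟨hi, hj⟩

/-- the step for sums and differences -/
theorem CHP_sum (P : List Gate) (hP : WF 0 P) (y z : ℝ) (hy : CHP_Q P y) (hz : CHP_Q P z)
    (s : Bool) :
    ∃ P' : List Gate, WF 0 P' ∧ P.length ≤ P'.length ∧ P'.length ≤ P.length + 4 ∧
      (∀ k < P.length, CHP_V P' k = CHP_V P k) ∧ CHP_Q P' (if s then y + z else y - z) := by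
  obtain ⟨i, j, hi, hj, h1, h2⟩ := hy
  obtain ⟨i', j', hi', hj', h1', h2'⟩ := hz
  obtain ⟨P1, w1, l1, e1, v1⟩ := CHP_mul P hP i j' hi hj'
  obtain ⟨P2, w2, l2, e2, v2⟩ := CHP_mul P1 w1 i' j (by omega) (by omega)
  have hj0 : (CHP_V P j : ℝ) ≠ 0 := by exact_mod_cast h1
  have hj0' : (CHP_V P j' : ℝ) ≠ 0 := by exact_mod_cast h1'
  have a1 : CHP_V P2 P.length = CHP_V P i * CHP_V P j' := by
    rw [e2 _ (by omega), v1]
  have a2 : CHP_V P2 P1.length = CHP_V P i' * CHP_V P j := by
    rw [v2, e1 _ hi', e1 _ hj]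
  have a3 : ∃ P3 : List Gate, WF 0 P3 ∧ P3.length = P2.length + 1 ∧
      (∀ k < P2.length, CHP_V P3 k = CHP_V P2 k) ∧
      CHP_V P3 P2.length = if s then CHP_V P2 P.length + CHP_V P2 P1.length
        else CHP_V P2 P.length - CHP_V P2 P1.length := by
    cases s with
    | true => exact CHP_add P2 w2 _ _ (by omega) (by omega)
    | false => exact CHP_sub P2 w2 _ _ (by omega) (by omega)
  obtain ⟨P3, w3, l3, e3, v3⟩ := a3
  obtain ⟨P4, w4, l4, e4, v4⟩ := CHP_mul P3 w3 j j' (by omega) (by omega)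
  have b1 : CHP_V P4 P3.length = CHP_V P j * CHP_V P j' := by
    rw [v4, e3 _ (by omega), e3 _ (by omega), e2 _ (by omega), e2 _ (by omega), e1 _ hj, e1 _ hj']
  have b2 : CHP_V P4 P2.length = if s then CHP_V P i * CHP_V P j' + CHP_V P i' * CHP_V P j
        else CHP_V P i * CHP_V P j' - CHP_V P i' * CHP_V P j := by
    rw [e4 _ (by omega), v3, a1, a2]
  refine ⟨P4, w4, by omega, by omega, ?_, P2.length, P3.length, by omega, by omega, ?_, ?_⟩
  · intro k hk
    rw [e4 _ (by omega), e3 _ (by omega), e2 _ (by omega), e1 _ hk]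
  · rw [b1]
    exact mul_ne_zero h1 h1'
  · rw [b1, b2, ← h2, ← h2']
    cases s with
    | true =>
      simp only [if_true]
      push_cast
      field_simp
    | false =>
      simp only [Bool.false_eq_true, if_false]
      push_cast
      field_simp

/-- the step for products -/
theorem CHP_prod (P : List Gate) (hP : WF 0 P) (y z : ℝ) (hy : CHP_Q P y) (hz : CHP_Q P z) :
    ∃ P' : List Gate, WF 0 P' ∧ P.length ≤ P'.length ∧ P'.length ≤ P.length + 4 ∧
      (∀ k < P.length, CHP_V P' k = CHP_V P k) ∧ CHP_Q P' (y * z) := by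
  obtain ⟨i, j, hi, hj, h1, h2⟩ := hy
  obtain ⟨i', j', hi', hj', h1', h2'⟩ := hz
  obtain ⟨P1, w1, l1, e1, v1⟩ := CHP_mul P hP i i' hi hi'
  obtain ⟨P2, w2, l2, e2, v2⟩ := CHP_mul P1 w1 j j' (by omega) (by omega)
  have hj0 : (CHP_V P j : ℝ) ≠ 0 := by exact_mod_cast h1
  have hj0' : (CHP_V P j' : ℝ) ≠ 0 := by exact_mod_cast h1'
  have a1 : CHP_V P2 P.length = CHP_V P i * CHP_V P i' := by
    rw [e2 _ (by omega), v1]
  have a2 : CHP_V P2 P1.length = CHP_V P j * CHP_V P j' := by
    rw [v2, e1 _ hj, e1 _ hj']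
  refine ⟨P2, w2, by omega, by omega, ?_, P.length, P1.length, by omega, by omega, ?_, ?_⟩
  · intro k hk
    rw [e2 _ (by omega), e1 _ hk]
  · rw [a2]
    exact mul_ne_zero h1 h1'
  · rw [a1, a2, ← h2, ← h2']
    push_cast
    field_simp

/-- the step for quotients -/
theorem CHP_quot (P : List Gate) (hP : WF 0 P) (y z : ℝ) (hy : CHP_Q P y) (hz : CHP_Q P z) :
    ∃ P' : List Gate, WF 0 P' ∧ P.length ≤ P'.length ∧ P'.length ≤ P.length + 4 ∧
      (∀ k < P.length, CHP_V P' k = CHP_V P k) ∧ CHP_Q P' (y / z) := by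
  obtain ⟨i, j, hi, hj, h1, h2⟩ := hy
  obtain ⟨i', j', hi', hj', h1', h2'⟩ := hz
  have hj0 : (CHP_V P j : ℝ) ≠ 0 := by exact_mod_cast h1
  have hj0' : (CHP_V P j' : ℝ) ≠ 0 := by exact_mod_cast h1'
  by_cases hN : CHP_V P i' = 0
  · have hz0 : z = 0 := by
      rw [← h2', hN]
      simp
    obtain ⟨P1, w1, l1, e1, v1⟩ := CHP_one P hP
    obtain ⟨P2, w2, l2, e2, v2⟩ := CHP_sub P1 w1 P.length P.length (by omega) (by omega)
    have a1 : CHP_V P2 P.length = 1 := by
      rw [e2 _ (by omega), v1]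
    have a2 : CHP_V P2 P1.length = 0 := by
      rw [v2, sub_self]
    refine ⟨P2, w2, by omega, by omega, ?_, P1.length, P.length, by omega, by omega, ?_, ?_⟩
    · intro k hk
      rw [e2 _ (by omega), e1 _ hk]
    · rw [a1]
      exact one_ne_zero
    · rw [a1, a2, hz0]
      simp
  · have hN0 : (CHP_V P i' : ℝ) ≠ 0 := by exact_mod_cast hN
    obtain ⟨P1, w1, l1, e1, v1⟩ := CHP_mul P hP i j' hi hj'
    obtain ⟨P2, w2, l2, e2, v2⟩ := CHP_mul P1 w1 j i' (by omega) (by omega)
    have a1 : CHP_V P2 P.length = CHP_V P i * CHP_V P j' := by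
      rw [e2 _ (by omega), v1]
    have a2 : CHP_V P2 P1.length = CHP_V P j * CHP_V P i' := by
      rw [v2, e1 _ hj, e1 _ hi']
    refine ⟨P2, w2, by omega, by omega, ?_, P.length, P1.length, by omega, by omega, ?_, ?_⟩
    · intro k hk
      rw [e2 _ (by omega), e1 _ hk]
    · rw [a2]
      exact mul_ne_zero h1 hN
    · rw [a1, a2, ← h2, ← h2']
      push_cast
      field_simp

theorem CHP_main (l : List ℝ) (hl : Ch l) :
    ∃ P : List Gate, WF 0 P ∧ P.length ≤ 4 * l.length ∧ ∀ x ∈ l, CHP_Q P x := by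
  induction l with
  | nil => exact ⟨[], fun k hk => absurd hk (by simp), by simp, fun x hx => absurd hx (by simp)⟩
  | cons x l ih =>
    obtain ⟨h1, h2⟩ := hl
    obtain ⟨P, hP, hlen, hQ⟩ := ih h1
    have key : ∃ P' : List Gate, WF 0 P' ∧ P.length ≤ P'.length ∧ P'.length ≤ P.length + 4 ∧
        (∀ k < P.length, CHP_V P' k = CHP_V P k) ∧ CHP_Q P' x := by
      rcases h2 with h2 | ⟨y, hy, z, hz, h2 | h2 | h2 | h2⟩
      · obtain ⟨P1, w1, l1, e1, v1⟩ := CHP_one P hP
        refine ⟨P1, w1, by omega, by omega, e1, P.length, P.length, by omega, by omega, ?_, ?_⟩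
        · rw [v1]
          exact one_ne_zero
        · rw [v1, h2]
          simp
      · have := CHP_sum P hP y z (hQ y hy) (hQ z hz) true
        simpa [h2] using this
      · have := CHP_sum P hP y z (hQ y hy) (hQ z hz) false
        simpa [h2] using this
      · have := CHP_prod P hP y z (hQ y hy) (hQ z hz)
        simpa [h2] using this
      · have := CHP_quot P hP y z (hQ y hy) (hQ z hz)
        simpa [h2] using this
    obtain ⟨P', w', l', l'', e', q'⟩ := key
    refine ⟨P', w', ?_, ?_⟩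
    · rw [List.length_cons]
      omega
    · intro w hw
      rcases List.mem_cons.1 hw with rfl | hw
      · exact q'
      · exact CHP_Q_of_eq (hQ w hw) l' e'

theorem CHP_take (P : List Gate) (hP : WF 0 P) (i : ℕ) (hi : i < P.length) :
    WF 0 (P.take (i + 1)) ∧ (P.take (i + 1)).length ≤ P.length ∧
      value (fun _ => (0 : ℤ)) (P.take (i + 1)) = CHP_V P i := by
  refine ⟨?_, by rw [List.length_take]; omega, ?_⟩
  · intro k hk
    rw [List.length_take] at hk
    have := hP k (by omega)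
    rwa [List.getElem_take]
  · rw [value_eq_getD, List.length_take, show min (i + 1) P.length - 1 = i by omega,
      vals_getD_take, if_pos (by omega)]
    rfl

theorem prfCHP : CHP := by
  intro l hl x hx
  obtain ⟨P, hP, hlen, hQ⟩ := CHP_main l hl
  obtain ⟨i, j, hi, hj, h1, h2⟩ := hQ x hx
  obtain ⟨wa, la, va⟩ := CHP_take P hP i hi
  obtain ⟨wb, lb, vb⟩ := CHP_take P hP j hj
  refine ⟨P.take (i + 1), P.take (j + 1), wa, wb, by omega, by omega, ?_, ?_⟩
  · rw [vb]
    exact h1
  · rw [va, vb]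
    exact h2

end Pool.Agent.Work.MP_859ada_lc.FS
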