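import Pool.Agent.Work.MP_859ada_lc.FS.Stmts

/-!
# Block FS, item CMP: completeness
-/

set_option autoImplicit false

namespace Pool.Agent.Work.MP_859ada_lc.FS

open Polynomial

theorem prfCMP (h1 : DSC) (h2 : RTB) (h3 : FIN) (h4 : CHP) (h5 : FPW) (h6 : FPV) (h7 : ZER) :
    CMP := by
  intro p h n k x0 hp hwp hh hwh hn h0p h0h hfs
  have hx0 : |x0| ≤ 2 ^ (2 ^ (n + 1)) := by
    by_cases hz : fP h = 0
    · rw [hz] at hfs
      rw [h7 k x0 hfs, abs_zero]
      positivity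
    · exact h2 h n x0 hn hz h0h
  have hxE : |x0| ≤ 2 ^ (2 ^ (3 * p.length + n + k + 6)) :=
    hx0.trans (pow_le_pow_right₀ one_le_two (Nat.pow_le_pow_right (by norm_num) (by omega)))
  have hEE : k + h.length + 6 ≤ 2 ^ (3 * p.length + n + k + 6) := by
    have := Nat.lt_two_pow_self (n := 3 * p.length + n + k + 6)
    omega
  obtain ⟨y, hy1, l, hl1, -, hl2, hl3⟩ := h1 h x0 k (3 * p.length + n + k + 6) hh hwh h0h hxE hEE hfs
  have hfin := h3 p n (3 * p.length + n + k + 6) x0 y hp hwp h0p hx0 (by omega) hy1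
  obtain ⟨a, b, ha, hb, hal, hbl, hb0, hab⟩ := h4 l hl1 y hl3
  have hlen : l.length ≤ 100 * (k + 2) * (3 * p.length + n + k + 8) * (n + 2) := by
    refine hl2.trans ?_
    rw [List.length_nil, zero_add]
    exact Nat.mul_le_mul_left _ (by omega)
  refine ⟨a, b, ha, hb, by omega, by omega, h5 (3 * p.length + 4) a b p hp hwp, ?_⟩
  obtain ⟨N, D, hv, hND, hD⟩ := h6 (3 * p.length + 4) a b p hp hwp
  have hD0 : D ≠ 0 := hD hb0
  have hDR : (D : ℝ) ≠ 0 := Int.cast_ne_zero.2 hD0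
  have hval := hND hD0
  rw [hab] at hval
  rw [← hval, abs_div] at hfin
  have hDpos : 0 < |(D : ℝ)| := abs_pos.2 hDR
  have h8 : 2 ^ (2 ^ (3 * p.length + 4)) * |(N : ℝ)| < |(D : ℝ)| := by
    rw [← mul_div_assoc, div_lt_one hDpos] at hfin
    exact hfin
  have h9 : (2 ^ (2 ^ (3 * p.length + 4)) * |N| : ℤ) < |D| := by
    exact_mod_cast h8
  rw [hv]
  have h10 : (2 ^ (2 ^ (3 * p.length + 4)) * N : ℤ) ^ 2 < D ^ 2 := by
    apply sq_lt_sq.2
    rw [abs_mul, abs_of_pos (by positivity : (0 : ℤ) < 2 ^ (2 ^ (3 * p.length + 4)))]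
    exact h9
  linarith

end Pool.Agent.Work.MP_859ada_lc.FS
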