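import Pool.Agent.Work.MP_859ada_lc.FS.Stmts

set_option autoImplicit false

namespace Pool.Agent.Work.MP_859ada_lc.FS

open Polynomial Pool.Agent.PT

theorem prfCPL : CPL := by
  intro P p a b hne hwf hlen hpos
  refine ⟨encSys [a, b], hlen, ?_, ?_⟩
  · unfold certR
    simp only [decProg_encProg, Bool.and_eq_true, decide_eq_true_eq, wfb_iff]
    exact ⟨⟨trivial, hne⟩, hwf⟩
  · intro g hg
    unfold certY at hg
    simp only [decProg_encProg, decSys_encSys, List.mem_singleton] at hg
    rw [hg]
    exact hpos

end Pool.Agent.Work.MP_859ada_lc.FS
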