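import Pool.Agent.Work.MP_859ada_lc.FS.Stmts

/-! # Block FS, item DS1: one step of the descent -/

set_option autoImplicit false

namespace Pool.Agent.Work.MP_859ada_lc.FS

open Polynomial Pool.Agent.PT

theorem DS1_pow_le {a : ℝ} (E : ℕ) (ha : a ≤ 2 ^ (2 ^ E)) :
    a * (1 / 2) ^ (2 ^ (E + 1)) ≤ (1 / 2 : ℝ) ^ (2 ^ E) := by
  have h1 : (1 / 2 : ℝ) ^ (2 ^ (E + 1)) = (1 / 2) ^ (2 ^ E) * (1 / 2) ^ (2 ^ E) := by
    rw [← pow_add]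
    congr 1
    rw [pow_succ]
    ring
  have h2 : (2 : ℝ) ^ (2 ^ E) * (1 / 2) ^ (2 ^ E) = 1 := by
    rw [← mul_pow]
    norm_num
  have h3 : (0 : ℝ) ≤ (1 / 2) ^ (2 ^ E) := by positivity
  have h4 : a * (1 / 2) ^ (2 ^ E) ≤ 1 := by
    calc a * (1 / 2) ^ (2 ^ E) ≤ 2 ^ (2 ^ E) * (1 / 2) ^ (2 ^ E) :=
          mul_le_mul_of_nonneg_right ha h3
      _ = 1 := h2
  calc a * (1 / 2) ^ (2 ^ (E + 1)) = (a * (1 / 2) ^ (2 ^ E)) * (1 / 2) ^ (2 ^ E) := by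
        rw [h1]; ring
    _ ≤ 1 * (1 / 2) ^ (2 ^ E) := mul_le_mul_of_nonneg_right h4 h3
    _ = (1 / 2) ^ (2 ^ E) := one_mul _

/-- The point `y1`: at distance at most `9 r + ε` or (if `r > ρ`) `r`. -/
theorem DS1_first (h1 : STG) (h : List Gate) (x0 ρ x1 r : ℝ) (E : ℕ) (l : List ℝ)
    (hne : h ≠ []) (hWF : WF 1 h) (hf : fP h ≠ 0) (hx0 : aeval x0 (fP h) = 0)
    (hR : 32 * 2 ^ h.length * ρ ≤ 2 ^ (2 ^ E)) (hρ : 0 < ρ) (hr0 : 0 ≤ r)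
    (hroots : ∀ z ∈ RT (fP h), ‖z - (x0 : ℂ)‖ ≤ r ∨ 32 * 2 ^ h.length * ρ ≤ ‖z - (x0 : ℂ)‖)
    (hx1 : |x1 - x0| ≤ ρ) (hl : Ch l) (hxl : x1 ∈ l) :
    ∃ y1 : ℝ, |y1 - x0| ≤ 9 * r + (1 / 2) ^ (2 ^ E) ∧
      Rch l ((E + 1) * (6 * h.length + 12) + 2 * h.length + 10) y1 := by
  by_cases hrρ : r ≤ ρ
  · obtain ⟨y, hy, hRy⟩ := h1 h x0 r (32 * 2 ^ h.length * ρ) ρ x1 l (E + 1) hne hWF hf hx0 hr0 hrρ hρ
      le_rfl hroots hx1 hl hxl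
    exact ⟨y, hy.trans (by linarith [DS1_pow_le E hR]), hRy⟩
  · have h5 : (0 : ℝ) < (1 / 2) ^ (2 ^ E) := by positivity
    exact ⟨x1, by linarith [not_le.mp hrρ], (Rch.self hl hxl).mono (Nat.zero_le _)⟩

theorem prfDS1 (h1 : STG) (h2 : GSS) (h3 : MXR) : DS1 := by
  intro h x0 ρ x1 k E S l hne hWF hf hx0 hxE hnE hS hρ hkρ hx1 hl hxl
  have hΓ : (0 : ℝ) < 32 * 2 ^ h.length := by positivity
  have hR0 : (0 : ℝ) < 32 * 2 ^ h.length * ρ := by positivity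
  have hk1 : (1 : ℝ) ≤ 2 ^ k := one_le_pow₀ (by norm_num)
  have hR1 : 32 * 2 ^ h.length * ρ ≤ |x0| := by nlinarith
  have hR2 : 32 * 2 ^ h.length * ρ ≤ 2 ^ (2 ^ E) := hR1.trans hxE
  obtain ⟨r, hr0, hrR, hroots, hrz⟩ := h3 (fP h) x0 (32 * 2 ^ h.length * ρ) hf hx0 hR0
  obtain ⟨y1, hy1, hRy1⟩ := DS1_first h1 h x0 ρ x1 r E l hne hWF hf hx0 hR2 hρ hr0 hroots hx1 hl hxl
  have hε : (0 : ℝ) < (1 / 2) ^ (2 ^ E) := by positivity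
  by_cases hrε : r ≤ (1 / 2) ^ (2 ^ E)
  · exact Or.inl ⟨y1, by linarith, hRy1.mono (by omega)⟩
  · right
    have hrε' := not_le.mp hrε
    have hrpos : 0 < r := hε.trans hrε'
    obtain ⟨z, hz, hzx, hzr⟩ := hrz.resolve_left hrpos.ne'
    have hkr : 2 ^ k * r < |x0| :=
      lt_of_lt_of_le (mul_lt_mul_of_pos_left hrR (by positivity)) hkρ
    obtain ⟨j, hjS, hj1, hj2⟩ := hS z hz hzx (by rw [hzr]; exact hkr)
    rw [hzr] at hj1 hj2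
    have hj0 : (0 : ℝ) < (2 : ℝ) ^ j := by positivity
    have hj2' : r < 2 * (2 : ℝ) ^ j := by
      rw [zpow_add_one₀ (by norm_num : (2 : ℝ) ≠ 0)] at hj2
      linarith
    have hΓρ' : 32 * 2 ^ h.length * ((2 : ℝ) ^ j / (32 * 2 ^ h.length)) = (2 : ℝ) ^ j :=
      mul_div_cancel₀ _ hΓ.ne'
    have hρ'0 : (0 : ℝ) < (2 : ℝ) ^ j / (32 * 2 ^ h.length) := by positivity
    have hΓ1 : (1 : ℝ) ≤ 32 * 2 ^ h.length := by
      have : (1 : ℝ) ≤ 2 ^ h.length := one_le_pow₀ (by norm_num)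
      linarith
    have hEE : (2 : ℕ) ^ (E + 1) = 2 ^ E + 2 ^ E := by rw [pow_succ]; ring
    -- the lower bound
    have hlow : (1 / 2 : ℝ) ^ (2 ^ (E + 1)) ≤ (2 : ℝ) ^ j / (32 * 2 ^ h.length) := by
      rw [le_div_iff₀ hΓ]
      have e1 : (1 / 2 : ℝ) ^ (2 ^ (E + 1)) ≤ (1 / 2) ^ (2 ^ E + (h.length + 6)) :=
        pow_le_pow_of_le_one (by norm_num) (by norm_num) (by omega)
      have e2 : (1 / 2 : ℝ) ^ (2 ^ E + (h.length + 6)) * (32 * 2 ^ h.length)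
          = (1 / 2) ^ (2 ^ E) * (1 / 2) := by
        have e3 : (1 / 2 : ℝ) ^ h.length * 2 ^ h.length = 1 := by
          rw [← mul_pow]; norm_num
        calc (1 / 2 : ℝ) ^ (2 ^ E + (h.length + 6)) * (32 * 2 ^ h.length)
            = (1 / 2) ^ (2 ^ E) * ((1 / 2 : ℝ) ^ h.length * 2 ^ h.length) * ((1 / 2) ^ 6 * 32) := by
              rw [pow_add, pow_add]; ring
          _ = (1 / 2) ^ (2 ^ E) * (1 / 2) := by rw [e3]; norm_num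
      calc (1 / 2 : ℝ) ^ (2 ^ (E + 1)) * (32 * 2 ^ h.length)
          ≤ (1 / 2 : ℝ) ^ (2 ^ E + (h.length + 6)) * (32 * 2 ^ h.length) :=
            mul_le_mul_of_nonneg_right e1 hΓ.le
        _ = (1 / 2) ^ (2 ^ E) * (1 / 2) := e2
        _ ≤ (2 : ℝ) ^ j := by linarith
    have hup0 : (2 : ℝ) ^ j / (32 * 2 ^ h.length) ≤ 2 ^ (2 ^ E) := by
      calc (2 : ℝ) ^ j / (32 * 2 ^ h.length) ≤ (2 : ℝ) ^ j := div_le_self hj0.le hΓ1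
        _ ≤ r := hj1
        _ ≤ 2 ^ (2 ^ E) := (hrR.le).trans hR2
    have hup : (2 : ℝ) ^ j / (32 * 2 ^ h.length) ≤ 2 ^ (2 ^ (E + 1)) :=
      hup0.trans (pow_le_pow_right₀ (by norm_num) (by omega))
    have hdist : |y1 - x0| ≤ 10 * r := by linarith
    have hratio : 10 * r ≤ 2 ^ (h.length + 10) * ((2 : ℝ) ^ j / (32 * 2 ^ h.length)) := by
      have e1 : (2 : ℝ) ^ (h.length + 10) * ((2 : ℝ) ^ j / (32 * 2 ^ h.length))
          = 32 * (32 * 2 ^ h.length * ((2 : ℝ) ^ j / (32 * 2 ^ h.length))) := by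
        rw [pow_add]; ring
      rw [e1, hΓρ']
      linarith
    obtain ⟨l', g1, g2, g3, g4⟩ := hRy1
    obtain ⟨y, hy, hRy⟩ := h2 l' x0 y1 (10 * r) ((2 : ℝ) ^ j / (32 * 2 ^ h.length)) (h.length + 10)
      (E + 1) g1 g4 hdist hρ'0 hratio hlow hup
    refine ⟨(2 : ℝ) ^ j / (32 * 2 ^ h.length), y, hρ'0, ?_, hy, ?_, ?_⟩
    · rw [hΓρ']
      exact ((mul_le_mul_of_nonneg_left hj1 (by positivity)).trans_lt hkr).le
    · obtain ⟨l'', k1, k2, k3, k4⟩ := hRy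
      exact ⟨l'', k1, fun a ha => k2 (g2 ha), by omega, k4⟩
    · rw [hΓρ']
      apply Finset.card_lt_card
      rw [Finset.ssubset_iff_of_subset]
      · refine ⟨j, ?_, ?_⟩
        · rw [Finset.mem_filter]
          exact ⟨hjS, lt_of_le_of_lt hj1 hrR⟩
        · rw [Finset.mem_filter]
          exact fun h' => lt_irrefl _ h'.2
      · intro i hi
        rw [Finset.mem_filter] at hi ⊢
        exact ⟨hi.1, hi.2.trans (lt_of_le_of_lt hj1 hrR)⟩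

end Pool.Agent.Work.MP_859ada_lc.FS
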