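import Pool.Agent.Work.MP_859ada_lc.FS.Stmts

/-! Item [859ada FS FFB] (helper63): products of linear factors in the basis of the falling factorials. -/

set_option autoImplicit false

namespace Pool.Agent.Work.MP_859ada_lc.FS

open Polynomial Pool.Agent.PT

/-- the coefficients after multiplication by `X - s` -/
def FFB_step (a : ℕ → ℤ) (s : ℕ) : ℕ → ℤ
  | 0 => (0 - (s : ℤ)) * a 0
  | j + 1 => a j + (((j + 1 : ℕ) : ℤ) - (s : ℤ)) * a (j + 1)

theorem FFB_mul (j s : ℕ) : (X - C (s : ℤ)) * descPochhammer ℤ j =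
    descPochhammer ℤ (j + 1) + C ((j : ℤ) - (s : ℤ)) * descPochhammer ℤ j := by
  rw [descPochhammer_succ_right]
  simp only [map_sub, map_natCast]
  ring

theorem FFB_sum (a : ℕ → ℤ) (s t : ℕ) (h : a (t + 1) = 0) :
    (X - C (s : ℤ)) * ∑ j ∈ Finset.range (t + 1), C (a j) * descPochhammer ℤ j =
      ∑ j ∈ Finset.range (t + 1 + 1), C (FFB_step a s j) * descPochhammer ℤ j := by
  have h1 : ∑ j ∈ Finset.range (t + 1), C (((j : ℤ) - (s : ℤ)) * a j) * descPochhammer ℤ j =
      ∑ j ∈ Finset.range (t + 1 + 1), C (((j : ℤ) - (s : ℤ)) * a j) * descPochhammer ℤ j := by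
    rw [Finset.sum_range_succ _ (t + 1), h]
    simp
  have h2 : (X - C (s : ℤ)) * ∑ j ∈ Finset.range (t + 1), C (a j) * descPochhammer ℤ j =
      ∑ j ∈ Finset.range (t + 1), C (a j) * descPochhammer ℤ (j + 1) +
        ∑ j ∈ Finset.range (t + 1), C (((j : ℤ) - (s : ℤ)) * a j) * descPochhammer ℤ j := by
    rw [Finset.mul_sum, ← Finset.sum_add_distrib]
    apply Finset.sum_congr rfl
    intro j _
    have h3 := FFB_mul j s
    have h4 : C (((j : ℤ) - (s : ℤ)) * a j) = C (a j) * C ((j : ℤ) - (s : ℤ)) := by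
      rw [← C_mul, mul_comm]
    rw [h4]
    linear_combination (C (a j)) * h3
  rw [h2, h1, Finset.sum_range_succ' _ (t + 1), Finset.sum_range_succ' _ (t + 1), ← add_assoc,
    ← Finset.sum_add_distrib]
  congr 1
  apply Finset.sum_congr rfl
  intro j _
  simp only [FFB_step]
  rw [C_add]
  ring

theorem FFB_main (D : ℕ) (S : Finset ℕ) : S.card ≤ D → (∀ s ∈ S, s ≤ D) → ∃ a : ℕ → ℤ,
    a S.card = 1 ∧ (∀ j, S.card < j → a j = 0) ∧
    (∀ j ≤ S.card, |a j| ≤ (S.card.choose j : ℤ) * (D : ℤ) ^ (S.card - j)) ∧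
    ∏ s ∈ S, (X - C (s : ℤ)) = ∑ j ∈ Finset.range (S.card + 1), C (a j) * descPochhammer ℤ j := by
  classical
  induction S using Finset.induction_on with
  | empty =>
    intro _ _
    refine ⟨fun j => if j = 0 then 1 else 0, by simp, ?_, ?_, ?_⟩
    · intro j hj
      simp only [Finset.card_empty] at hj
      simp [hj.ne']
    · intro j hj
      simp only [Finset.card_empty, Nat.le_zero] at hj
      subst hj
      simp
    · simp
  | insert s S hs ih =>
    intro hcard hle
    rw [Finset.card_insert_of_notMem hs] at hcard ⊢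
    obtain ⟨a, ha1, ha0, hab, hprod⟩ := ih (by omega) (fun x hx => hle x (Finset.mem_insert_of_mem hx))
    have hsD : s ≤ D := hle s (Finset.mem_insert_self s S)
    set t := S.card with ht
    refine ⟨FFB_step a s, ?_, ?_, ?_, ?_⟩
    · simp only [FFB_step]
      rw [ha1, ha0 (t + 1) (by omega)]
      ring
    · intro j hj
      obtain ⟨i, rfl⟩ : ∃ i, j = i + 1 := ⟨j - 1, by omega⟩
      simp only [FFB_step]
      rw [ha0 i (by omega), ha0 (i + 1) (by omega)]
      ring
    · intro j hj
      have hD : (0 : ℤ) ≤ D := by positivity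
      rcases j with _ | i
      · simp only [FFB_step, Nat.choose_zero_right, Nat.sub_zero]
        have h0 := hab 0 (by omega)
        simp only [Nat.choose_zero_right, Nat.sub_zero] at h0
        rw [abs_mul]
        have h1 : |(0 : ℤ) - (s : ℤ)| ≤ D := by
          rw [abs_le]
          constructor <;> omega
        calc |(0 : ℤ) - (s : ℤ)| * |a 0| ≤ (D : ℤ) * (((1 : ℕ) : ℤ) * (D : ℤ) ^ t) := by
              apply mul_le_mul h1 h0 (abs_nonneg _) hD
          _ = ((1 : ℕ) : ℤ) * (D : ℤ) ^ (t + 1) := by ring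
      · simp only [FFB_step]
        have h0 := hab i (by omega)
        have h1 : |(((i + 1 : ℕ) : ℤ) - (s : ℤ)) * a (i + 1)| ≤
            (t.choose (i + 1) : ℤ) * (D : ℤ) ^ (t - i) := by
          rcases Nat.lt_or_ge t (i + 1) with h | h
          · rw [ha0 (i + 1) h]
            simp only [mul_zero, abs_zero]
            positivity
          · have h2 := hab (i + 1) h
            have h3 : |((i + 1 : ℕ) : ℤ) - (s : ℤ)| ≤ D := by
              rw [abs_le]
              constructor <;> omega
            have h4 : t - i = (t - (i + 1)) + 1 := by omega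
            rw [abs_mul, h4]
            calc |((i + 1 : ℕ) : ℤ) - (s : ℤ)| * |a (i + 1)| ≤
                (D : ℤ) * ((t.choose (i + 1) : ℤ) * (D : ℤ) ^ (t - (i + 1))) :=
                  mul_le_mul h3 h2 (abs_nonneg _) hD
              _ = (t.choose (i + 1) : ℤ) * (D : ℤ) ^ (t - (i + 1) + 1) := by ring
        have h5 : t + 1 - (i + 1) = t - i := by omega
        rw [h5, Nat.choose_succ_succ]
        refine (abs_add_le _ _).trans ?_
        push_cast
        push_cast at h0 h1
        nlinarith [h0, h1]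
    · rw [Finset.prod_insert hs, hprod]
      exact FFB_sum a s t (ha0 (t + 1) (by omega))

theorem prfFFB : FFB := by
  intro S D hcard hle
  obtain ⟨a, ha1, _, hab, hprod⟩ := FFB_main D S hcard hle
  exact ⟨a, ha1, hab, hprod⟩

end Pool.Agent.Work.MP_859ada_lc.FS
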