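import Pool.Agent.Work.MP_859ada_lc.FS.Stmts

/-! # Block FS, item FFR -/

set_option autoImplicit false

namespace Pool.Agent.Work.MP_859ada_lc.FS

open Polynomial

/-- the falling factorial as an integer -/
def FFR_P (j e : ℕ) : ℤ := (e.descFactorial j : ℤ)

theorem FFR_P_eval (j e : ℕ) : (descPochhammer ℤ j).eval (e : ℤ) = FFR_P j e := by
  unfold FFR_P
  exact descPochhammer_eval_eq_descFactorial ℤ e j

theorem FFR_P_succ (j e : ℕ) : FFR_P (j + 1) e = ((e : ℤ) - j) * FFR_P j e := by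
  rw [← FFR_P_eval, ← FFR_P_eval, descPochhammer_succ_right]
  simp [mul_comm]

theorem FFR_base (S : Finset ℕ) (a : ℕ → ℤ) (h1 : a S.card = 1)
    (h : ∏ s ∈ S, (X - C (s : ℤ)) =
      ∑ j ∈ Finset.range (S.card + 1), C (a j) * descPochhammer ℤ j) (e : ℕ) (he : e ∈ S) :
    FFR_P S.card e = ∑ j ∈ Finset.range S.card, (- a j) * FFR_P j e := by
  have h2 := congrArg (Polynomial.eval (e : ℤ)) h
  rw [Polynomial.eval_prod, Polynomial.eval_finset_sum,
    Finset.prod_eq_zero he (by simp)] at h2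
  simp only [Polynomial.eval_mul, Polynomial.eval_C, FFR_P_eval] at h2
  rw [Finset.sum_range_succ, h1, one_mul] at h2
  simp only [neg_mul, Finset.sum_neg_distrib]
  linarith

theorem FFR_step (t n : ℕ) (a c : ℕ → ℤ) (e : ℕ) (ht : 1 ≤ t)
    (hb : FFR_P t e = ∑ j ∈ Finset.range t, (- a j) * FFR_P j e)
    (hc : FFR_P n e = ∑ j ∈ Finset.range t, c j * FFR_P j e) :
    FFR_P (n + 1) e = ∑ j ∈ Finset.range t,
      ((if j = 0 then 0 else c (j - 1)) + ((j : ℤ) - n) * c j - c (t - 1) * a j) * FFR_P j e := by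
  have h1 : FFR_P (n + 1) e = ∑ j ∈ Finset.range t,
      (c j * FFR_P (j + 1) e + ((j : ℤ) - n) * c j * FFR_P j e) := by
    rw [FFR_P_succ, hc, Finset.mul_sum]
    refine Finset.sum_congr rfl fun j _ => ?_
    rw [FFR_P_succ j e]; ring
  obtain ⟨t', rfl⟩ : ∃ t', t = t' + 1 := ⟨t - 1, by omega⟩
  have h2 : ∑ j ∈ Finset.range (t' + 1), c j * FFR_P (j + 1) e =
      (∑ j ∈ Finset.range (t' + 1), (if j = 0 then 0 else c (j - 1)) * FFR_P j e)
        + c t' * FFR_P (t' + 1) e := by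
    rw [Finset.sum_range_succ, Finset.sum_range_succ' (fun j => (if j = 0 then 0 else c (j - 1)) *
      FFR_P j e) t']
    simp
  rw [h1, Finset.sum_add_distrib, h2, hb, Finset.mul_sum, ← Finset.sum_add_distrib,
    ← Finset.sum_add_distrib]
  refine Finset.sum_congr rfl fun j _ => ?_
  simp only [Nat.add_sub_cancel]
  ring

theorem FFR_int (h : FFB) (S : Finset ℕ) (D : ℕ) (hS : 1 ≤ S.card) (hSD : S.card ≤ D)
    (hsD : ∀ s ∈ S, s ≤ D) : ∀ m : ℕ, S.card + m ≤ D → ∃ c : ℕ → ℤ,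
      (∀ e ∈ S, FFR_P (S.card + m) e = ∑ j ∈ Finset.range S.card, c j * FFR_P j e) ∧
      ∀ j < S.card, |c j| ≤ (2 : ℤ) ^ (S.card + (S.card + 1) * m) * (D : ℤ) ^ (S.card + m - j) := by
  obtain ⟨a, ha1, ha2, ha3⟩ := h S D hSD hsD
  have hD0 : (0 : ℤ) ≤ D := Int.natCast_nonneg D
  have ha4 : ∀ j < S.card, |a j| ≤ (2 : ℤ) ^ S.card * (D : ℤ) ^ (S.card - j) := by
    intro j hj
    refine (ha2 j hj.le).trans ?_
    refine mul_le_mul_of_nonneg_right ?_ (pow_nonneg hD0 _)
    exact_mod_cast Nat.choose_le_two_pow S.card j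
  intro m
  induction m with
  | zero =>
    intro _
    refine ⟨fun j => - a j, fun e he => FFR_base S a ha1 ha3 e he, fun j hj => ?_⟩
    rw [abs_neg]
    simpa using ha4 j hj
  | succ m ih =>
    intro hm
    obtain ⟨c, hc1, hc2⟩ := ih (by omega)
    refine ⟨fun j => (if j = 0 then 0 else c (j - 1)) + ((j : ℤ) - ((S.card + m : ℕ) : ℤ)) * c j -
      c (S.card - 1) * a j, fun e he => ?_, fun j hj => ?_⟩
    · exact FFR_step S.card (S.card + m) a c e hS (FFR_base S a ha1 ha3 e he) (hc1 e he)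
    · set t := S.card with ht
      set B : ℤ := (2 : ℤ) ^ (t + (t + 1) * m) with hB
      have hB0 : 0 ≤ B := by positivity
      have e1 : |(if j = 0 then 0 else c (j - 1))| ≤ B * (D : ℤ) ^ (t + (m + 1) - j) := by
        by_cases hj0 : j = 0
        · simp only [hj0, if_true, abs_zero]; positivity
        · rw [if_neg hj0]
          have := hc2 (j - 1) (by omega)
          rwa [show t + m - (j - 1) = t + (m + 1) - j by omega] at this
      have e2 : |((j : ℤ) - ((t + m : ℕ) : ℤ)) * c j| ≤ B * (D : ℤ) ^ (t + (m + 1) - j) := by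
        rw [abs_mul, show t + (m + 1) - j = (t + m - j) + 1 by omega, pow_succ]
        have h3 : |(j : ℤ) - ((t + m : ℕ) : ℤ)| ≤ D := by
          rw [abs_le]; constructor <;> push_cast <;> omega
        have h4 := hc2 j hj
        calc |(j : ℤ) - ((t + m : ℕ) : ℤ)| * |c j| ≤ D * (B * (D : ℤ) ^ (t + m - j)) :=
              mul_le_mul h3 h4 (abs_nonneg _) hD0
          _ = B * ((D : ℤ) ^ (t + m - j) * D) := by ring
      have e3 : |c (t - 1) * a j| ≤ B * 2 ^ t * (D : ℤ) ^ (t + (m + 1) - j) := by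
        rw [abs_mul]
        have h5 := hc2 (t - 1) (by omega)
        have h6 := ha4 j hj
        rw [show t + m - (t - 1) = m + 1 by omega] at h5
        calc |c (t - 1)| * |a j| ≤ (B * (D : ℤ) ^ (m + 1)) * (2 ^ t * (D : ℤ) ^ (t - j)) :=
              mul_le_mul h5 h6 (abs_nonneg _) (by positivity)
          _ = B * 2 ^ t * (D : ℤ) ^ ((m + 1) + (t - j)) := by rw [pow_add]; ring
          _ = _ := by rw [show m + 1 + (t - j) = t + (m + 1) - j by omega]
      have e4 : (2 : ℤ) ≤ 2 ^ t := by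
        calc (2 : ℤ) = 2 ^ 1 := by norm_num
          _ ≤ 2 ^ t := pow_le_pow_right₀ (by norm_num) hS
      have e5 : (2 : ℤ) ^ (t + (t + 1) * (m + 1)) = B * (2 ^ t + 2 ^ t) := by
        rw [hB, show t + (t + 1) * (m + 1) = (t + (t + 1) * m) + (t + 1) by ring, pow_add _ _ (t + 1),
          pow_succ (2 : ℤ) t]
        ring
      have e6 := abs_sub ((if j = 0 then 0 else c (j - 1)) + ((j : ℤ) - ((t + m : ℕ) : ℤ)) * c j)
        (c (t - 1) * a j)
      have e7 := abs_add_le (if j = 0 then 0 else c (j - 1)) (((j : ℤ) - ((t + m : ℕ) : ℤ)) * c j)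
      have hX : 0 ≤ (D : ℤ) ^ (t + (m + 1) - j) := by positivity
      rw [e5]
      have e8 : B * (D : ℤ) ^ (t + (m + 1) - j) + B * (D : ℤ) ^ (t + (m + 1) - j) +
          B * 2 ^ t * (D : ℤ) ^ (t + (m + 1) - j) ≤ B * (2 ^ t + 2 ^ t) *
          (D : ℤ) ^ (t + (m + 1) - j) := by
        have : B * (D : ℤ) ^ (t + (m + 1) - j) * 2 ≤ B * (D : ℤ) ^ (t + (m + 1) - j) * 2 ^ t :=
          mul_le_mul_of_nonneg_left e4 (by positivity)
        nlinarith
      linarith

theorem prfFFR (h1 : FFB) : FFR := by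
  intro S D hS hSD hsD n hn hnD
  obtain ⟨m, rfl⟩ : ∃ m, n = S.card + m := ⟨n - S.card, by omega⟩
  obtain ⟨c, hc1, hc2⟩ := FFR_int h1 S D hS hSD hsD m hnD
  refine ⟨fun j => (c j : ℝ) * (j.factorial : ℝ) / ((S.card + m).factorial : ℝ),
    fun e he => ?_, fun j hj => ?_⟩
  · have h2 := hc1 e he
    have h3 : ((FFR_P (S.card + m) e : ℤ) : ℝ) =
        ∑ j ∈ Finset.range S.card, (c j : ℝ) * ((FFR_P j e : ℤ) : ℝ) := by
      rw [h2]; push_cast; rfl
    have h4 : ∀ k, ((FFR_P k e : ℤ) : ℝ) = (k.factorial : ℝ) * ((e.choose k : ℕ) : ℝ) := by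
      intro k
      unfold FFR_P
      rw [Nat.descFactorial_eq_factorial_mul_choose]
      push_cast; ring
    rw [h4] at h3
    have h5 : ((S.card + m).factorial : ℝ) ≠ 0 := by
      exact_mod_cast Nat.factorial_ne_zero _
    have h6 : ((e.choose (S.card + m) : ℕ) : ℝ) =
        (∑ j ∈ Finset.range S.card, (c j : ℝ) * ((FFR_P j e : ℤ) : ℝ)) /
          ((S.card + m).factorial : ℝ) := by
      rw [← h3]; field_simp
    rw [h6, Finset.sum_div]
    refine Finset.sum_congr rfl fun j _ => ?_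
    rw [h4]; ring
  · have h2 := hc2 j hj
    have h3 : |(c j : ℝ)| ≤ (2 : ℝ) ^ (S.card + (S.card + 1) * m) * (D : ℝ) ^ (S.card + m - j) := by
      exact_mod_cast h2
    have h5 : (0 : ℝ) < ((S.card + m).factorial : ℝ) := by
      exact_mod_cast Nat.factorial_pos _
    have h6 : (j.factorial : ℝ) ≤ ((S.card + m).factorial : ℝ) := by
      exact_mod_cast Nat.factorial_le (by omega)
    have h7 : |(c j : ℝ) * (j.factorial : ℝ) / ((S.card + m).factorial : ℝ)| ≤ |(c j : ℝ)| := by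
      rw [abs_div, abs_mul, abs_of_pos h5, Nat.abs_cast, div_le_iff₀ h5]
      exact mul_le_mul_of_nonneg_left h6 (abs_nonneg _)
    refine h7.trans (h3.trans ?_)
    rw [mul_pow, ← pow_mul]
    refine mul_le_mul_of_nonneg_right ?_ (by positivity)
    refine pow_le_pow_right₀ (by norm_num) ?_
    obtain ⟨k, hk⟩ : ∃ k, S.card + m - j = m + 1 + k := ⟨S.card + m - j - (m + 1), by omega⟩
    rw [hk]
    nlinarith

end Pool.Agent.Work.MP_859ada_lc.FS
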