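import Pool.Agent.Work.MP_859ada_lc.FS.Stmts

/-!
# Block FS, item FIN: the value at the approximation
-/

set_option autoImplicit false

namespace Pool.Agent.Work.MP_859ada_lc.FS

open Polynomial

theorem FIN_value (p : List Gate) (x : ℝ) : value (fun _ => x) p = aeval x (fP p) := by
  have h := value_map ((aeval x : ℤ[X] →ₐ[ℤ] ℝ) : ℤ[X] →+* ℝ) (fun _ => (X : ℤ[X])) p
  simpa [fP] using h

theorem prfFIN : FIN := by
  intro p n E x0 y hp hwf h0 hx0 hE hy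
  have hval0 : value (fun _ => x0) p = 0 := by rw [FIN_value, h0]
  have hE6 : 6 ≤ E := by omega
  have h2E : (64 : ℕ) ≤ 2 ^ E := by
    calc (64 : ℕ) = 2 ^ 6 := by norm_num
      _ ≤ 2 ^ E := Nat.pow_le_pow_right (by norm_num) hE6
  have hd : (10 : ℝ) * (1 / 2) ^ (2 ^ E) ≤ 1 := by
    have : ((1 : ℝ) / 2) ^ (2 ^ E) ≤ (1 / 2) ^ 64 :=
      pow_le_pow_of_le_one (by norm_num) (by norm_num) h2E
    calc (10 : ℝ) * (1 / 2) ^ (2 ^ E) ≤ 10 * (1 / 2) ^ 64 := by gcongr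
      _ ≤ 1 := by norm_num
  have hd0 : (0 : ℝ) ≤ 10 * (1 / 2) ^ (2 ^ E) := by positivity
  have hA : (4 : ℝ) ≤ 2 ^ (2 ^ (n + 1)) := by
    calc (4 : ℝ) = 2 ^ 2 := by norm_num
      _ ≤ 2 ^ (2 ^ (n + 1)) := by
        apply pow_le_pow_right₀ (by norm_num)
        calc 2 = 2 ^ 1 := by norm_num
          _ ≤ 2 ^ (n + 1) := Nat.pow_le_pow_right (by norm_num) (by omega)
  have hM : (2 : ℝ) ^ (2 ^ (n + 2)) = 2 ^ (2 ^ (n + 1)) * 2 ^ (2 ^ (n + 1)) := by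
    rw [← pow_add]
    congr 1
    ring
  have hM2 : (2 : ℝ) ≤ 2 ^ (2 ^ (n + 2)) := by
    rw [hM]
    nlinarith
  have hxM : |x0| ≤ 2 ^ (2 ^ (n + 2)) := by
    rw [hM]
    nlinarith
  have hyM : |y| ≤ 2 ^ (2 ^ (n + 2)) := by
    have h1 : |y| ≤ |y - x0| + |x0| := by
      have := abs_add_le (y - x0) x0
      simpa using this
    rw [hM]
    nlinarith
  have key := norm_value_sub_le (𝕜 := ℝ) (M := 2 ^ (2 ^ (n + 2))) (d := 10 * (1 / 2) ^ (2 ^ E))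
    hM2 hd0 (x := fun _ => y) (y := fun _ => x0) (fun _ => by simpa using hyM)
    (fun _ => by simpa using hxM) (fun _ => by simpa using hy) (p := p) (n := p.length) le_rfl
  rw [hval0, sub_zero, Real.norm_eq_abs] at key
  have hpow : ((2 : ℝ) ^ (2 ^ (n + 2))) ^ (2 ^ (p.length + 1)) = 2 ^ (2 ^ (n + p.length + 3)) := by
    rw [← pow_mul, ← pow_add]
    congr 2
    ring
  rw [hpow] at key
  have hS : 2 ^ (3 * p.length + 4) + 2 ^ (n + p.length + 3) + 4 ≤ 2 ^ E := by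
    have e1 : 2 ^ (3 * p.length + n + 6) ≤ 2 ^ E := Nat.pow_le_pow_right (by norm_num) hE
    have e2 : 2 ^ (3 * p.length + 4) ≤ 2 ^ (3 * p.length + n + 4) :=
      Nat.pow_le_pow_right (by norm_num) (by omega)
    have e3 : 2 ^ (n + p.length + 3) ≤ 2 ^ (3 * p.length + n + 4) :=
      Nat.pow_le_pow_right (by norm_num) (by omega)
    have e4 : 4 ≤ 2 ^ (3 * p.length + n + 4) := by
      calc 4 = 2 ^ 2 := by norm_num
        _ ≤ _ := Nat.pow_le_pow_right (by norm_num) (by omega)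
    have e5 : 2 ^ (3 * p.length + n + 6) = 4 * 2 ^ (3 * p.length + n + 4) := by
      rw [show 3 * p.length + n + 6 = (3 * p.length + n + 4) + 2 by ring, pow_add]
      ring
    omega
  have hS2 : (2 : ℝ) ^ (2 ^ (3 * p.length + 4)) * 2 ^ (2 ^ (n + p.length + 3)) * 16 ≤ 2 ^ (2 ^ E) := by
    calc (2 : ℝ) ^ (2 ^ (3 * p.length + 4)) * 2 ^ (2 ^ (n + p.length + 3)) * 16
        = 2 ^ (2 ^ (3 * p.length + 4) + 2 ^ (n + p.length + 3) + 4) := by
          rw [pow_add (2 : ℝ) (2 ^ (3 * p.length + 4) + 2 ^ (n + p.length + 3)) 4,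
            pow_add (2 : ℝ) (2 ^ (3 * p.length + 4)) (2 ^ (n + p.length + 3))]
          norm_num
      _ ≤ 2 ^ (2 ^ E) := pow_le_pow_right₀ (by norm_num) hS
  have hhalf : ((1 : ℝ) / 2) ^ (2 ^ E) * 2 ^ (2 ^ E) = 1 := by
    rw [← mul_pow]
    norm_num
  have hp1 : (0 : ℝ) < 2 ^ (2 ^ (3 * p.length + 4)) := by positivity
  have hp2 : (0 : ℝ) < 2 ^ (2 ^ (n + p.length + 3)) := by positivity
  have hp3 : (0 : ℝ) < (1 / 2) ^ (2 ^ E) := by positivity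
  calc (2 : ℝ) ^ (2 ^ (3 * p.length + 4)) * |value (fun _ => y) p|
      ≤ 2 ^ (2 ^ (3 * p.length + 4)) * (10 * (1 / 2) ^ (2 ^ E) * 2 ^ (2 ^ (n + p.length + 3))) :=
        mul_le_mul_of_nonneg_left key hp1.le
    _ = (1 / 2) ^ (2 ^ E) * (10 * (2 ^ (2 ^ (3 * p.length + 4)) * 2 ^ (2 ^ (n + p.length + 3)))) := by
        ring
    _ < (1 / 2) ^ (2 ^ E) * (16 * (2 ^ (2 ^ (3 * p.length + 4)) * 2 ^ (2 ^ (n + p.length + 3)))) := by
        apply mul_lt_mul_of_pos_left _ hp3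
        nlinarith [mul_pos hp1 hp2]
    _ ≤ (1 / 2) ^ (2 ^ E) * 2 ^ (2 ^ E) := by
        apply mul_le_mul_of_nonneg_left _ hp3.le
        linarith
    _ = 1 := hhalf

end Pool.Agent.Work.MP_859ada_lc.FS
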