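import Pool.Agent.Work.MP_859ada_lc.FS.Stmts

/-!
# Block FS, item GSS: guess of the position
-/

set_option autoImplicit false

namespace Pool.Agent.Work.MP_859ada_lc.FS

/-- the exponent -/
theorem GSS_exp (δ : ℝ) (E : ℕ) (hδ : 0 < δ) (hlo : (1 / 2 : ℝ) ^ (2 ^ E) ≤ δ)
    (hhi : δ ≤ 2 ^ (2 ^ E)) :
    ∃ e : ℤ, (2 : ℝ) ^ e ≤ δ ∧ δ < (2 : ℝ) ^ (e + 1) ∧ |e| < 2 ^ (E + 1) := by
  have hle : (2 : ℝ) ^ (Int.log 2 δ) ≤ δ := by
    have h := Int.zpow_log_le_self (R := ℝ) (b := 2) (by norm_num) hδ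
    exact_mod_cast h
  have hlt : δ < (2 : ℝ) ^ (Int.log 2 δ + 1) := by
    have h := Int.lt_zpow_succ_log_self (R := ℝ) (b := 2) (by norm_num) δ
    exact_mod_cast h
  refine ⟨Int.log 2 δ, hle, hlt, ?_⟩
  generalize Int.log 2 δ = e at hle hlt
  have h1 : e ≤ 2 ^ E := by
    have h2 : (2 : ℝ) ^ e ≤ (2 : ℝ) ^ ((2 : ℤ) ^ E) := by
      have h3 : (2 : ℝ) ^ ((2 : ℤ) ^ E) = (2 : ℝ) ^ (2 ^ E : ℕ) := by
        rw [← zpow_natCast]
        push_cast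
        rfl
      rw [h3]
      exact hle.trans hhi
    exact (zpow_le_zpow_iff_right₀ (by norm_num : (1 : ℝ) < 2)).1 h2
  have h4 : -(2 ^ E : ℤ) < e + 1 := by
    have h2 : (2 : ℝ) ^ (-(2 ^ E : ℤ)) < (2 : ℝ) ^ (e + 1) := by
      have h3 : (2 : ℝ) ^ (-(2 ^ E : ℤ)) = (1 / 2 : ℝ) ^ (2 ^ E : ℕ) := by
        rw [zpow_neg, one_div, inv_pow, ← zpow_natCast]
        push_cast
        rfl
      rw [h3]
      exact lt_of_le_of_lt hlo hlt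
    exact (zpow_lt_zpow_iff_right₀ (by norm_num : (1 : ℝ) < 2)).1 h2
  have h5 : (0 : ℤ) < 2 ^ E := by positivity
  rw [abs_lt, pow_succ]
  constructor <;> linarith

/-- Item GSS -/
theorem prfGSS (h1 : NUM) (h2 : PW2) : GSS := by
  intro l x0 x1 ρ δ t E hl hx1 hρ hδ hρδ hlo hhi
  obtain ⟨e, hle, hlt, he⟩ := GSS_exp δ E hδ hlo hhi
  have hpos : (0 : ℝ) < (2 : ℝ) ^ e := by positivity
  have hlt' : δ < 2 * (2 : ℝ) ^ e := by
    rw [zpow_add_one₀ (by norm_num : (2 : ℝ) ≠ 0)] at hlt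
    linarith
  set b : ℤ := round ((x0 - x1) / (2 : ℝ) ^ e) with hb
  have hr : |(x0 - x1) / (2 : ℝ) ^ e - b| ≤ 1 / 2 := abs_sub_round _
  have hbb : |b| < 2 ^ (t + 2) := by
    have h3 : |(b : ℝ)| ≤ |(x0 - x1) / (2 : ℝ) ^ e| + 1 / 2 := by
      have h4 : (b : ℝ) = (x0 - x1) / (2 : ℝ) ^ e - ((x0 - x1) / (2 : ℝ) ^ e - b) := by ring
      calc |(b : ℝ)| = |(x0 - x1) / (2 : ℝ) ^ e - ((x0 - x1) / (2 : ℝ) ^ e - b)| := by rw [← h4]
        _ ≤ |(x0 - x1) / (2 : ℝ) ^ e| + |(x0 - x1) / (2 : ℝ) ^ e - b| := abs_sub _ _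
        _ ≤ _ := by linarith
    have h5 : |(x0 - x1) / (2 : ℝ) ^ e| ≤ 2 ^ t * 2 := by
      rw [abs_div, abs_of_pos hpos, div_le_iff₀ hpos, abs_sub_comm]
      have h6 : (0 : ℝ) < 2 ^ t := by positivity
      nlinarith
    have h7 : |(b : ℝ)| < 2 ^ (t + 2) := by
      have h8 : (1 : ℝ) ≤ 2 ^ t := one_le_pow₀ (by norm_num)
      rw [pow_add]
      linarith
    exact_mod_cast h7
  refine ⟨x1 + b * (2 : ℝ) ^ e, ?_, ?_⟩
  · have h3 : x1 + b * (2 : ℝ) ^ e - x0 = -((x0 - x1) / (2 : ℝ) ^ e - b) * (2 : ℝ) ^ e := by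
      field_simp
      ring
    rw [h3, abs_mul, abs_neg, abs_of_pos hpos]
    nlinarith
  · have hmain : Rch l ((2 * (E + 1) + 6) + ((2 * (t + 2) + 5) + (1 + 1)))
        (x1 + b * (2 : ℝ) ^ e) := by
      refine Rch.step (h2 (E + 1) e he l hl) fun l' hl' hs hm => ?_
      refine Rch.step (h1 (t + 2) b hbb l' hl') fun l'' hl'' hs' hm' => ?_
      refine Rch.step (Rch.op hl'' hm' (hs' hm) (Or.inr (Or.inr (Or.inl rfl))))
        fun l3 hl3 hs3 hm3 => ?_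
      exact Rch.op hl3 (hs3 (hs' (hs hx1))) hm3 (Or.inl rfl)
    exact hmain.mono (by omega)

end Pool.Agent.Work.MP_859ada_lc.FS
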