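import Pool.Agent.Work.MP_859ada_lc.FS.Stmts

/-!
# Block FS, item ITR: the Newton iteration for a cluster of roots
-/

set_option autoImplicit false

namespace Pool.Agent.Work.MP_859ada_lc.FS

open Polynomial

theorem ITR_cen (A : Multiset ℂ) (x0 : ℂ) (r : ℝ) (hA : A ≠ 0) (h : ∀ z ∈ A, ‖z - x0‖ ≤ r) :
    ‖A.sum / (Multiset.card A : ℂ) - x0‖ ≤ r := by
  have key : ∀ s : Multiset ℂ, (∀ z ∈ s, ‖z - x0‖ ≤ r) →
      ‖s.sum - (Multiset.card s : ℂ) * x0‖ ≤ (Multiset.card s : ℝ) * r := by
    intro s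
    induction s using Multiset.induction_on with
    | empty => intro _; simp
    | cons a s ih =>
      intro hs
      have h1 := hs a (Multiset.mem_cons_self a s)
      have h2 := ih (fun z hz => hs z (Multiset.mem_cons_of_mem hz))
      rw [Multiset.sum_cons, Multiset.card_cons]
      have h3 : a + s.sum - ((Multiset.card s + 1 : ℕ) : ℂ) * x0 =
          (a - x0) + (s.sum - (Multiset.card s : ℂ) * x0) := by push_cast; ring
      rw [h3]
      calc ‖(a - x0) + (s.sum - (Multiset.card s : ℂ) * x0)‖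
          ≤ ‖a - x0‖ + ‖s.sum - (Multiset.card s : ℂ) * x0‖ := norm_add_le _ _
        _ ≤ r + (Multiset.card s : ℝ) * r := add_le_add h1 h2
        _ = ((Multiset.card s + 1 : ℕ) : ℝ) * r := by push_cast; ring
  have hm : 0 < Multiset.card A := Multiset.card_pos.mpr hA
  have hm' : (0 : ℝ) < (Multiset.card A : ℝ) := by exact_mod_cast hm
  have hmC : (Multiset.card A : ℂ) ≠ 0 := by exact_mod_cast hm.ne'
  have h2 : A.sum / (Multiset.card A : ℂ) - x0 =
      (A.sum - (Multiset.card A : ℂ) * x0) / (Multiset.card A : ℂ) := by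
    field_simp
  rw [h2, norm_div, Complex.norm_natCast, div_le_iff₀ hm']
  linarith [mul_comm (Multiset.card A : ℝ) r, key A h]

theorem prfITR (h1 : NST) (h2 : LGD) : ITR := by
  intro g D x0 r R ρ x1 hg hg0 hD hr hrρ hρ hR hgap hx1
  classical
  -- the inner and the outer roots
  set A : Multiset ℂ := (RT g).filter (fun z => ‖z - (x0 : ℂ)‖ ≤ r) with hAdef
  set B : Multiset ℂ := (RT g).filter (fun z => ¬ ‖z - (x0 : ℂ)‖ ≤ r) with hBdef
  have hAB : A + B = RT g := Multiset.filter_add_not _ _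
  have hgC : g.map (Int.castRingHom ℂ) ≠ 0 :=
    (Polynomial.map_ne_zero_iff (RingHom.injective_int _)).mpr hg
  have hx0RT : (x0 : ℂ) ∈ RT g := by
    rw [RT, mem_roots hgC, IsRoot, eval_map]
    have h3 : aeval (x0 : ℂ) g = ((aeval x0 g : ℝ) : ℂ) := by
      have := Polynomial.aeval_algebraMap_apply ℂ x0 g
      simpa using this
    rw [hg0] at h3
    rw [aeval_def] at h3
    simpa using h3
  have hx0A : (x0 : ℂ) ∈ A := by
    rw [hAdef, Multiset.mem_filter]
    exact ⟨hx0RT, by simpa using hr⟩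
  have hA0 : A ≠ 0 := fun h0 => by rw [h0] at hx0A; simp at hx0A
  have hcard : Multiset.card (RT g) ≤ D := by
    refine le_trans (card_roots' _) (le_trans ?_ hD)
    exact natDegree_map_le
  have hcardAB : Multiset.card A + Multiset.card B ≤ D := by
    rw [← Multiset.card_add, hAB]; exact hcard
  have hApos : 0 < Multiset.card A := Multiset.card_pos.mpr hA0
  have hD1 : 1 ≤ D := by omega
  have hD1r : (1 : ℝ) ≤ (D : ℝ) := by exact_mod_cast hD1
  have hAr : ∀ z ∈ A, ‖z - (x0 : ℂ)‖ ≤ r := fun z hz => (Multiset.mem_filter.mp hz).2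
  have hBR : ∀ z ∈ B, R ≤ ‖z - (x0 : ℂ)‖ := by
    intro z hz
    obtain ⟨hz1, hz2⟩ := Multiset.mem_filter.mp hz
    rcases hgap z hz1 with h3 | h3
    · exact absurd h3 hz2
    · exact h3
  have hBD : (Multiset.card B : ℝ) ≤ (D : ℝ) := by
    have : Multiset.card B ≤ D := by omega
    exact_mod_cast this
  have hc := ITR_cen A x0 r hA0 hAr
  set c : ℂ := A.sum / (Multiset.card A : ℂ) with hcdef
  have hR0 : 0 < R := by
    have : 0 < 32 * (D : ℝ) * ρ := by positivity
    linarith
  refine ⟨Multiset.card A, by omega, ?_⟩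
  -- the distances to the centroid
  have hstep : ∀ p : ℝ, 8 * r < ‖(p : ℂ) - c‖ → 16 * D * ‖(p : ℂ) - c‖ ≤ R →
      ‖((nw g (Multiset.card A) p : ℝ) : ℂ) - c‖ ≤ r + 4 * D * ‖(p : ℂ) - c‖ ^ 2 / R := by
    intro p hp8 hp16
    obtain ⟨ha, hb, hc'⟩ := h1 A B x0 p r R D hA0 hr hD1r hBD hAr hBR
      (by rw [← hcdef]; linarith) (by rw [← hcdef]; exact hp8.le) (by rw [← hcdef]; exact hp16)
    rw [← hcdef] at hc'
    obtain ⟨hd, he⟩ := h2 g hg p (by
      intro z hz
      rw [← hAB] at hz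
      exact ha z hz)
    have hf : ((RT g).map (fun z => ((p : ℂ) - z)⁻¹)).sum =
        (A.map (fun z => ((p : ℂ) - z)⁻¹)).sum + (B.map (fun z => ((p : ℂ) - z)⁻¹)).sum := by
      rw [← hAB, Multiset.map_add, Multiset.sum_add]
    rw [← hf, ← he] at hc' hb
    have hg' : aeval p (derivative g) ≠ 0 := by
      intro h0
      apply hb
      rw [h0]
      simp
    have hnw : ((nw g (Multiset.card A) p : ℝ) : ℂ) = (p : ℂ) - (Multiset.card A : ℂ) /
        ((aeval p (derivative g) / aeval p g : ℝ) : ℂ) := by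
      have : nw g (Multiset.card A) p = p - (Multiset.card A : ℝ) /
          (aeval p (derivative g) / aeval p g) := by
        rw [nw]
        field_simp
      rw [this]
      push_cast
      rfl
    rw [hnw]
    exact hc'
  have hmain : ∀ t : ℕ, (∃ s ≤ t, ‖(((nw g (Multiset.card A))^[s] x1 : ℝ) : ℂ) - c‖ ≤ 8 * r) ∨
      8 * D * ‖(((nw g (Multiset.card A))^[t] x1 : ℝ) : ℂ) - c‖ ≤ R * (1 / 2) ^ (2 ^ t) := by
    intro t
    induction t with
    | zero =>
      right
      have h3 : ‖(x1 : ℂ) - c‖ ≤ 2 * ρ := by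
        have h4 : (x1 : ℂ) - c = ((x1 : ℂ) - x0) - (c - x0) := by ring
        rw [h4]
        have h5 := norm_sub_le ((x1 : ℂ) - x0) (c - x0)
        have h6 : ‖(x1 : ℂ) - x0‖ = |x1 - x0| := by
          rw [← Complex.ofReal_sub, Complex.norm_real, Real.norm_eq_abs]
        rw [h6] at h5
        linarith
      have h4 : 8 * (D : ℝ) * ‖(x1 : ℂ) - c‖ ≤ 8 * (D : ℝ) * (2 * ρ) :=
        mul_le_mul_of_nonneg_left h3 (by positivity)
      simp only [Function.iterate_zero, id_eq, pow_zero, pow_one]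
      nlinarith
    | succ t ih =>
      rcases ih with ⟨s, hs, h3⟩ | h3
      · exact Or.inl ⟨s, by omega, h3⟩
      · by_cases h8 : ‖(((nw g (Multiset.card A))^[t] x1 : ℝ) : ℂ) - c‖ ≤ 8 * r
        · exact Or.inl ⟨t, by omega, h8⟩
        · push Not at h8
          set d : ℝ := ‖(((nw g (Multiset.card A))^[t] x1 : ℝ) : ℂ) - c‖ with hddef
          have hd0 : 0 < d := by linarith
          have hq : ((1 : ℝ) / 2) ^ (2 ^ t) ≤ 1 / 2 := by
            have h4 : ((1 : ℝ) / 2) ^ (2 ^ t) ≤ (1 / 2) ^ 1 :=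
              pow_le_pow_of_le_one (by norm_num) (by norm_num) Nat.one_le_two_pow
            simpa using h4
          have h16 : 16 * D * d ≤ R := by
            have h4 : R * (1 / 2) ^ (2 ^ t) ≤ R * (1 / 2) := mul_le_mul_of_nonneg_left hq hR0.le
            linarith
          have h5 := hstep _ h8 h16
          rw [← hddef] at h5
          rw [Function.iterate_succ_apply']
          by_cases h6 : 4 * D * d ^ 2 / R ≤ r
          · left
            refine ⟨t + 1, le_rfl, ?_⟩
            rw [Function.iterate_succ_apply']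
            linarith
          · right
            push Not at h6
            have h7 : ‖((nw g (Multiset.card A) ((nw g (Multiset.card A))^[t] x1) : ℝ) : ℂ) - c‖ ≤
                8 * D * d ^ 2 / R := by
              have : 8 * (D : ℝ) * d ^ 2 / R = 4 * D * d ^ 2 / R + 4 * D * d ^ 2 / R := by ring
              linarith
            have h9 : 8 * (D : ℝ) * (8 * D * d ^ 2 / R) = (8 * D * d) ^ 2 / R := by ring
            have h10 : (8 * (D : ℝ) * d) ^ 2 ≤ (R * (1 / 2) ^ (2 ^ t)) ^ 2 :=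
              pow_le_pow_left₀ (by positivity) h3 2
            have h11 : (R * (1 / 2 : ℝ) ^ (2 ^ t)) ^ 2 / R = R * (1 / 2) ^ (2 ^ (t + 1)) := by
              rw [mul_pow, ← pow_mul, ← pow_succ]
              field_simp
            calc 8 * (D : ℝ) *
                  ‖((nw g (Multiset.card A) ((nw g (Multiset.card A))^[t] x1) : ℝ) : ℂ) - c‖
                ≤ 8 * (D : ℝ) * (8 * D * d ^ 2 / R) :=
                  mul_le_mul_of_nonneg_left h7 (by positivity)
              _ = (8 * D * d) ^ 2 / R := h9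
              _ ≤ (R * (1 / 2) ^ (2 ^ t)) ^ 2 / R := by
                  apply div_le_div_of_nonneg_right h10 hR0.le
              _ = R * (1 / 2) ^ (2 ^ (t + 1)) := h11
  intro t
  have hfin : ∀ y : ℝ, |y - x0| ≤ ‖(y : ℂ) - c‖ + r := by
    intro y
    have h4 : (y : ℂ) - x0 = ((y : ℂ) - c) + (c - x0) := by ring
    have h5 := norm_add_le ((y : ℂ) - c) (c - x0)
    rw [← h4] at h5
    have h6 : ‖(y : ℂ) - x0‖ = |y - x0| := by
      rw [← Complex.ofReal_sub, Complex.norm_real, Real.norm_eq_abs]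
    rw [h6] at h5
    linarith
  rcases hmain t with ⟨s, hs, h3⟩ | h3
  · refine ⟨s, hs, ?_⟩
    have h4 := hfin ((nw g (Multiset.card A))^[s] x1)
    have h5 : 0 ≤ R * (1 / 2) ^ (2 ^ t) := by positivity
    linarith
  · refine ⟨t, le_rfl, ?_⟩
    have h4 := hfin ((nw g (Multiset.card A))^[t] x1)
    have h5 : ‖(((nw g (Multiset.card A))^[t] x1 : ℝ) : ℂ) - c‖ ≤
        8 * D * ‖(((nw g (Multiset.card A))^[t] x1 : ℝ) : ℂ) - c‖ := by
      have := norm_nonneg ((((nw g (Multiset.card A))^[t] x1 : ℝ) : ℂ) - c)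
      nlinarith
    linarith

end Pool.Agent.Work.MP_859ada_lc.FS
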