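import Pool.Agent.Work.MP_859ada_lc.FS.Stmts

/-!
# Block FS, item LGD (helper39): the logarithmic derivative
-/

set_option autoImplicit false

namespace Pool.Agent.Work.MP_859ada_lc.FS

open Polynomial

theorem LGD_eval (g : ℤ[X]) (x : ℝ) :
    (g.map (Int.castRingHom ℂ)).eval (x : ℂ) = ((aeval x g : ℝ) : ℂ) := by
  rw [← RootCH.aeval_ofReal]
  have h : Int.castRingHom ℂ = algebraMap ℤ ℂ := rfl
  rw [h, eval_map_algebraMap]

theorem prfLGD : LGD := by
  intro g hg x hx
  have hG : g.map (Int.castRingHom ℂ) ≠ 0 := by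
    rw [Ne, Polynomial.map_eq_zero_iff (RingHom.injective_int (Int.castRingHom ℂ))]
    exact hg
  have h1 : (g.map (Int.castRingHom ℂ)).eval (x : ℂ) ≠ 0 := by
    intro h
    exact hx (x : ℂ) ((mem_roots hG).2 h) rfl
  constructor
  · intro h
    rw [LGD_eval, h] at h1
    simp at h1
  · have h2 := (IsAlgClosed.splits (g.map (Int.castRingHom ℂ))).eval_derivative_div_eval_of_ne_zero
      h1
    rw [derivative_map, LGD_eval, LGD_eval] at h2
    rw [Complex.ofReal_div, h2]
    simp only [one_div]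
    rfl

end Pool.Agent.Work.MP_859ada_lc.FS
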