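import Pool.Agent.Work.MP_859ada_lc.FS.Stmts

/-!
# MP_859ada_lc, block FS, item MXR: the largest distance below `R`
-/

set_option autoImplicit false

namespace Pool.Agent.Work.MP_859ada_lc.FS

open Polynomial Pool.Agent.PT

theorem prfMXR : MXR := by
  classical
  intro g x0 R hg hx0 hR
  have hroot : ∀ z : ℂ, z ∈ RT g ↔ aeval z g = 0 := by
    intro z
    rw [RT]
    exact mem_aroots.trans ⟨fun h => h.2, fun h => ⟨hg, h⟩⟩
  have hx0' : (x0 : ℂ) ∈ RT g := by
    rw [hroot]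
    have h1 : aeval ((x0 : ℝ) : ℂ) g = ((aeval x0 g : ℝ) : ℂ) := by
      have := Polynomial.aeval_algebraMap_apply (A := ℝ) ℂ x0 g
      simpa using this
    rw [h1, hx0]
    simp
  set S : Finset ℂ := (RT g).toFinset.filter fun z => ‖z - (x0 : ℂ)‖ < R with hS
  have hmem : (x0 : ℂ) ∈ S := by
    rw [hS, Finset.mem_filter, Multiset.mem_toFinset]
    exact ⟨hx0', by simpa using hR⟩
  obtain ⟨z₁, hz₁, hmax⟩ := S.exists_max_image (fun z => ‖z - (x0 : ℂ)‖) ⟨_, hmem⟩
  refine ⟨‖z₁ - (x0 : ℂ)‖, norm_nonneg _, ?_, ?_, ?_⟩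
  · rw [hS, Finset.mem_filter] at hz₁
    exact hz₁.2
  · intro z hz
    by_cases h : ‖z - (x0 : ℂ)‖ < R
    · left
      apply hmax
      rw [hS, Finset.mem_filter, Multiset.mem_toFinset]
      exact ⟨hz, h⟩
    · right
      exact not_lt.mp h
  · by_cases h : z₁ = (x0 : ℂ)
    · left
      rw [h, sub_self, norm_zero]
    · right
      rw [hS, Finset.mem_filter, Multiset.mem_toFinset, hroot] at hz₁
      exact ⟨z₁, hz₁.1, h, rfl⟩

end Pool.Agent.Work.MP_859ada_lc.FS
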