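import Pool.Agent.Work.MP_859ada_lc.FS.Stmts

/-!
# Block FS, item NRM: degree and norm of the polynomial of a program
-/

set_option autoImplicit false

namespace Pool.Agent.Work.MP_859ada_lc.FS

open Polynomial Pool.Agent.PT

theorem prfNRM : NRM := by
  intro p n hn
  have h1 : ∀ k : ℕ, 1 ≤ 2 ^ k := fun k => Nat.one_le_two_pow
  have h2 : ∀ k : ℕ, 2 ^ k ≤ 2 ^ (k + 1) := fun k => Nat.pow_le_pow_right (by norm_num) (by omega)
  have h3 : ∀ k : ℕ, 2 ^ 2 ^ k ≤ 2 ^ 2 ^ (k + 1) := fun k =>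
    Nat.pow_le_pow_right (by norm_num) (h2 k)
  have h4 : ∀ k : ℕ, 2 ^ 2 ^ k + 2 ^ 2 ^ k ≤ 2 ^ 2 ^ (k + 1) := fun k => by
    calc 2 ^ 2 ^ k + 2 ^ 2 ^ k = 2 ^ (2 ^ k + 1) := by rw [pow_succ]; ring
      _ ≤ _ := Nat.pow_le_pow_right (by norm_num) (by have := h1 k; rw [pow_succ 2 k]; omega)
  have h5 : ∀ k : ℕ, 2 ^ 2 ^ k * 2 ^ 2 ^ k = 2 ^ 2 ^ (k + 1) := fun k => by
    rw [← pow_add]; congr 1; rw [pow_succ]; ring
  unfold fP
  refine value_induction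
    (fun k (a : ℤ[X]) => a.natDegree ≤ 2 ^ k ∧ RootCH.nrm a ≤ 2 ^ 2 ^ k) ?_ ?_ ?_ ?_ ?_ ?_ ?_ hn
  · simp [RootCH.nrm]
  · refine ⟨by simp, ?_⟩
    rw [← C_1, RootCH.nrm_C]
    norm_num
  · intro i
    refine ⟨?_, ?_⟩
    · simp
    · simp [RootCH.nrm_X]
  · intro k a h
    exact ⟨h.1.trans (h2 k), h.2.trans (h3 k)⟩
  · intro k a b ha hb
    refine ⟨(natDegree_add_le _ _).trans (max_le (ha.1.trans (h2 k)) (hb.1.trans (h2 k))), ?_⟩
    exact (RootCH.nrm_add_le _ _).trans ((add_le_add ha.2 hb.2).trans (h4 k))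
  · intro k a b ha hb
    refine ⟨(natDegree_sub_le _ _).trans (max_le (ha.1.trans (h2 k)) (hb.1.trans (h2 k))), ?_⟩
    exact (RootCH.nrm_sub_le _ _).trans ((add_le_add ha.2 hb.2).trans (h4 k))
  · intro k a b ha hb
    refine ⟨natDegree_mul_le.trans ?_, ?_⟩
    · have := add_le_add ha.1 hb.1
      rw [pow_succ]; omega
    · exact (RootCH.nrm_mul_le _ _).trans ((Nat.mul_le_mul ha.2 hb.2).trans (h5 k).le)

end Pool.Agent.Work.MP_859ada_lc.FS
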