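import Pool.Agent.Work.MP_859ada_lc.FS.Stmts

/-!
# Block FS, item NST: one Newton step at a gap
-/

set_option autoImplicit false

namespace Pool.Agent.Work.MP_859ada_lc.FS

open Polynomial

theorem NST_bd (s : Multiset ℂ) (f : ℂ → ℂ) (K : ℝ) (h : ∀ z ∈ s, ‖f z‖ ≤ K) :
    ‖(s.map f).sum‖ ≤ (Multiset.card s : ℝ) * K := by
  induction s using Multiset.induction_on with
  | empty => simp
  | cons a s ih =>
    rw [Multiset.map_cons, Multiset.sum_cons, Multiset.card_cons]
    have h1 := h a (Multiset.mem_cons_self a s)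
    have h2 := ih (fun z hz => h z (Multiset.mem_cons_of_mem hz))
    calc ‖f a + (s.map f).sum‖ ≤ ‖f a‖ + ‖(s.map f).sum‖ := norm_add_le _ _
      _ ≤ K + (Multiset.card s : ℝ) * K := add_le_add h1 h2
      _ = ((Multiset.card s + 1 : ℕ) : ℝ) * K := by push_cast; ring

theorem NST_sub (s : Multiset ℂ) (c : ℂ) :
    (s.map (fun z => z - c)).sum = s.sum - (Multiset.card s : ℂ) * c := by
  induction s using Multiset.induction_on with
  | empty => simp
  | cons a s ih =>
    rw [Multiset.map_cons, Multiset.sum_cons, Multiset.card_cons, ih, Multiset.sum_cons]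
    push_cast; ring

/-- the inner sum -/
theorem NST_inner (s : Multiset ℂ) (c u : ℂ) (hu : u ≠ 0) (h : ∀ z ∈ s, u - (z - c) ≠ 0) :
    (s.map (fun z => (u - (z - c))⁻¹)).sum = (Multiset.card s : ℂ) / u +
      (s.map (fun z => z - c)).sum / u ^ 2 +
      (s.map (fun z => (z - c) ^ 2 / (u ^ 2 * (u - (z - c))))).sum := by
  induction s using Multiset.induction_on with
  | empty => simp
  | cons a s ih =>
    have h2 := ih (fun z hz => h z (Multiset.mem_cons_of_mem hz))
    have h1 := h a (Multiset.mem_cons_self a s)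
    rw [Multiset.map_cons, Multiset.map_cons, Multiset.map_cons, Multiset.sum_cons,
      Multiset.sum_cons, Multiset.sum_cons, Multiset.card_cons, h2]
    have h3 : (u - (a - c))⁻¹ = 1 / u + (a - c) / u ^ 2 +
        (a - c) ^ 2 / (u ^ 2 * (u - (a - c))) := by
      field_simp
      ring
    rw [h3]
    push_cast
    ring

theorem NST_cen (A : Multiset ℂ) (x0 : ℂ) (r : ℝ) (hA : A ≠ 0) (h : ∀ z ∈ A, ‖z - x0‖ ≤ r) :
    ‖A.sum / (Multiset.card A : ℂ) - x0‖ ≤ r := by
  have hm : 0 < Multiset.card A := Multiset.card_pos.mpr hA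
  have hm' : (0 : ℝ) < (Multiset.card A : ℝ) := by exact_mod_cast hm
  have hmC : (Multiset.card A : ℂ) ≠ 0 := by exact_mod_cast hm.ne'
  have h1 := NST_bd A (fun z => z - x0) r h
  rw [NST_sub] at h1
  have h2 : A.sum / (Multiset.card A : ℂ) - x0 =
      (A.sum - (Multiset.card A : ℂ) * x0) / (Multiset.card A : ℂ) := by
    field_simp
  rw [h2, norm_div, Complex.norm_natCast, div_le_iff₀ hm']
  linarith [mul_comm (Multiset.card A : ℝ) r]

theorem prfNST : NST := by
  intro A B x0 p r R D hA hr hD hB hAr hBR hd0 h8 h16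
  have hm : 0 < Multiset.card A := Multiset.card_pos.mpr hA
  have hm' : (0 : ℝ) < (Multiset.card A : ℝ) := by exact_mod_cast hm
  have hm1 : (1 : ℝ) ≤ (Multiset.card A : ℝ) := by exact_mod_cast hm
  have hmC : (Multiset.card A : ℂ) ≠ 0 := by exact_mod_cast hm.ne'
  have hc := NST_cen A x0 r hA hAr
  set c : ℂ := A.sum / (Multiset.card A : ℂ) with hcdef
  set m : ℝ := (Multiset.card A : ℝ) with hmdef
  set u : ℂ := p - c with hudef
  set d : ℝ := ‖u‖ with hddef
  have hu : u ≠ 0 := norm_pos_iff.mp hd0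
  have hRd : 16 * d ≤ R := by nlinarith
  have hR0 : 0 < R := by linarith
  -- inner points
  have hw : ∀ z ∈ A, ‖z - c‖ ≤ 2 * r := by
    intro z hz
    have h1 : z - c = (z - x0) - (c - x0) := by ring
    rw [h1]
    have := norm_sub_le (z - x0) (c - x0)
    have := hAr z hz
    linarith
  have hin : ∀ z ∈ A, 3 / 4 * d ≤ ‖u - (z - c)‖ := by
    intro z hz
    have h1 := norm_sub_norm_le u (z - c)
    have h2 := hw z hz
    linarith
  have hout : ∀ z ∈ B, 7 / 8 * R ≤ ‖p - z‖ := by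
    intro z hz
    have h1 : z - x0 = (c - x0) + u - (p - z) := by rw [hudef]; ring
    have h2 := norm_sub_le ((c - x0) + u) (p - z)
    have h3 := norm_add_le (c - x0) u
    have h4 := hBR z hz
    rw [← h1] at h2
    linarith
  have hpA : ∀ z ∈ A, u - (z - c) ≠ 0 := by
    intro z hz h0
    have := hin z hz
    rw [h0, norm_zero] at this
    linarith
  have hpz : ∀ z, p - z = u - (z - c) := by intro z; rw [hudef]; ring
  have hne : ∀ z ∈ A + B, p ≠ z := by
    intro z hz
    rcases Multiset.mem_add.mp hz with hz | hz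
    · intro h0
      apply hpA z hz
      rw [← hpz, h0, sub_self]
    · intro h0
      have := hout z hz
      rw [h0, sub_self, norm_zero] at this
      linarith
  -- the sums
  have hsum0 : (A.map (fun z => z - c)).sum = 0 := by
    rw [NST_sub, hcdef, mul_div_cancel₀ _ hmC, sub_self]
  have hS : (A.map (fun z => (p - z)⁻¹)).sum = (Multiset.card A : ℂ) / u +
      (A.map (fun z => (z - c) ^ 2 / (u ^ 2 * (u - (z - c))))).sum := by
    have h1 : (fun z => (p - z)⁻¹) = (fun z => (u - (z - c))⁻¹) := by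
      funext z; rw [hpz]
    rw [h1, NST_inner A c u hu hpA, hsum0]
    ring
  have hE1 : ‖(A.map (fun z => (z - c) ^ 2 / (u ^ 2 * (u - (z - c))))).sum‖ ≤
      m * (6 * r ^ 2 / d ^ 3) := by
    refine NST_bd A _ _ ?_
    intro z hz
    rw [norm_div, norm_mul, norm_pow, norm_pow]
    have h1 := hin z hz
    have h2 := hw z hz
    have h3 : 0 < ‖u - (z - c)‖ := by linarith
    rw [div_le_div_iff₀ (by positivity) (by positivity)]
    have h4 : ‖z - c‖ ^ 2 ≤ (2 * r) ^ 2 := pow_le_pow_left₀ (norm_nonneg _) h2 2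
    have h5 : (6 * r ^ 2) * (d ^ 2 * (3 / 4 * d)) ≤ (6 * r ^ 2) * (‖u‖ ^ 2 * ‖u - (z - c)‖) :=
      mul_le_mul_of_nonneg_left (mul_le_mul_of_nonneg_left h1 (by positivity)) (by positivity)
    have h6 : ‖z - c‖ ^ 2 * d ^ 3 ≤ (2 * r) ^ 2 * d ^ 3 :=
      mul_le_mul_of_nonneg_right h4 (by positivity)
    have h7 : (2 * r) ^ 2 * d ^ 3 ≤ (6 * r ^ 2) * (d ^ 2 * (3 / 4 * d)) := by
      have : 0 ≤ r ^ 2 * d ^ 3 := by positivity
      nlinarith
    linarith
  have hE2 : ‖(B.map (fun z => (p - z)⁻¹)).sum‖ ≤ 2 * D / R := by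
    have h1 := NST_bd B (fun z => (p - z)⁻¹) (8 / (7 * R)) (by
      intro z hz
      have h1 := hout z hz
      rw [norm_inv]
      rw [inv_le_comm₀ (by linarith) (by positivity)]
      have : (8 / (7 * R))⁻¹ = 7 / 8 * R := by field_simp
      rw [this]; exact h1)
    have h2 : (Multiset.card B : ℝ) * (8 / (7 * R)) ≤ D * (8 / (7 * R)) :=
      mul_le_mul_of_nonneg_right hB (by positivity)
    have h3 : D * (8 / (7 * R)) ≤ 2 * D / R := by
      rw [mul_div_assoc', div_le_div_iff₀ (by positivity) (by positivity)]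
      nlinarith [mul_pos (by linarith : (0 : ℝ) < D) hR0]
    linarith
  set E1 : ℂ := (A.map (fun z => (z - c) ^ 2 / (u ^ 2 * (u - (z - c))))).sum with hE1def
  set E2 : ℂ := (B.map (fun z => (p - z)⁻¹)).sum with hE2def
  set θ : ℂ := u * (E1 + E2) / (Multiset.card A : ℂ) with hθ
  have hθb : ‖θ‖ ≤ 6 * r ^ 2 / d ^ 2 + 2 * D * d / R := by
    rw [hθ, norm_div, norm_mul, Complex.norm_natCast, div_le_iff₀ hm']
    have h1 : ‖E1 + E2‖ ≤ m * (6 * r ^ 2 / d ^ 3) + 2 * D / R :=
      (norm_add_le _ _).trans (add_le_add hE1 hE2)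
    have h2 : ‖u‖ * ‖E1 + E2‖ ≤ d * (m * (6 * r ^ 2 / d ^ 3) + 2 * D / R) :=
      mul_le_mul_of_nonneg_left h1 hd0.le
    have h3 : d * (m * (6 * r ^ 2 / d ^ 3) + 2 * D / R) =
        (6 * r ^ 2 / d ^ 2) * m + 2 * D * d / R := by
      field_simp
    have h4 : 2 * D * d / R ≤ 2 * D * d / R * m := by
      have : 0 ≤ 2 * D * d / R := by positivity
      nlinarith
    calc ‖u‖ * ‖E1 + E2‖ ≤ (6 * r ^ 2 / d ^ 2) * m + 2 * D * d / R := by rw [← h3]; exact h2
      _ ≤ (6 * r ^ 2 / d ^ 2) * m + 2 * D * d / R * m := by linarith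
      _ = (6 * r ^ 2 / d ^ 2 + 2 * D * d / R) * m := by ring
  have hb1 : 6 * r ^ 2 / d ^ 2 ≤ 6 / 64 := by
    rw [div_le_div_iff₀ (by positivity) (by norm_num)]
    nlinarith [mul_self_le_mul_self (by positivity : (0 : ℝ) ≤ 8 * r) h8]
  have hb2 : 2 * D * d / R ≤ 1 / 8 := by
    rw [div_le_div_iff₀ hR0 (by norm_num)]
    linarith
  have hθ4 : ‖θ‖ ≤ 1 / 4 := by linarith
  have h1θ : 3 / 4 ≤ ‖1 + θ‖ := by
    have h1 := norm_sub_norm_le (1 : ℂ) (-θ)
    rw [norm_neg, norm_one, sub_neg_eq_add] at h1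
    linarith
  have h1θ0 : 1 + θ ≠ 0 := by
    intro h0
    rw [h0, norm_zero] at h1θ
    linarith
  have hT : (A.map (fun z => (p - z)⁻¹)).sum + E2 = (Multiset.card A : ℂ) / u * (1 + θ) := by
    rw [hS, hθ]
    field_simp
    ring
  refine ⟨hne, ?_, ?_⟩
  · rw [hT]
    exact mul_ne_zero (div_ne_zero hmC hu) h1θ0
  · rw [hT]
    have h1 : p - (Multiset.card A : ℂ) / ((Multiset.card A : ℂ) / u * (1 + θ)) - c =
        u * θ / (1 + θ) := by
      have : p = u + c := by rw [hudef]; ring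
      rw [this]
      field_simp
      ring
    rw [h1, norm_div, norm_mul, div_le_iff₀ (by linarith)]
    have h2 : d * ‖θ‖ ≤ d * (6 * r ^ 2 / d ^ 2 + 2 * D * d / R) :=
      mul_le_mul_of_nonneg_left hθb hd0.le
    have h3 : d * (6 * r ^ 2 / d ^ 2 + 2 * D * d / R) = 6 * (r ^ 2 / d) + 2 * (D * d ^ 2 / R) := by
      field_simp
    have h4 : 8 * (r ^ 2 / d) ≤ r := by
      rw [mul_div_assoc', div_le_iff₀ hd0]
      nlinarith
    have h5 : 0 ≤ D * d ^ 2 / R := by positivity
    have h6 : (r + 4 * D * d ^ 2 / R) * (3 / 4) ≤ (r + 4 * D * d ^ 2 / R) * ‖1 + θ‖ := by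
      apply mul_le_mul_of_nonneg_left h1θ
      positivity
    have h7 : 4 * D * d ^ 2 / R = 4 * (D * d ^ 2 / R) := by ring
    rw [h7] at h6 ⊢
    linarith

end Pool.Agent.Work.MP_859ada_lc.FS
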