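import Pool.Agent.Work.MP_859ada_lc.FS.Stmts

set_option autoImplicit false

namespace Pool.Agent.Work.MP_859ada_lc.FS

open Polynomial Pool.Agent.PT

theorem NUM_nat : ∀ (t n : ℕ), 0 < n → n < 2 ^ t → ∀ l : List ℝ, Ch l → (1 : ℝ) ∈ l →
    Rch l (2 * t) (n : ℝ) := by
  intro t
  induction t with
  | zero =>
    intro n h0 h1
    simp at h1
    omega
  | succ t ih =>
    intro n h0 h1 l hl h1l
    rcases Nat.eq_zero_or_pos (n / 2) with h2 | h2
    · have hn : n = 1 := by omega
      subst hn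
      rw [Nat.cast_one]
      exact (Rch.self hl h1l).mono (Nat.zero_le _)
    · have h3 : n / 2 < 2 ^ t := by
        rw [pow_succ] at h1
        omega
      have h4 := ih (n / 2) h2 h3 l hl h1l
      have h5 : 2 * (t + 1) = 2 * t + (1 + 1) := by ring
      rw [h5]
      refine h4.step fun l' hl' hsub hmem => ?_
      have h6 : Rch l' 1 (((n / 2 : ℕ) : ℝ) + ((n / 2 : ℕ) : ℝ)) := Rch.op hl' hmem hmem (Or.inl rfl)
      refine h6.step fun l'' hl'' hsub' hmem' => ?_
      rcases Nat.even_or_odd n with he | ho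
      · have h7 : (n : ℝ) = ((n / 2 : ℕ) : ℝ) + ((n / 2 : ℕ) : ℝ) := by
          obtain ⟨c, hc⟩ := he
          have : n / 2 + n / 2 = n := by omega
          exact_mod_cast this.symm
        rw [h7]
        exact (Rch.self hl'' hmem').mono (Nat.zero_le _)
      · have h7 : (n : ℝ) = (((n / 2 : ℕ) : ℝ) + ((n / 2 : ℕ) : ℝ)) + 1 := by
          obtain ⟨c, hc⟩ := ho
          have : n / 2 + n / 2 + 1 = n := by omega
          exact_mod_cast this.symm
        exact Rch.op hl'' hmem' (hsub' (hsub h1l)) (Or.inl h7)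

theorem prfNUM : NUM := by
  intro t n hn l hl
  have e1 : 2 * t + 5 = 1 + (2 * t + 4) := by ring
  rw [e1]
  refine (Rch.one hl).step fun l' hl' _ h1 => ?_
  rcases lt_trichotomy n 0 with h | h | h
  · have hpos : 0 < n.natAbs := by omega
    have hlt : n.natAbs < 2 ^ t := by
      have h2 : |n| = (n.natAbs : ℤ) := Int.abs_eq_natAbs n
      rw [h2] at hn
      exact_mod_cast hn
    refine (NUM_nat t n.natAbs hpos hlt l' hl' h1).step fun l2 hl2 hs2 hm2 => ?_
    have e2 : (4 : ℕ) = 1 + 3 := rfl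
    rw [e2]
    have h0 : Rch l2 1 (0 : ℝ) := Rch.op hl2 (hs2 h1) (hs2 h1) (Or.inr (Or.inl (by ring)))
    refine h0.step fun l3 hl3 hs3 hm3 => ?_
    have h4 : (n : ℝ) = 0 - ((n.natAbs : ℕ) : ℝ) := by
      have h5 : n = 0 - (n.natAbs : ℤ) := by omega
      exact_mod_cast congrArg (fun z : ℤ => (z : ℝ)) h5
    exact (Rch.op hl3 hm3 (hs3 hm2) (Or.inr (Or.inl h4))).mono (by norm_num)
  · subst h
    rw [Int.cast_zero]
    exact (Rch.op hl' h1 h1 (Or.inr (Or.inl (by ring)))).mono (by omega)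
  · have hpos : 0 < n.natAbs := by omega
    have hlt : n.natAbs < 2 ^ t := by
      have h2 : |n| = (n.natAbs : ℤ) := Int.abs_eq_natAbs n
      rw [h2] at hn
      exact_mod_cast hn
    have h4 : (n : ℝ) = ((n.natAbs : ℕ) : ℝ) := by
      have h5 : n = (n.natAbs : ℤ) := by omega
      have h6 : (n : ℝ) = (((n.natAbs : ℕ) : ℤ) : ℝ) := by rw [← h5]
      rw [h6, Int.cast_natCast]
    rw [h4]
    exact (NUM_nat t n.natAbs hpos hlt l' hl' h1).mono (by omega)

end Pool.Agent.Work.MP_859ada_lc.FS
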