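import Pool.Agent.Work.MP_859ada_lc.FS.Stmts

/-!
# Block FS, item PW2 (helper39): powers of two in a chain
-/

set_option autoImplicit false

namespace Pool.Agent.Work.MP_859ada_lc.FS

open Polynomial

theorem PW2_aux : ∀ (t n : ℕ), n < 2 ^ t → ∀ l : List ℝ, Ch l → (1 : ℝ) ∈ l → (2 : ℝ) ∈ l →
    Rch l (2 * t) ((2 : ℝ) ^ n) := by
  intro t
  induction t with
  | zero =>
    intro n hn l hl h1 _
    have h0 : n = 0 := by simpa using hn
    rw [h0, pow_zero]
    exact Rch.self hl h1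
  | succ t ih =>
    intro n hn l hl h1 h2
    have hn' : n / 2 < 2 ^ t := by
      rw [pow_succ] at hn
      omega
    have hx := ih (n / 2) hn' l hl h1 h2
    refine Rch.step (n := 2 * t) (m := 2) hx ?_
    intro l' hl' hs hy
    rcases Nat.even_or_odd' n with ⟨k, hk | hk⟩
    · have hk2 : n / 2 = k := by omega
      rw [hk2] at hy
      refine (Rch.op hl' hy hy (x := (2 : ℝ) ^ n) ?_).mono (by norm_num)
      right; right; left
      rw [hk, two_mul, pow_add]
    · have hk2 : n / 2 = k := by omega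
      rw [hk2] at hy
      have h3 : Rch l' 1 ((2 : ℝ) ^ k * (2 : ℝ) ^ k) :=
        Rch.op hl' hy hy (Or.inr (Or.inr (Or.inl rfl)))
      refine Rch.step (n := 1) (m := 1) h3 ?_
      intro l'' hl'' hs' hy'
      refine Rch.op hl'' hy' (hs' (hs h2)) (x := (2 : ℝ) ^ n) ?_
      right; right; left
      rw [hk, pow_succ, two_mul, pow_add]

theorem prfPW2 : PW2 := by
  intro t e he l hl
  have hn : e.natAbs < 2 ^ t := by
    have h1 : ((e.natAbs : ℕ) : ℤ) < ((2 ^ t : ℕ) : ℤ) := by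
      rw [Int.natCast_natAbs]
      push_cast
      exact he
    exact_mod_cast h1
  have key : Rch l (1 + (1 + (2 * t + 1))) ((2 : ℝ) ^ e) := by
    refine Rch.step (Rch.one hl) ?_
    intro l1 hl1 _ h1
    have h2 : Rch l1 1 (2 : ℝ) := Rch.op hl1 h1 h1 (Or.inl (by norm_num))
    refine Rch.step h2 ?_
    intro l2 hl2 hs2 hy2
    refine Rch.step (PW2_aux t e.natAbs hn l2 hl2 (hs2 h1) hy2) ?_
    intro l3 hl3 hs3 hy3
    rcases Int.natAbs_eq e with h | h
    · have h4 : (2 : ℝ) ^ e = (2 : ℝ) ^ e.natAbs :=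
        (congrArg (fun k : ℤ => (2 : ℝ) ^ k) h).trans (zpow_natCast _ _)
      rw [h4]
      exact (Rch.self hl3 hy3).mono (by norm_num)
    · have h4 : (2 : ℝ) ^ e = 1 / (2 : ℝ) ^ e.natAbs := by
        refine (congrArg (fun k : ℤ => (2 : ℝ) ^ k) h).trans ?_
        show (2 : ℝ) ^ (-((e.natAbs : ℕ) : ℤ)) = 1 / (2 : ℝ) ^ e.natAbs
        rw [zpow_neg, zpow_natCast, one_div]
      refine Rch.op hl3 (hs3 (hs2 h1)) hy3 ?_
      right; right; right
      exact h4
  exact key.mono (by omega)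

end Pool.Agent.Work.MP_859ada_lc.FS
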