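import Pool.Agent.Work.MP_859ada_lc.FS.Stmts

/-!
# Block FS, item RCT: Taylor domination bounds the number of roots near zero
-/

set_option autoImplicit false

namespace Pool.Agent.Work.MP_859ada_lc.FS

open Polynomial

/-- the coefficients of a product of `X - u` -/
theorem RCT_coeff (r : ℝ) (hr : 0 ≤ r) (U : Multiset ℂ) : (∀ u ∈ U, ‖u‖ ≤ r) → ∀ i : ℕ,
    ‖(U.map (fun u => X - C u)).prod.coeff i‖ ≤
      ((Multiset.card U).choose i : ℝ) * r ^ (Multiset.card U - i) := by
  induction U using Multiset.induction_on with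
  | empty =>
    intro _ i
    rcases Nat.eq_zero_or_pos i with rfl | hi
    · simp
    · have : (1 : ℂ[X]).coeff i = 0 := by
        rw [coeff_one]; simp; omega
      simp [this]
  | cons u U ih =>
    intro hU i
    have hu : ‖u‖ ≤ r := hU u (Multiset.mem_cons_self u U)
    have ih' := ih (fun v hv => hU v (Multiset.mem_cons_of_mem hv))
    rw [Multiset.map_cons, Multiset.prod_cons, Multiset.card_cons]
    set G := (U.map (fun u => X - C u)).prod with hG
    set n := Multiset.card U with hn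
    cases i with
    | zero =>
      rw [sub_mul, coeff_sub, coeff_X_mul_zero, coeff_C_mul, zero_sub, norm_neg, norm_mul]
      have h0 := ih' 0
      simp only [Nat.choose_zero_right, Nat.cast_one, one_mul, Nat.sub_zero] at h0 ⊢
      calc ‖u‖ * ‖G.coeff 0‖ ≤ r * r ^ n := mul_le_mul hu h0 (norm_nonneg _) hr
        _ = r ^ (n + 1) := by ring
    | succ i =>
      rw [sub_mul, coeff_sub, coeff_X_mul, coeff_C_mul]
      have h1 := ih' i
      have h2 := ih' (i + 1)
      have e1 : n + 1 - (i + 1) = n - i := by omega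
      rw [e1, Nat.choose_succ_succ]
      push_cast
      have h3 : ‖u * G.coeff (i + 1)‖ ≤ ((n.choose (i + 1) : ℕ) : ℝ) * r ^ (n - i) := by
        rw [norm_mul]
        by_cases hin : i + 1 ≤ n
        · have e2 : n - i = (n - (i + 1)) + 1 := by omega
          calc ‖u‖ * ‖G.coeff (i + 1)‖
              ≤ r * (((n.choose (i + 1) : ℕ) : ℝ) * r ^ (n - (i + 1))) :=
                mul_le_mul hu h2 (norm_nonneg _) hr
            _ = ((n.choose (i + 1) : ℕ) : ℝ) * r ^ (n - i) := by rw [e2]; ring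
        · have e3 : n.choose (i + 1) = 0 := Nat.choose_eq_zero_of_lt (by omega)
          rw [e3] at h2 ⊢
          simp only [Nat.cast_zero, zero_mul] at h2 ⊢
          have : ‖G.coeff (i + 1)‖ = 0 := le_antisymm h2 (norm_nonneg _)
          rw [this]; simp
      calc ‖G.coeff i - u * G.coeff (i + 1)‖ ≤ ‖G.coeff i‖ + ‖u * G.coeff (i + 1)‖ :=
            norm_sub_le _ _
        _ ≤ ((n.choose i : ℕ) : ℝ) * r ^ (n - i) +
              ((n.choose (i + 1) : ℕ) : ℝ) * r ^ (n - i) := add_le_add h1 h3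
        _ = _ := by ring

theorem RCT_sum (t : ℕ) (s : ℝ) :
    ∑ i ∈ Finset.range t, ((t.choose i : ℕ) : ℝ) * s ^ (t - i) = (1 + s) ^ t - 1 := by
  rw [add_pow, Finset.sum_range_succ]
  simp only [one_pow, one_mul, Nat.sub_self, pow_zero, Nat.choose_self, Nat.cast_one]
  rw [add_sub_cancel_right]
  exact Finset.sum_congr rfl (fun i _ => by ring)

theorem RCT_small (t : ℕ) (s : ℝ) (ht : 1 ≤ t) (hs : 0 ≤ s) (h : 8 * (t : ℝ) ^ 2 * s ≤ 1) :
    (t : ℝ) * ((1 + s) ^ t - 1) ≤ 1 / 4 ∧ (1 + s) ^ t - 1 ≤ 1 / 4 := by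
  have ht1 : (1 : ℝ) ≤ t := by exact_mod_cast ht
  have hts : (t : ℝ) * s ≤ 1 / 8 := by nlinarith [mul_nonneg (by linarith : (0:ℝ) ≤ t) hs]
  have hts0 : 0 ≤ (t : ℝ) * s := mul_nonneg (by linarith) hs
  have h1 : (1 + s) ^ t ≤ Real.exp ((t : ℝ) * s) := by
    rw [Real.exp_nat_mul]
    exact pow_le_pow_left₀ (by linarith) (by linarith [Real.add_one_le_exp s]) t
  have h2 : Real.exp ((t : ℝ) * s) - 1 ≤ 2 * ((t : ℝ) * s) := by
    have h3 := Real.abs_exp_sub_one_le (x := (t : ℝ) * s) (by rw [abs_of_nonneg hts0]; linarith)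
    rw [abs_of_nonneg hts0] at h3
    exact (le_abs_self _).trans h3
  have h4 : (1 + s) ^ t - 1 ≤ 2 * ((t : ℝ) * s) := by linarith
  constructor
  · calc (t : ℝ) * ((1 + s) ^ t - 1) ≤ t * (2 * ((t : ℝ) * s)) :=
          mul_le_mul_of_nonneg_left h4 (by linarith)
      _ ≤ 1 / 4 := by nlinarith
  · linarith

theorem prfRCT : RCT := by
  intro F t Q r ht hQ hr h8 hF U hU hUr hdvd
  obtain ⟨H, rfl⟩ := hdvd
  set G := (U.map (fun u => X - C u)).prod with hG
  by_contra hne
  have hH : H ≠ 0 := fun h => hne (by rw [h, mul_zero])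
  have hQ0 : 0 < Q := by linarith
  have hGc : ∀ i, ‖G.coeff i‖ ≤ ((t.choose i : ℕ) : ℝ) * r ^ (t - i) := by
    intro i
    have := RCT_coeff r hr.le U hUr i
    rwa [hU] at this
  have hGm : G.Monic := monic_multiset_prod_of_monic U (fun u => X - C u) (fun u _ => monic_X_sub_C u)
  have hGd : G.natDegree = t := by
    rw [hG, natDegree_multiset_prod_X_sub_C_eq_card, hU]
  have hGt : G.coeff t = 1 := by
    have := hGm.coeff_natDegree
    rwa [hGd] at this
  have hGz : ∀ i, t < i → G.coeff i = 0 := fun i hi =>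
    coeff_eq_zero_of_natDegree_lt (by rw [hGd]; exact hi)
  -- the maximal normalized coefficient of `H`
  obtain ⟨n0, hn0, hmax⟩ := H.support.exists_max_image (fun n => ‖H.coeff n‖ / Q ^ n)
    (nonempty_support_iff.mpr hH)
  set M := ‖H.coeff n0‖ / Q ^ n0 with hM
  have hMpos : 0 < M := by
    rw [hM]
    exact div_pos (norm_pos_iff.mpr (mem_support_iff.mp hn0)) (pow_pos hQ0 _)
  have hHb : ∀ n, ‖H.coeff n‖ ≤ M * Q ^ n := by
    intro n
    by_cases hn : n ∈ H.support
    · exact (div_le_iff₀ (pow_pos hQ0 _)).mp (hmax n hn)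
    · rw [notMem_support_iff.mp hn, norm_zero]
      positivity
  have hMn0 : ‖H.coeff n0‖ = M * Q ^ n0 := by
    rw [hM]; field_simp
  -- the sum
  set s := r * Q with hs
  have hs0 : 0 ≤ s := by positivity
  set A := ∑ i ∈ Finset.range t, ((t.choose i : ℕ) : ℝ) * s ^ (t - i) with hA
  have hAe : A = (1 + s) ^ t - 1 := RCT_sum t s
  obtain ⟨hA1, hA2⟩ := RCT_small t s ht hs0 (by rw [hs]; linarith)
  rw [← hAe] at hA1 hA2
  -- coefficients of the product
  have hc : ∀ k, (G * H).coeff k = ∑ i ∈ Finset.range (k + 1), G.coeff i * H.coeff (k - i) := by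
    intro k
    rw [coeff_mul, Finset.Nat.sum_antidiagonal_eq_sum_range_succ_mk]
  have hlow : M * Q ^ n0 * (3 / 4) ≤ ‖(G * H).coeff (n0 + t)‖ := by
    have e1 : (G * H).coeff (n0 + t) =
        (∑ i ∈ Finset.range t, G.coeff i * H.coeff (n0 + t - i)) + H.coeff n0 := by
      rw [hc, ← Finset.sum_range_add_sum_Ico _ (show t + 1 ≤ n0 + t + 1 by omega)]
      rw [Finset.sum_eq_zero (s := Finset.Ico (t + 1) (n0 + t + 1)), add_zero,
        Finset.sum_range_succ, hGt, one_mul, Nat.add_sub_cancel]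
      intro i hi
      rw [hGz i (by have := (Finset.mem_Ico.mp hi).1; omega), zero_mul]
    have e2 : ‖∑ i ∈ Finset.range t, G.coeff i * H.coeff (n0 + t - i)‖ ≤ M * Q ^ n0 * A := by
      refine (norm_sum_le _ _).trans ?_
      rw [hA, Finset.mul_sum]
      refine Finset.sum_le_sum (fun i hi => ?_)
      have hit : i < t := Finset.mem_range.mp hi
      rw [norm_mul]
      calc ‖G.coeff i‖ * ‖H.coeff (n0 + t - i)‖
          ≤ (((t.choose i : ℕ) : ℝ) * r ^ (t - i)) * (M * Q ^ (n0 + t - i)) :=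
            mul_le_mul (hGc i) (hHb _) (norm_nonneg _) (by positivity)
        _ = M * Q ^ n0 * (((t.choose i : ℕ) : ℝ) * s ^ (t - i)) := by
            have : n0 + t - i = n0 + (t - i) := by omega
            rw [this, hs, mul_pow, pow_add]; ring
    have e3 : ‖H.coeff n0‖ - ‖∑ i ∈ Finset.range t, G.coeff i * H.coeff (n0 + t - i)‖ ≤
        ‖(G * H).coeff (n0 + t)‖ := by
      rw [e1]
      have := norm_sub_norm_le (H.coeff n0)
        (-(∑ i ∈ Finset.range t, G.coeff i * H.coeff (n0 + t - i)))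
      rw [norm_neg, sub_neg_eq_add] at this
      rwa [add_comm (∑ i ∈ Finset.range t, G.coeff i * H.coeff (n0 + t - i))]
    rw [hMn0] at e3
    have : M * Q ^ n0 * A ≤ M * Q ^ n0 * (1 / 4) :=
      mul_le_mul_of_nonneg_left hA2 (by positivity)
    linarith
  have hup : ‖(G * H).coeff (n0 + t)‖ ≤ M * Q ^ n0 * (1 / 4) := by
    refine (hF (n0 + t) (by omega)).trans ?_
    have e1 : ∀ j ∈ Finset.range t, Q ^ (n0 + t - j) * ‖(G * H).coeff j‖ ≤ M * Q ^ n0 * A := by
      intro j hj
      have hjt : j < t := Finset.mem_range.mp hj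
      have e2 : ‖(G * H).coeff j‖ ≤ ∑ i ∈ Finset.range (j + 1),
          (((t.choose i : ℕ) : ℝ) * r ^ (t - i)) * (M * Q ^ (j - i)) := by
        rw [hc]
        refine (norm_sum_le _ _).trans (Finset.sum_le_sum (fun i _ => ?_))
        rw [norm_mul]
        exact mul_le_mul (hGc i) (hHb _) (norm_nonneg _) (by positivity)
      calc Q ^ (n0 + t - j) * ‖(G * H).coeff j‖
          ≤ Q ^ (n0 + t - j) * ∑ i ∈ Finset.range (j + 1),
            (((t.choose i : ℕ) : ℝ) * r ^ (t - i)) * (M * Q ^ (j - i)) :=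
            mul_le_mul_of_nonneg_left e2 (by positivity)
        _ = ∑ i ∈ Finset.range (j + 1), M * Q ^ n0 * (((t.choose i : ℕ) : ℝ) * s ^ (t - i)) := by
            rw [Finset.mul_sum]
            refine Finset.sum_congr rfl (fun i hi => ?_)
            have hij : i ≤ j := by have := Finset.mem_range.mp hi; omega
            have e3 : Q ^ (n0 + t - j) * Q ^ (j - i) = Q ^ n0 * Q ^ (t - i) := by
              rw [← pow_add, ← pow_add]; congr 1; omega
            rw [hs, mul_pow]
            calc Q ^ (n0 + t - j) * (((t.choose i : ℕ) : ℝ) * r ^ (t - i) * (M * Q ^ (j - i)))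
                = (Q ^ (n0 + t - j) * Q ^ (j - i)) * (((t.choose i : ℕ) : ℝ) * r ^ (t - i) * M) := by
                  ring
              _ = _ := by rw [e3]; ring
        _ ≤ ∑ i ∈ Finset.range t, M * Q ^ n0 * (((t.choose i : ℕ) : ℝ) * s ^ (t - i)) := by
            refine Finset.sum_le_sum_of_subset_of_nonneg ?_ (fun i _ _ => by positivity)
            intro i hi
            rw [Finset.mem_range] at hi ⊢
            omega
        _ = M * Q ^ n0 * A := by rw [hA, Finset.mul_sum]
    calc ∑ j ∈ Finset.range t, Q ^ (n0 + t - j) * ‖(G * H).coeff j‖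
        ≤ ∑ _j ∈ Finset.range t, M * Q ^ n0 * A := Finset.sum_le_sum e1
      _ = M * Q ^ n0 * (t * A) := by
          rw [Finset.sum_const, Finset.card_range, nsmul_eq_mul]; ring
      _ ≤ M * Q ^ n0 * (1 / 4) := mul_le_mul_of_nonneg_left hA1 (by positivity)
  have hpos : 0 < M * Q ^ n0 := by positivity
  linarith

end Pool.Agent.Work.MP_859ada_lc.FS
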