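import Pool.Agent.Work.MP_859ada_lc.FS.Stmts

/-!
# Block FS, item RTB (helper39): Cauchy's bound
-/

set_option autoImplicit false

namespace Pool.Agent.Work.MP_859ada_lc.FS

open Polynomial

theorem RTB_coeff (P : ℤ[X]) (i : ℕ) : (P.coeff i).natAbs ≤ RootCH.nrm P := by
  unfold RootCH.nrm
  by_cases h : i ∈ P.support
  · exact Finset.single_le_sum (f := fun i => (P.coeff i).natAbs) (fun _ _ => Nat.zero_le _) h
  · rw [notMem_support_iff.1 h]
    exact Nat.zero_le _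

theorem prfRTB (h1 : NRM) : RTB := by
  intro h n x hl h0 hx
  obtain ⟨-, hn⟩ := h1 h n hl
  have hG : (fP h).map (Int.castRingHom ℂ) ≠ 0 := by
    rw [Ne, Polynomial.map_eq_zero_iff (RingHom.injective_int (Int.castRingHom ℂ))]
    exact h0
  have he : ((fP h).map (Int.castRingHom ℂ)).eval (x : ℂ) = 0 := by
    have h2 : Int.castRingHom ℂ = algebraMap ℤ ℂ := rfl
    rw [h2, eval_map_algebraMap, RootCH.aeval_ofReal, hx]
    simp
  have hS : ∀ i, ‖((fP h).map (Int.castRingHom ℂ)).coeff i‖ ≤ (2 : ℝ) ^ (2 ^ n) := by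
    intro i
    rw [coeff_map, eq_intCast, Complex.norm_intCast, ← Int.cast_abs, ← Int.natCast_natAbs]
    have h3 : ((fP h).coeff i).natAbs ≤ 2 ^ 2 ^ n := (RTB_coeff _ _).trans hn
    exact_mod_cast h3
  have h4 := norm_root_le hG he hS
  have h5 : (1 : ℝ) ≤ ‖((fP h).map (Int.castRingHom ℂ)).leadingCoeff‖ := by
    rw [leadingCoeff_map_of_injective (RingHom.injective_int (Int.castRingHom ℂ)), eq_intCast,
      Complex.norm_intCast, ← Int.cast_abs]
    have h6 : (1 : ℤ) ≤ |(fP h).leadingCoeff| := Int.one_le_abs (leadingCoeff_ne_zero.2 h0)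
    exact_mod_cast h6
  rw [Complex.norm_real, Real.norm_eq_abs] at h4
  have h7 : (2 : ℝ) ^ (2 ^ n) / ‖((fP h).map (Int.castRingHom ℂ)).leadingCoeff‖ ≤
      (2 : ℝ) ^ (2 ^ n) := div_le_self (by positivity) h5
  have h8 : (2 : ℝ) ≤ (2 : ℝ) ^ (2 ^ n) := by
    calc (2 : ℝ) = 2 ^ 1 := (pow_one _).symm
      _ ≤ 2 ^ (2 ^ n) := pow_le_pow_right₀ (by norm_num) Nat.one_le_two_pow
  have h9 : (2 : ℝ) ^ (2 ^ (n + 1)) = (2 : ℝ) ^ (2 ^ n) * (2 : ℝ) ^ (2 ^ n) := by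
    rw [← pow_add, pow_succ, mul_two]
  rw [h9]
  nlinarith

end Pool.Agent.Work.MP_859ada_lc.FS
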