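import Pool.Agent.Work.MP_859ada_lc.FS.Stmts

/-!
# Block FS, item SND: soundness of the certificate
-/

set_option autoImplicit false

namespace Pool.Agent.Work.MP_859ada_lc.FS

open Polynomial Pool.Agent.PT

/-- the value of a program at a real number is the value of its polynomial -/
theorem SND_value (p : List Gate) (x : ℝ) : value (fun _ => x) p = aeval x (fP p) := by
  have h3 := value_map ((aeval x : ℤ[X] →ₐ[ℤ] ℝ) : ℤ[X] →+* ℝ) (fun _ => (X : ℤ[X])) p
  simp only [RingHom.coe_coe, aeval_X] at h3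
  rw [h3]
  rfl

/-- the core: a positive query gives a real root -/
theorem SND_core (h1 : FPV) (h2 : NRM) (p a b : List Gate) (hp : p ≠ []) (hwf : WF 1 p)
    (h : 0 < value (fun _ => (0 : ℤ)) (fprog (3 * p.length + 4) a b p)) :
    ∃ x : ℝ, aeval x (fP p) = 0 := by
  by_contra hcon
  push Not at hcon
  obtain ⟨N, D, hv, hND, -⟩ := h1 (3 * p.length + 4) a b p hp hwf
  rw [hv] at h
  have hD : D ≠ 0 := by
    rintro rfl
    have : 0 ≤ (2 ^ (2 ^ (3 * p.length + 4)) * N) ^ 2 := sq_nonneg _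
    have h0 : (0 : ℤ) ^ 2 = 0 := by norm_num
    rw [h0] at h
    linarith
  have hx := hND hD
  rw [SND_value] at hx
  set x : ℝ := ((value (fun _ => (0 : ℤ)) a : ℤ) : ℝ) / ((value (fun _ => (0 : ℤ)) b : ℤ) : ℝ)
    with hxdef
  have hn := h2 p p.length le_rfl
  have hlow := RootCH.abs_lower (fP p) (2 ^ p.length) Nat.one_le_two_pow hn.1 hn.2 hcon x
  have he : 16 * (2 ^ p.length) ^ 3 = 2 ^ (3 * p.length + 4) := (RootCH.bigM_eq p.length).symm
  rw [he, ← hx, abs_div] at hlow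
  have hDR : (0 : ℝ) < |(D : ℝ)| := by
    rw [abs_pos]
    exact_mod_cast hD
  rw [← mul_div_assoc, lt_div_iff₀ hDR, one_mul] at hlow
  have hsq : |(D : ℝ)| ^ 2 < (2 ^ 2 ^ (3 * p.length + 4) * |(N : ℝ)|) ^ 2 :=
    pow_lt_pow_left₀ hlow hDR.le (by norm_num)
  have h' : (0 : ℝ) < (D : ℝ) ^ 2 - (2 ^ 2 ^ (3 * p.length + 4) * (N : ℝ)) ^ 2 := by
    have := (Int.cast_pos (R := ℝ)).2 h
    push_cast at this
    exact this
  rw [sq_abs, mul_pow, sq_abs] at hsq
  rw [mul_pow] at h'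
  linarith

theorem prfSND (h1 : FPV) (h2 : NRM) : SND := by
  intro P s hs
  obtain ⟨w, -, hR, hY⟩ := hs
  unfold certR at hR
  simp only [Bool.and_eq_true, decide_eq_true_eq] at hR
  obtain ⟨⟨hs1, hne⟩, hwf⟩ := hR
  have hwf' : WF 1 (decProg s) := (wfb_iff 1 _).1 hwf
  have hq := hY _ (List.mem_singleton.2 rfl)
  have hpos := hq.2
  exact ⟨decProg s, hs1.symm, hne, hwf', SND_core h1 h2 _ _ _ hne hwf' hpos⟩

end Pool.Agent.Work.MP_859ada_lc.FS
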