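import Pool.Agent.Work.MP_859ada_lc.FS.Stmts

/-!
# Block FS of MP_859ada_lc, item SPR: sparse polynomials have few scales everywhere
-/

set_option autoImplicit false

namespace Pool.Agent.Work.MP_859ada_lc.FS

open Polynomial Pool.Agent.PT

/-- the polynomial `f (x (1 + X))` -/
noncomputable def SPR_F (f : ℤ[X]) (x : ℝ) : ℂ[X] :=
  ∑ e ∈ f.support, C ((f.coeff e : ℂ) * (x : ℂ) ^ e) * (1 + X) ^ e

theorem SPR_eval (f : ℤ[X]) (x : ℝ) (u : ℂ) :
    (SPR_F f x).eval u = aeval ((x : ℂ) * (1 + u)) f := by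
  unfold SPR_F
  rw [Polynomial.eval_finsetSum, aeval_eq_sum_range' (lt_add_one f.natDegree)]
  rw [← Finset.sum_subset (s₁ := f.support) (s₂ := Finset.range (f.natDegree + 1))]
  · refine Finset.sum_congr rfl fun e he => ?_
    simp only [eval_mul, eval_C, eval_pow, eval_add, eval_one, eval_X, zsmul_eq_mul]
    rw [mul_pow]; ring
  · intro e he
    exact Finset.mem_range.2 (Nat.lt_succ_of_le (le_natDegree_of_mem_supp e he))
  · intro e _ he
    rw [notMem_support_iff] at he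
    simp [he]

theorem SPR_F_ne_zero (f : ℤ[X]) (x : ℝ) (hf : f ≠ 0) (hx : x ≠ 0) : SPR_F f x ≠ 0 := by
  intro h0
  apply hf
  have hxc : (x : ℂ) ≠ 0 := by exact_mod_cast hx
  have h1 : f.map (Int.castRingHom ℂ) = 0 := by
    apply Polynomial.funext
    intro w
    have h2 := SPR_eval f x (w / x - 1)
    rw [h0, eval_zero] at h2
    have h3 : (x : ℂ) * (1 + (w / x - 1)) = w := by field_simp; ring
    rw [h3] at h2
    rw [eval_zero, eval_map, ← algebraMap_int_eq, ← aeval_def]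
    exact h2.symm
  exact (Polynomial.map_eq_zero_iff (RingHom.injective_int (Int.castRingHom ℂ))).1 h1

theorem SPR_num (L t t0 : ℕ) (ht : t0 ≤ t) :
    8 * (t0 : ℝ) ^ 2 * ((2 : ℝ) ^ (t0 + 1) * ((2 ^ (L + 1) : ℕ) : ℝ)) * (1 / 2) ^ (L + 3 * t + 10)
      ≤ 1 := by
  have h1 : (t0 : ℝ) ≤ 2 ^ t0 := by exact_mod_cast (Nat.lt_two_pow_self (n := t0)).le
  have h2 : (t0 : ℝ) ^ 2 ≤ (2 ^ t0) ^ 2 := pow_le_pow_left₀ (by positivity) h1 2
  have h3 : 8 * (t0 : ℝ) ^ 2 * ((2 : ℝ) ^ (t0 + 1) * ((2 ^ (L + 1) : ℕ) : ℝ)) ≤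
      2 ^ (L + 3 * t + 10) := by
    calc 8 * (t0 : ℝ) ^ 2 * ((2 : ℝ) ^ (t0 + 1) * ((2 ^ (L + 1) : ℕ) : ℝ))
        ≤ 8 * (2 ^ t0) ^ 2 * ((2 : ℝ) ^ (t0 + 1) * ((2 ^ (L + 1) : ℕ) : ℝ)) := by
          apply mul_le_mul_of_nonneg_right _ (by positivity)
          linarith
      _ = 2 ^ (L + 3 * t0 + 5) := by push_cast; ring
      _ ≤ 2 ^ (L + 3 * t + 10) := pow_le_pow_right₀ (by norm_num) (by omega)
  calc _ ≤ (2 : ℝ) ^ (L + 3 * t + 10) * (1 / 2) ^ (L + 3 * t + 10) :=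
        mul_le_mul_of_nonneg_right h3 (by positivity)
    _ = 1 := by rw [← mul_pow]; norm_num

theorem SPR_card (h1 : TDM) (h2 : RCT) (f : ℤ[X]) (L t : ℕ) (x : ℝ) (hf : f ≠ 0) (hx : x ≠ 0)
    (hL : f.natDegree ≤ 2 ^ L) (ht : f.support.card ≤ t) (Z : Finset ℂ)
    (hZ : ∀ z ∈ Z, aeval z f = 0 ∧ 2 ^ (L + 3 * t + 10) * ‖z - (x : ℂ)‖ < |x|) : Z.card ≤ t := by
  by_contra hcon
  push Not at hcon
  have hxc : (x : ℂ) ≠ 0 := by exact_mod_cast hx
  obtain ⟨Z', hZ', hc⟩ := Finset.exists_subset_card_eq (s := Z) (n := f.support.card) (by omega)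
  have hF := SPR_F_ne_zero f x hf hx
  have ht0 : 1 ≤ f.support.card := Finset.card_pos.2 (nonempty_support_iff.2 hf)
  have hpow : 2 ^ (L + 1) = 2 ^ L + 2 ^ L := by rw [pow_succ]; ring
  have hone : 1 ≤ 2 ^ L := Nat.one_le_two_pow
  refine hF (h2 (SPR_F f x) f.support.card ((2 : ℝ) ^ (f.support.card + 1) * ((2 ^ (L + 1) : ℕ) : ℝ))
    ((1 / 2) ^ (L + 3 * t + 10)) ht0 ?_ (by positivity) (SPR_num L t _ ht) ?_
    (Z'.val.map (fun z => z / x - 1)) ?_ ?_ ?_)
  · have a1 : (1 : ℝ) ≤ 2 ^ (f.support.card + 1) := one_le_pow₀ (by norm_num)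
    have a2 : (1 : ℝ) ≤ ((2 ^ (L + 1) : ℕ) : ℝ) := by
      exact_mod_cast Nat.one_le_two_pow
    nlinarith
  · intro n hn
    refine h1 f.support (2 ^ (L + 1)) (fun e => (f.coeff e : ℂ) * (x : ℂ) ^ e) ht0 ?_ ?_ n hn
    · have := card_supp_le_succ_natDegree f
      omega
    · intro s hs
      have := le_natDegree_of_mem_supp s hs
      omega
  · rw [Multiset.card_map]; exact hc
  · intro u hu
    obtain ⟨z, hz, rfl⟩ := Multiset.mem_map.1 hu
    obtain ⟨-, hz2⟩ := hZ z (hZ' hz)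
    have e1 : z / (x : ℂ) - 1 = (z - x) / x := by field_simp
    rw [e1, norm_div, Complex.norm_real, Real.norm_eq_abs, div_le_iff₀ (abs_pos.2 hx), div_pow,
      one_pow, one_div, ← div_eq_inv_mul, le_div_iff₀ (by positivity), mul_comm]
    exact hz2.le
  · rw [Multiset.prod_X_sub_C_dvd_iff_le_roots hF, Multiset.le_iff_subset]
    · intro u hu
      obtain ⟨z, hz, rfl⟩ := Multiset.mem_map.1 hu
      obtain ⟨hz1, -⟩ := hZ z (hZ' hz)
      rw [mem_roots hF, IsRoot.def, SPR_eval]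
      have h3 : (x : ℂ) * (1 + (z / x - 1)) = z := by field_simp; ring
      rw [h3]; exact hz1
    · refine Multiset.Nodup.map ?_ Z'.nodup
      intro a b hab
      simp only [sub_left_inj] at hab
      field_simp at hab
      exact hab

/-- sparse polynomials have few scales everywhere -/
theorem prfSPR (h1 : TDM) (h2 : RCT) : SPR := by
  intro f L t x hf hL ht
  rcases eq_or_ne x 0 with rfl | hx
  · refine ⟨∅, by simp, fun z _ _ hz => ?_⟩
    exfalso
    rw [abs_zero] at hz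
    have : (0 : ℝ) ≤ 2 ^ (L + 3 * t + 10) * ‖z - ((0 : ℝ) : ℂ)‖ := by positivity
    linarith
  · classical
    set Z : Finset ℂ := (f.map (Int.castRingHom ℂ)).roots.toFinset.filter
      (fun z => z ≠ (x : ℂ) ∧ 2 ^ (L + 3 * t + 10) * ‖z - (x : ℂ)‖ < |x|) with hZ
    have hmap : f.map (Int.castRingHom ℂ) ≠ 0 :=
      fun h => hf ((Polynomial.map_eq_zero_iff (RingHom.injective_int (Int.castRingHom ℂ))).1 h)
    have hroot : ∀ z : ℂ, z ∈ (f.map (Int.castRingHom ℂ)).roots ↔ aeval z f = 0 := by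
      intro z
      rw [mem_roots hmap, IsRoot.def, eval_map, ← algebraMap_int_eq, ← aeval_def]
    have hcard : Z.card ≤ t := by
      refine SPR_card h1 h2 f L t x hf hx hL ht Z fun z hz => ?_
      rw [hZ, Finset.mem_filter, Multiset.mem_toFinset, hroot] at hz
      exact ⟨hz.1, hz.2.2⟩
    refine ⟨Z.image (fun z => Int.log 2 ‖z - (x : ℂ)‖), ?_, fun z hz1 hz2 hz3 => ?_⟩
    · exact (Finset.card_image_le).trans (by omega)
    · refine ⟨Int.log 2 ‖z - (x : ℂ)‖, Finset.mem_image_of_mem _ ?_, ?_, ?_⟩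
      · rw [hZ, Finset.mem_filter, Multiset.mem_toFinset, hroot]
        exact ⟨hz1, hz2, hz3⟩
      · have := Int.zpow_log_le_self (b := 2) (by norm_num) (norm_pos_iff.2 (sub_ne_zero.2 hz2))
        exact_mod_cast this
      · have := Int.lt_zpow_succ_log_self (b := 2) (by norm_num) ‖z - (x : ℂ)‖
        exact_mod_cast this

end Pool.Agent.Work.MP_859ada_lc.FS
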