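import Pool.Agent.Work.MP_859ada_lc.FS.Stmts

set_option autoImplicit false

namespace Pool.Agent.Work.MP_859ada_lc.FS

open Polynomial Pool.Agent.PT

theorem prfSTG (h1 : ITR) (h2 : EVL) (h3 : NUM) (h4 : NRM) : STG := by
  intro h x0 r R ρ x1 l t hne hwf hg hx0 hr hrρ hρ hR hcl hx1 hl hx1l
  obtain ⟨m, hm, hit⟩ := h1 (fP h) (2 ^ h.length) x0 r R ρ x1 hg hx0 (h4 h h.length le_rfl).1 hr hrρ
    hρ (by push_cast; exact hR) hcl hx1
  obtain ⟨s, hs, hys⟩ := hit t
  refine ⟨_, hys, ?_⟩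
  -- m in the chain
  have hmr : Rch l (2 * (h.length + 1) + 5) ((m : ℤ) : ℝ) := by
    refine h3 (h.length + 1) (m : ℤ) ?_ l hl
    rw [abs_of_nonneg (by positivity)]
    have : m < 2 ^ (h.length + 1) := by
      have : 2 ^ (h.length + 1) = 2 * 2 ^ h.length := by ring
      have h5 : 0 < 2 ^ h.length := by positivity
      omega
    exact_mod_cast this
  rw [Int.cast_natCast] at hmr
  have key : ∀ s : ℕ, ∀ l' : List ℝ, Ch l' → (m : ℝ) ∈ l' → x1 ∈ l' →
      Rch l' (s * (6 * h.length + 12)) ((nw (fP h) m)^[s] x1) := by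
    intro s
    induction s with
    | zero =>
      intro l' hl' _ hx
      simpa using Rch.self hl' hx
    | succ s ih =>
      intro l' hl' hm' hx
      rw [Function.iterate_succ_apply', Nat.succ_mul]
      refine (ih l' hl' hm' hx).step fun l2 hl2 hsub hy => ?_
      obtain ⟨y, hy'⟩ : ∃ y, y = (nw (fP h) m)^[s] x1 := ⟨_, rfl⟩
      rw [← hy'] at hy ⊢
      obtain ⟨l3, g1, g2, g3, g4, g5⟩ := h2 h hne hwf l2 y hl2 hy
      have e1 : Rch l3 1 ((m : ℝ) * aeval y (fP h)) :=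
        Rch.op g1 (g2 (hsub hm')) g4 (Or.inr (Or.inr (Or.inl rfl)))
      have e2 : Rch l3 3 (nw (fP h) m y) := by
        refine e1.step (m := 2) fun l4 k1 k2 k3 => ?_
        refine (Rch.op k1 k3 (k2 g5) (Or.inr (Or.inr (Or.inr rfl)))).step (m := 1)
          fun l5 k4 k5 k6 => ?_
        exact Rch.op k4 (k5 (k2 (g2 hy))) k6 (Or.inr (Or.inl rfl))
      obtain ⟨l6, k1, k2, k3, k4⟩ := e2
      exact ⟨l6, k1, fun a ha => k2 (g2 ha), by omega, k4⟩
  have e := hmr.step (m := s * (6 * h.length + 12)) (x := (nw (fP h) m)^[s] x1)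
    fun l' k1 k2 k3 => key s l' k1 k3 (k2 hx1l)
  refine e.mono ?_
  have : s * (6 * h.length + 12) ≤ t * (6 * h.length + 12) := Nat.mul_le_mul_right _ hs
  omega

end Pool.Agent.Work.MP_859ada_lc.FS
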