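import Pool.Agent.Work.MP_859ada_lc.FS.Stmts

/-!
# Block FS, item TDM (helper39): Taylor domination for sparse polynomials
-/

set_option autoImplicit false

namespace Pool.Agent.Work.MP_859ada_lc.FS

open Polynomial

theorem TDM_coeff (S : Finset ℕ) (γ : ℕ → ℂ) (n : ℕ) :
    (∑ e ∈ S, C (γ e) * (1 + X) ^ e : ℂ[X]).coeff n = ∑ e ∈ S, γ e * ((e.choose n : ℕ) : ℂ) := by
  rw [finsetSum_coeff]
  refine Finset.sum_congr rfl fun e _ => ?_
  rw [coeff_C_mul, coeff_one_add_X_pow]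

theorem prfTDM (h1 : FFR) : TDM := by
  intro S D γ hS1 hSD hD n hn
  have hQ : (0 : ℝ) ≤ (2 : ℝ) ^ (S.card + 1) * D := by positivity
  by_cases hnD : n ≤ D
  · obtain ⟨c, hc1, hc2⟩ := h1 S D hS1 hSD hD n hn hnD
    have h2 : (∑ e ∈ S, C (γ e) * (1 + X) ^ e : ℂ[X]).coeff n =
        ∑ j ∈ Finset.range S.card, (c j : ℂ) *
          (∑ e ∈ S, C (γ e) * (1 + X) ^ e : ℂ[X]).coeff j := by
      rw [TDM_coeff]
      simp_rw [TDM_coeff, Finset.mul_sum]
      rw [Finset.sum_comm]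
      refine Finset.sum_congr rfl fun e he => ?_
      have h3 := congrArg (fun r : ℝ => (r : ℂ)) (hc1 e he)
      simp only [Complex.ofReal_natCast, Complex.ofReal_sum, Complex.ofReal_mul] at h3
      rw [h3, Finset.mul_sum]
      refine Finset.sum_congr rfl fun j _ => ?_
      ring
    rw [h2]
    refine (norm_sum_le _ _).trans (Finset.sum_le_sum fun j hj => ?_)
    rw [norm_mul, Complex.norm_real, Real.norm_eq_abs]
    exact mul_le_mul_of_nonneg_right (hc2 j (Finset.mem_range.1 hj)) (norm_nonneg _)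
  · have h2 : (∑ e ∈ S, C (γ e) * (1 + X) ^ e : ℂ[X]).coeff n = 0 := by
      rw [TDM_coeff]
      refine Finset.sum_eq_zero fun e he => ?_
      rw [Nat.choose_eq_zero_of_lt (lt_of_le_of_lt (hD e he) (not_le.1 hnD)), Nat.cast_zero,
        mul_zero]
    rw [h2, norm_zero]
    exact Finset.sum_nonneg fun j _ => mul_nonneg (pow_nonneg hQ _) (norm_nonneg _)

end Pool.Agent.Work.MP_859ada_lc.FS
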