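import Pool.Agent.Work.MP_859ada_lc.FS.Stmts

set_option autoImplicit false

namespace Pool.Agent.Work.MP_859ada_lc.FS

open Polynomial Pool.Agent.PT

theorem prfZER : ZER := by
  intro k x h
  obtain ⟨S, -, hS⟩ := h
  by_contra hx
  have hx' : 0 < |x| := abs_pos.2 hx
  -- a small exponent outside of S
  obtain ⟨M, hM⟩ : ∃ M : ℕ, (2 : ℝ) ^ k * (1 / 2) ^ M < |x| := by
    obtain ⟨M, hM⟩ := exists_pow_lt_of_lt_one (show (0 : ℝ) < |x| / 2 ^ k by positivity)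
      (show (1 / 2 : ℝ) < 1 by norm_num)
    refine ⟨M, ?_⟩
    rw [lt_div_iff₀ (by positivity)] at hM
    linarith
  obtain ⟨j, hj1, hj2⟩ : ∃ j : ℤ, j ≤ -(M : ℤ) ∧ j ∉ S := by
    obtain ⟨B, hB⟩ := (S.finite_toSet).bddBelow
    refine ⟨min (-(M : ℤ)) (B - 1), min_le_left _ _, fun hmem => ?_⟩
    have h1 := hB (Finset.mem_coe.2 hmem)
    have h2 := min_le_right (-(M : ℤ)) (B - 1)
    omega
  have hpos : (0 : ℝ) < (2 : ℝ) ^ j := by positivity
  have hn : ‖((x + (2 : ℝ) ^ j : ℝ) : ℂ) - (x : ℂ)‖ = (2 : ℝ) ^ j := by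
    rw [← Complex.ofReal_sub, Complex.norm_real, Real.norm_eq_abs, add_sub_cancel_left,
      abs_of_pos hpos]
  obtain ⟨i, hi, h1, h2⟩ := hS ((x + (2 : ℝ) ^ j : ℝ) : ℂ) (by simp) (by
    intro he
    rw [he, sub_self, norm_zero] at hn
    linarith) (by
    rw [hn]
    refine lt_of_le_of_lt ?_ hM
    refine mul_le_mul_of_nonneg_left ?_ (by positivity)
    rw [one_div, inv_pow, ← zpow_natCast, ← zpow_neg]
    exact zpow_le_zpow_right₀ (by norm_num) hj1)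
  rw [hn] at h1 h2
  have h3 : i ≤ j := (zpow_le_zpow_iff_right₀ (by norm_num : (1 : ℝ) < 2)).1 h1
  have h4 : j < i + 1 := (zpow_lt_zpow_iff_right₀ (by norm_num : (1 : ℝ) < 2)).1 h2
  have : i = j := by omega
  rw [this] at hi
  exact hj2 hi

end Pool.Agent.Work.MP_859ada_lc.FS
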