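import Pool.Agent.Work.MP_859ada_lc.FS.Main0
import Pool.Agent.Work.MP_859ada_lc.FS.FPW
import Pool.Agent.Work.MP_859ada_lc.FS.FPV
import Pool.Agent.Work.MP_859ada_lc.FS.FPT
import Pool.Agent.Work.MP_859ada_lc.FS.CLS
import Pool.Agent.Work.MP_859ada_lc.FS.NRM
import Pool.Agent.Work.MP_859ada_lc.FS.SND
import Pool.Agent.Work.MP_859ada_lc.FS.ELN
import Pool.Agent.Work.MP_859ada_lc.FS.CPL
import Pool.Agent.Work.MP_859ada_lc.FS.CHP
import Pool.Agent.Work.MP_859ada_lc.FS.EVL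
import Pool.Agent.Work.MP_859ada_lc.FS.NUM
import Pool.Agent.Work.MP_859ada_lc.FS.PW2
import Pool.Agent.Work.MP_859ada_lc.FS.NST
import Pool.Agent.Work.MP_859ada_lc.FS.LGD
import Pool.Agent.Work.MP_859ada_lc.FS.ITR
import Pool.Agent.Work.MP_859ada_lc.FS.STG
import Pool.Agent.Work.MP_859ada_lc.FS.GSS
import Pool.Agent.Work.MP_859ada_lc.FS.MXR
import Pool.Agent.Work.MP_859ada_lc.FS.DS1
import Pool.Agent.Work.MP_859ada_lc.FS.ZER
import Pool.Agent.Work.MP_859ada_lc.FS.DSC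
import Pool.Agent.Work.MP_859ada_lc.FS.RTB
import Pool.Agent.Work.MP_859ada_lc.FS.FIN
import Pool.Agent.Work.MP_859ada_lc.FS.CMP
import Pool.Agent.Work.MP_859ada_lc.FS.FFB
import Pool.Agent.Work.MP_859ada_lc.FS.FFR
import Pool.Agent.Work.MP_859ada_lc.FS.TDM
import Pool.Agent.Work.MP_859ada_lc.FS.RCT
import Pool.Agent.Work.MP_859ada_lc.FS.SPR

/-!
# Block FS: assembly
-/

set_option autoImplicit false

namespace Pool.Agent.Work.MP_859ada_lc.FS

open Polynomial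

theorem aFPV : FPV := prfFPV prfFPW
theorem aCLS : CLS := prfCLS prfFPT
theorem aSND : SND := prfSND aFPV prfNRM
theorem aITR : ITR := prfITR prfNST prfLGD
theorem aSTG : STG := prfSTG aITR prfEVL prfNUM prfNRM
theorem aGSS : GSS := prfGSS prfNUM prfPW2
theorem aDS1 : DS1 := prfDS1 aSTG aGSS prfMXR
theorem aDSC : DSC := prfDSC aDS1 aGSS prfZER
theorem aRTB : RTB := prfRTB prfNRM
theorem aCMP : CMP := prfCMP aDSC aRTB prfFIN prfCHP prfFPW aFPV prfZER
theorem aFFR : FFR := prfFFR prfFFB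
theorem aTDM : TDM := prfTDM aFFR
theorem aSPR : SPR := prfSPR aTDM prfRCT

theorem fewScales_main (q : Polynomial ℕ) : ∃ A : List Bool → Prop, NPPosSLP A ∧
    (∀ s, A s → ROOTL s) ∧ ∀ p : List Gate, ROOT p →
      ((fP p).support.card ≤ q.eval p.length ∨
        ∃ (x : ℝ) (h : List Gate), aeval x (fP p) = 0 ∧ h ≠ [] ∧ WF 1 h ∧
          h.length ≤ q.eval p.length ∧ aeval x (fP h) = 0 ∧
          FewScales (fP h) (q.eval p.length) x) → A (encProg p) :=
  main aCLS aSND prfELN prfCPL aCMP aSPR prfNRM q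

end Pool.Agent.Work.MP_859ada_lc.FS
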