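import Pool.Agent.Work.MP_859ada_lc.FS.Stmts

/-!
# Block FS, item DSC: the descent
-/

set_option autoImplicit false

namespace Pool.Agent.Work.MP_859ada_lc.FS

open Polynomial

/-- the cost of one step -/
def DSC_c (E n : ℕ) : ℕ := (E + 1) * (6 * n + 12) + 4 * n + 2 * E + 62

theorem DSC_chain : Ch [0, 1] := by
  refine ⟨⟨trivial, Or.inl rfl⟩, Or.inr ⟨1, by simp, 1, by simp, Or.inr (Or.inl ?_)⟩⟩
  norm_num

theorem DSC_desc (h1 : DS1) (h : List Gate) (x0 : ℝ) (k E : ℕ) (S : Finset ℤ) (hh : h ≠ [])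
    (hwf : WF 1 h) (hf : fP h ≠ 0) (h0 : aeval x0 (fP h) = 0) (hxE : |x0| ≤ 2 ^ (2 ^ E))
    (hE : h.length + 6 ≤ 2 ^ E)
    (hS : ∀ z : ℂ, aeval z (fP h) = 0 → z ≠ (x0 : ℂ) → 2 ^ k * ‖z - (x0 : ℂ)‖ < |x0| → ∃ j ∈ S,
      (2 : ℝ) ^ j ≤ ‖z - (x0 : ℂ)‖ ∧ ‖z - (x0 : ℂ)‖ < (2 : ℝ) ^ (j + 1)) :
    ∀ (N : ℕ) (ρ x1 : ℝ) (l : List ℝ), 0 < ρ → 2 ^ k * (32 * 2 ^ h.length * ρ) ≤ |x0| →
      |x1 - x0| ≤ ρ → Ch l → x1 ∈ l →
      (S.filter (fun j => (2 : ℝ) ^ j < 32 * 2 ^ h.length * ρ)).card ≤ N →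
      ∃ y : ℝ, |y - x0| ≤ 10 * (1 / 2) ^ (2 ^ E) ∧ Rch l ((N + 1) * DSC_c E h.length) y := by
  intro N
  induction N with
  | zero =>
    intro ρ x1 l hρ h2 h3 hl hx1 hc
    rcases h1 h x0 ρ x1 k E S l hh hwf hf h0 hxE hE hS hρ h2 h3 hl hx1 with
      ⟨y, hy, hr⟩ | ⟨ρ', y, -, -, -, -, hlt⟩
    · exact ⟨y, hy, hr.mono (by unfold DSC_c; omega)⟩
    · omega
  | succ N ih =>
    intro ρ x1 l hρ h2 h3 hl hx1 hc
    rcases h1 h x0 ρ x1 k E S l hh hwf hf h0 hxE hE hS hρ h2 h3 hl hx1 with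
      ⟨y, hy, hr⟩ | ⟨ρ', y, hρ', h2', h3', hr, hlt⟩
    · refine ⟨y, hy, hr.mono ?_⟩
      have : DSC_c E h.length ≤ (N + 1 + 1) * DSC_c E h.length := Nat.le_mul_of_pos_left _ (by omega)
      unfold DSC_c at this ⊢
      exact this
    · obtain ⟨l', g1, g2, g3, g4⟩ := hr
      obtain ⟨y', hy', l'', k1, k2, k3, k4⟩ := ih ρ' y l' hρ' h2' h3' g1 g4 (by omega)
      refine ⟨y', hy', l'', k1, fun a ha => k2 (g2 ha), ?_, k4⟩
      have e : (N + 1 + 1) * DSC_c E h.length = (N + 1) * DSC_c E h.length + DSC_c E h.length := by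
        ring
      rw [e]
      have e2 : DSC_c E h.length = (E + 1) * (6 * h.length + 12) + 4 * h.length + 2 * E + 62 := rfl
      omega

theorem prfDSC (h1 : DS1) (h2 : GSS) (h3 : ZER) : DSC := by
  intro h x0 k E hh hwf h0 hxE hE hfs
  have hε : (0 : ℝ) < (1 / 2) ^ (2 ^ E) := by positivity
  have hbig : 2 ≤ 100 * (k + 2) * (E + 2) * (h.length + 2) := by
    have e1 : 1 ≤ (k + 2) * (E + 2) * (h.length + 2) := Nat.one_le_iff_ne_zero.2 (by positivity)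
    have e2 : 100 * (k + 2) * (E + 2) * (h.length + 2) = 100 * ((k + 2) * (E + 2) * (h.length + 2)) := by
      ring
    omega
  have hzero : Rch [] (100 * (k + 2) * (E + 2) * (h.length + 2)) 0 :=
    ⟨[0, 1], DSC_chain, fun _ ha => absurd ha (by simp), by simpa using hbig, by simp⟩
  by_cases hx : |x0| ≤ 10 * (1 / 2) ^ (2 ^ E)
  · exact ⟨0, by simpa using hx, hzero⟩
  · push Not at hx
    have hx0 : x0 ≠ 0 := by
      rintro rfl
      rw [abs_zero] at hx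
      nlinarith
    have hf : fP h ≠ 0 := by
      intro hz
      rw [hz] at hfs
      exact hx0 (h3 k x0 hfs)
    obtain ⟨S, hSc, hS⟩ := hfs
    have hxp : 0 < |x0| := abs_pos.2 hx0
    have hP : (0 : ℝ) < 2 ^ (k + h.length + 5) := by positivity
    have hP1 : (1 : ℝ) ≤ 2 ^ (k + h.length + 5) := one_le_pow₀ (by norm_num)
    have hρ0 : 0 < |x0| / 2 ^ (k + h.length + 5) := by positivity
    have hlow : ((1 : ℝ) / 2) ^ (2 ^ (E + 1)) ≤ |x0| / 2 ^ (k + h.length + 5) := by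
      have e1 : ((1 : ℝ) / 2) ^ (2 ^ (E + 1)) = (1 / 2) ^ (2 ^ E) * (1 / 2) ^ (2 ^ E) := by
        rw [← pow_add]
        congr 1
        ring
      have e2 : ((1 : ℝ) / 2) ^ (2 ^ E) ≤ 1 / 2 ^ (k + h.length + 5) := by
        calc ((1 : ℝ) / 2) ^ (2 ^ E) ≤ (1 / 2) ^ (k + h.length + 5) :=
              pow_le_pow_of_le_one (by norm_num) (by norm_num) (by omega)
          _ = 1 / 2 ^ (k + h.length + 5) := by rw [div_pow, one_pow]
      rw [e1]
      calc ((1 : ℝ) / 2) ^ (2 ^ E) * (1 / 2) ^ (2 ^ E)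
          ≤ |x0| * (1 / 2 ^ (k + h.length + 5)) := by
            apply mul_le_mul _ e2 hε.le hxp.le
            linarith
        _ = |x0| / 2 ^ (k + h.length + 5) := by ring
    have hup : |x0| / 2 ^ (k + h.length + 5) ≤ 2 ^ (2 ^ (E + 1)) := by
      calc |x0| / 2 ^ (k + h.length + 5) ≤ |x0| := div_le_self hxp.le hP1
        _ ≤ 2 ^ (2 ^ E) := hxE
        _ ≤ 2 ^ (2 ^ (E + 1)) := by
          apply pow_le_pow_right₀ one_le_two
          exact Nat.pow_le_pow_right (by norm_num) (by omega)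
    have hbd : |x0| ≤ 2 ^ (k + h.length + 5) * (|x0| / 2 ^ (k + h.length + 5)) := by
      rw [mul_div_cancel₀ _ hP.ne']
    obtain ⟨y, hy, l', g1, g2, g3, g4⟩ := h2 [0, 1] x0 0 |x0| (|x0| / 2 ^ (k + h.length + 5))
      (k + h.length + 5) (E + 1) DSC_chain (by simp) (by simp) hρ0 hbd hlow hup
    have hstart : 2 ^ k * (32 * 2 ^ h.length * (|x0| / 2 ^ (k + h.length + 5))) ≤ |x0| := by
      have : (2 : ℝ) ^ k * (32 * 2 ^ h.length * (|x0| / 2 ^ (k + h.length + 5))) =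
          (2 ^ (k + h.length + 5)) * (|x0| / 2 ^ (k + h.length + 5)) := by
        rw [pow_add, pow_add]
        ring
      rw [this, mul_div_cancel₀ _ hP.ne']
    obtain ⟨y', hy', l'', k1, k2, k3, k4⟩ := DSC_desc h1 h x0 k E S hh hwf hf h0 hxE (by omega) hS k
      (|x0| / 2 ^ (k + h.length + 5)) y l' hρ0 hstart hy g1 g4
      ((Finset.card_filter_le _ _).trans hSc)
    refine ⟨y', hy', l'', k1, fun _ ha => absurd ha (by simp), ?_, k4⟩
    have e2 : DSC_c E h.length = (E + 1) * (6 * h.length + 12) + 4 * h.length + 2 * E + 62 := rfl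
    have hid : 100 * (k + 2) * (E + 2) * (h.length + 2) =
        (k + 1) * DSC_c E h.length + (2 * k + 2 * h.length + 2 * E + 44) +
        (94 * k * E * h.length + 186 * k * E + 190 * k * h.length + 324 * k +
          194 * E * h.length + 384 * E + 388 * h.length + 682) := by
      rw [e2]
      ring
    rw [hid]
    simp only [List.length_cons, List.length_nil] at g3 ⊢
    omega

end Pool.Agent.Work.MP_859ada_lc.FS
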