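import Pool.Agent.Work.MP_859ada_lc.FS.Stmts

/-!
# MP_859ada_lc, block FS, item EVL: value and derivative of a program in a chain
-/

set_option autoImplicit false

namespace Pool.Agent.Work.MP_859ada_lc.FS

open Polynomial Pool.Agent.PT

theorem EVL_gate (x : ℝ) (V : List ℤ[X]) (l : List ℝ) (hl : Ch l) (hx : x ∈ l) (h0 : (0 : ℝ) ∈ l)
    (h1 : (1 : ℝ) ∈ l)
    (hV : ∀ k, aeval x (V.getD k 0) ∈ l ∧ aeval x (derivative (V.getD k 0)) ∈ l) (g : Gate) :
    ∃ l' : List ℝ, Ch l' ∧ l ⊆ l' ∧ l'.length ≤ l.length + 4 ∧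
      aeval x (g.val (fun _ => (X : ℤ[X])) V) ∈ l' ∧
      aeval x (derivative (g.val (fun _ => (X : ℤ[X])) V)) ∈ l' := by
  cases g with
  | one => exact ⟨l, hl, fun _ h => h, by omega, by simpa [Gate.val] using h1,
      by simpa [Gate.val] using h0⟩
  | var k => exact ⟨l, hl, fun _ h => h, by omega, by simpa [Gate.val] using hx,
      by simpa [Gate.val] using h1⟩
  | add i j =>
    obtain ⟨a1, a2⟩ := hV i
    obtain ⟨b1, b2⟩ := hV j
    have c1 : Ch ((aeval x (V.getD i 0) + aeval x (V.getD j 0)) :: l) :=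
      ⟨hl, Or.inr ⟨_, a1, _, b1, Or.inl rfl⟩⟩
    refine ⟨(aeval x (derivative (V.getD i 0)) + aeval x (derivative (V.getD j 0))) ::
      (aeval x (V.getD i 0) + aeval x (V.getD j 0)) :: l,
      ⟨c1, Or.inr ⟨_, List.mem_cons_of_mem _ a2, _, List.mem_cons_of_mem _ b2, Or.inl rfl⟩⟩,
      fun a ha => List.mem_cons_of_mem _ (List.mem_cons_of_mem _ ha), ?_, ?_, ?_⟩
    · simp only [List.length_cons]; omega
    · have e : aeval x (Gate.val (fun _ => (X : ℤ[X])) V (.add i j))
          = aeval x (V.getD i 0) + aeval x (V.getD j 0) := by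
        simp only [Gate.val, map_add]
      rw [e]
      exact List.mem_cons_of_mem _ List.mem_cons_self
    · have e : aeval x (derivative (Gate.val (fun _ => (X : ℤ[X])) V (.add i j)))
          = aeval x (derivative (V.getD i 0)) + aeval x (derivative (V.getD j 0)) := by
        simp only [Gate.val, map_add]
      rw [e]
      exact List.mem_cons_self
  | sub i j =>
    obtain ⟨a1, a2⟩ := hV i
    obtain ⟨b1, b2⟩ := hV j
    have c1 : Ch ((aeval x (V.getD i 0) - aeval x (V.getD j 0)) :: l) :=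
      ⟨hl, Or.inr ⟨_, a1, _, b1, Or.inr (Or.inl rfl)⟩⟩
    refine ⟨(aeval x (derivative (V.getD i 0)) - aeval x (derivative (V.getD j 0))) ::
      (aeval x (V.getD i 0) - aeval x (V.getD j 0)) :: l,
      ⟨c1, Or.inr ⟨_, List.mem_cons_of_mem _ a2, _, List.mem_cons_of_mem _ b2,
        Or.inr (Or.inl rfl)⟩⟩,
      fun a ha => List.mem_cons_of_mem _ (List.mem_cons_of_mem _ ha), ?_, ?_, ?_⟩
    · simp only [List.length_cons]; omega
    · have e : aeval x (Gate.val (fun _ => (X : ℤ[X])) V (.sub i j))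
          = aeval x (V.getD i 0) - aeval x (V.getD j 0) := by
        simp only [Gate.val, map_sub]
      rw [e]
      exact List.mem_cons_of_mem _ List.mem_cons_self
    · have e : aeval x (derivative (Gate.val (fun _ => (X : ℤ[X])) V (.sub i j)))
          = aeval x (derivative (V.getD i 0)) - aeval x (derivative (V.getD j 0)) := by
        simp only [Gate.val, map_sub]
      rw [e]
      exact List.mem_cons_self
  | mul i j =>
    obtain ⟨a1, a2⟩ := hV i
    obtain ⟨b1, b2⟩ := hV j
    set u := aeval x (V.getD i 0) with hu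
    set v := aeval x (V.getD j 0) with hv
    set u' := aeval x (derivative (V.getD i 0)) with hu'
    set v' := aeval x (derivative (V.getD j 0)) with hv'
    have c1 : Ch (u * v :: l) := ⟨hl, Or.inr ⟨_, a1, _, b1, Or.inr (Or.inr (Or.inl rfl))⟩⟩
    have c2 : Ch (u' * v :: u * v :: l) :=
      ⟨c1, Or.inr ⟨_, List.mem_cons_of_mem _ a2, _, List.mem_cons_of_mem _ b1,
        Or.inr (Or.inr (Or.inl rfl))⟩⟩
    have c3 : Ch (u * v' :: u' * v :: u * v :: l) :=
      ⟨c2, Or.inr ⟨_, List.mem_cons_of_mem _ (List.mem_cons_of_mem _ a1), _,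
        List.mem_cons_of_mem _ (List.mem_cons_of_mem _ b2), Or.inr (Or.inr (Or.inl rfl))⟩⟩
    refine ⟨(u' * v + u * v') :: u * v' :: u' * v :: u * v :: l,
      ⟨c3, Or.inr ⟨_, List.mem_cons_of_mem _ List.mem_cons_self, _, List.mem_cons_self,
        Or.inl rfl⟩⟩,
      fun a ha => List.mem_cons_of_mem _ (List.mem_cons_of_mem _ (List.mem_cons_of_mem _
        (List.mem_cons_of_mem _ ha))), ?_, ?_, ?_⟩
    · simp only [List.length_cons]; omega
    · have e : aeval x (Gate.val (fun _ => (X : ℤ[X])) V (.mul i j)) = u * v := by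
        simp only [Gate.val, map_mul, hu, hv]
      rw [e]
      exact List.mem_cons_of_mem _ (List.mem_cons_of_mem _ (List.mem_cons_of_mem _
        List.mem_cons_self))
    · have e : aeval x (derivative (Gate.val (fun _ => (X : ℤ[X])) V (.mul i j)))
          = u' * v + u * v' := by
        simp only [Gate.val, derivative_mul, map_add, map_mul, hu, hv, hu', hv']
      rw [e]
      exact List.mem_cons_self

theorem EVL_aux (x : ℝ) (l : List ℝ) (hl : Ch l) (hx : x ∈ l) (p : List Gate) :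
    ∃ l' : List ℝ, Ch l' ∧ l ⊆ l' ∧ l'.length ≤ l.length + (6 * p.length + 2) ∧ (0 : ℝ) ∈ l' ∧
      (1 : ℝ) ∈ l' ∧ ∀ k, aeval x ((vals (fun _ => (X : ℤ[X])) p).getD k 0) ∈ l' ∧
        aeval x (derivative ((vals (fun _ => (X : ℤ[X])) p).getD k 0)) ∈ l' := by
  induction p using List.reverseRecOn with
  | nil =>
    refine ⟨0 :: 1 :: l, ⟨⟨hl, Or.inl rfl⟩, Or.inr ⟨1, by simp, 1, by simp,
      Or.inr (Or.inl (by norm_num))⟩⟩, ?_, ?_, by simp, by simp, ?_⟩
    · intro a ha
      exact List.mem_cons_of_mem _ (List.mem_cons_of_mem _ ha)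
    · simp
    · intro k
      simp [vals]
  | append_singleton p g ih =>
    obtain ⟨l', h1, h2, h3, h4, h5, h6⟩ := ih
    obtain ⟨l'', g1, g2, g3, g4, g5⟩ :=
      EVL_gate x (vals (fun _ => (X : ℤ[X])) p) l' h1 (h2 hx) h4 h5 h6 g
    refine ⟨l'', g1, fun a ha => g2 (h2 ha), ?_, g2 h4, g2 h5, fun k => ?_⟩
    · simp only [List.length_append, List.length_cons, List.length_nil]
      omega
    · rw [vals_concat]
      rcases lt_trichotomy k (vals (fun _ => (X : ℤ[X])) p).length with h | h | h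
      · rw [List.getD_append _ _ _ _ h]
        exact ⟨g2 (h6 k).1, g2 (h6 k).2⟩
      · rw [List.getD_append_right _ _ _ _ h.ge, h, Nat.sub_self, List.getD_cons_zero]
        exact ⟨g4, g5⟩
      · rw [List.getD_eq_default _ _ (by
          rw [List.length_append, List.length_cons, List.length_nil]; omega)]
        simp only [map_zero]
        exact ⟨g2 h4, g2 h4⟩

theorem prfEVL : EVL := by
  intro p _ _ l x hl hx
  obtain ⟨l', h1, h2, h3, _, _, h6⟩ := EVL_aux x l hl hx p
  refine ⟨l', h1, h2, by omega, ?_, ?_⟩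
  · rw [fP, value_eq_getD]
    exact (h6 _).1
  · rw [fP, value_eq_getD]
    exact (h6 _).2

end Pool.Agent.Work.MP_859ada_lc.FS
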