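import Pool.Agent.Work.MP_859ada_lc.Defs

/-!
# MP_859ada_lc: the scales of the roots around a real number
-/

set_option autoImplicit false

namespace Pool.Agent.Work.MP_859ada_lc

open Polynomial

/-- The polynomial in `ℤ[X]` computed by a program in one variable. -/
noncomputable def fP (p : List Gate) : ℤ[X] := value (fun _ => X) p

/-- The real number `x` has at most `k` scales for `f`: the complex roots `z ≠ x` of `f` with
`|z - x| < 2 ^ (-k) |x|` lie in at most `k` dyadic annuli `2 ^ j ≤ |z - x| < 2 ^ (j + 1)`. -/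
def FewScales (f : ℤ[X]) (k : ℕ) (x : ℝ) : Prop :=
  ∃ S : Finset ℤ, S.card ≤ k ∧ ∀ z : ℂ, aeval z f = 0 → z ≠ (x : ℂ) →
    2 ^ k * ‖z - (x : ℂ)‖ < |x| → ∃ j ∈ S, (2 : ℝ) ^ j ≤ ‖z - (x : ℂ)‖ ∧
      ‖z - (x : ℂ)‖ < (2 : ℝ) ^ (j + 1)

end Pool.Agent.Work.MP_859ada_lc
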